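import Pool.Agent.H.MP_5fffd4_al.Defs

set_option autoImplicit false

namespace Pool.Agent.H.MP_5fffd4_al

variable {T : Type} {G : Type*} [Group G] {g : BG T} {f : T → G}

theorem mor_of_ctx {A B : g.N} {x y : List T} (h : Ctx g A B x y) :
    Mor g f A B (ev f x) (ev f y) := ⟨x, y, h, rfl, rfl⟩

theorem mor_refl (A : g.N) : Mor g f A A 1 1 := ⟨[], [], Ctx.refl A, rfl, rfl⟩

theorem mor_comp {A B C : g.N} {x y x' y' : G} (h : Mor g f A B x y) (h' : Mor g f B C x' y') :
    Mor g f A C (x * x') (y' * y) := by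
  obtain ⟨a, b, hc, rfl, rfl⟩ := h
  obtain ⟨a', b', hc', rfl, rfl⟩ := h'
  exact ⟨a ++ a', b' ++ b, hc.trans hc', by simp, by simp⟩

theorem Eqv.symm {A B : g.N} (h : Eqv g A B) : Eqv g B A := ⟨h.2, h.1⟩

theorem Alg_mor_pow {A : g.N} {x y : G} (h : Mor g f A A x y) (n : ℕ) :
    Mor g f A A (x ^ n) (y ^ n) := by
  induction n with
  | zero =>
    rw [pow_zero, pow_zero]
    exact mor_refl A
  | succ n ih =>
    rw [pow_succ x n, pow_succ' y n]
    exact mor_comp ih h

/-- Powers: `Mor A A` is closed under powers, and contains the inverse of each of its elements,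
because both coordinates have finite order.

Proof: for `(x,y) ∈ Mor A A` show `Mor A A (x ^ n) (y ^ n)` by induction; take
`N = orderOf x * orderOf y` (positive), `n = N - 1`: `x ^ (N - 1) = x⁻¹`, `y ^ (N - 1) = y⁻¹`. -/
theorem mor_inv_self (hs : Setup g f) {A : g.N} {x y : G} (h : Mor g f A A x y) :
    Mor g f A A x⁻¹ y⁻¹ := by
  have hx : 0 < orderOf x := (hs.tor x).orderOf_pos
  have hy : 0 < orderOf y := (hs.tor y).orderOf_pos
  obtain ⟨n, hn⟩ : ∃ n, orderOf x * orderOf y = n + 1 :=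
    ⟨orderOf x * orderOf y - 1, by have := Nat.mul_pos hx hy; omega⟩
  have h1 : x ^ (n + 1) = 1 := by
    rw [← hn, pow_mul, pow_orderOf_eq_one, one_pow]
  have h2 : y ^ (n + 1) = 1 := by
    rw [← hn, mul_comm, pow_mul, pow_orderOf_eq_one, one_pow]
  have h3 : x ^ n = x⁻¹ := by
    rw [pow_succ] at h1
    exact eq_inv_of_mul_eq_one_left h1
  have h4 : y ^ n = y⁻¹ := by
    rw [pow_succ] at h2
    exact eq_inv_of_mul_eq_one_left h2
  rw [← h3, ← h4]
  exact Alg_mor_pow h n

/-- The groupoid property. Take `(u,v) ∈ Mor B A` (exists by `Eqv`). Then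
`(x u, v y) ∈ Mor A A`, so `(u⁻¹ x⁻¹, y⁻¹ v⁻¹) ∈ Mor A A` by `mor_inv_self`, and composing
`(u,v)` with it gives `(u u⁻¹ x⁻¹, y⁻¹ v⁻¹ v) = (x⁻¹, y⁻¹) ∈ Mor B A`. -/
theorem mor_inv (hs : Setup g f) {A B : g.N} (hAB : Eqv g A B) {x y : G} (h : Mor g f A B x y) :
    Mor g f B A x⁻¹ y⁻¹ := by
  obtain ⟨a, b, hab⟩ := hAB.2
  have h1 : Mor g f B A (ev f a) (ev f b) := mor_of_ctx hab
  have h2 := mor_inv_self hs (mor_comp h h1)
  have h3 := mor_comp h1 h2
  have e1 : ev f a * (x * ev f a)⁻¹ = x⁻¹ := by group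
  have e2 : (ev f b * y)⁻¹ * ev f b = y⁻¹ := by group
  rw [e1, e2] at h3
  exact h3

/-- `Rg` is the set itself: closure of a set that contains 1 and is closed under products
(`mor_comp`) and inverses (`mor_inv_self`). -/
theorem mem_Rg (hs : Setup g f) {A : g.N} {r : G} : r ∈ Rg g f A ↔ Mor g f A A 1 r := by
  constructor
  · intro h
    unfold Rg at h
    induction h using Subgroup.closure_induction with
    | mem x hx => exact hx
    | one => exact mor_refl A
    | mul x y _ _ hx hy =>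
      have h1 := mor_comp hy hx
      rwa [one_mul] at h1
    | inv x _ hx =>
      have h1 := mor_inv_self hs hx
      rwa [inv_one] at h1
  · exact fun h => Subgroup.subset_closure h

theorem mem_Lg (hs : Setup g f) {A : g.N} {r : G} : r ∈ Lg g f A ↔ Mor g f A A r 1 := by
  constructor
  · intro h
    unfold Lg at h
    induction h using Subgroup.closure_induction with
    | mem x hx => exact hx
    | one => exact mor_refl A
    | mul x y _ _ hx hy =>
      have h1 := mor_comp hx hy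
      rwa [one_mul] at h1
    | inv x _ hx =>
      have h1 := mor_inv_self hs hx
      rwa [inv_one] at h1
  · exact fun h => Subgroup.subset_closure h

theorem mem_P1 (hs : Setup g f) {A : g.N} {x : G} : x ∈ P1 g f A ↔ ∃ y, Mor g f A A x y := by
  constructor
  · intro h
    unfold P1 at h
    induction h using Subgroup.closure_induction with
    | mem x hx => exact hx
    | one => exact ⟨1, mor_refl A⟩
    | mul x y _ _ hx hy =>
      obtain ⟨a, ha⟩ := hx
      obtain ⟨b, hb⟩ := hy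
      exact ⟨_, mor_comp ha hb⟩
    | inv x _ hx =>
      obtain ⟨a, ha⟩ := hx
      exact ⟨_, mor_inv_self hs ha⟩
  · exact fun h => Subgroup.subset_closure h

theorem mem_P2 (hs : Setup g f) {A : g.N} {y : G} : y ∈ P2 g f A ↔ ∃ x, Mor g f A A x y := by
  constructor
  · intro h
    unfold P2 at h
    induction h using Subgroup.closure_induction with
    | mem x hx => exact hx
    | one => exact ⟨1, mor_refl A⟩
    | mul x y _ _ hx hy =>
      obtain ⟨a, ha⟩ := hx
      obtain ⟨b, hb⟩ := hy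
      exact ⟨_, mor_comp hb ha⟩
    | inv x _ hx =>
      obtain ⟨a, ha⟩ := hx
      exact ⟨_, mor_inv_self hs ha⟩
  · exact fun h => Subgroup.subset_closure h

/-- `(x,y)⁻¹ (x,y') `: `(x⁻¹, y⁻¹)` composed with ... gives `(1, y⁻¹ y') ∈ Mor A A` resp.
`(1, y' y⁻¹) ∈ Mor B B` -/
theorem mor_R1 (hs : Setup g f) {A B : g.N} (hAB : Eqv g A B) {x y y' : G}
    (h : Mor g f A B x y) (h' : Mor g f A B x y') : y⁻¹ * y' ∈ Rg g f A := by
  rw [mem_Rg hs]
  have h1 := mor_comp h' (mor_inv hs hAB h)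
  rwa [mul_inv_cancel] at h1

theorem mor_R2 (hs : Setup g f) {A B : g.N} (hAB : Eqv g A B) {x y y' : G}
    (h : Mor g f A B x y) (h' : Mor g f A B x y') : y' * y⁻¹ ∈ Rg g f B := by
  rw [mem_Rg hs]
  have h1 := mor_comp (mor_inv hs hAB h) h'
  rwa [inv_mul_cancel] at h1

theorem mor_L1 (hs : Setup g f) {A B : g.N} (hAB : Eqv g A B) {x x' y : G}
    (h : Mor g f A B x y) (h' : Mor g f A B x' y) : x' * x⁻¹ ∈ Lg g f A := by
  rw [mem_Lg hs]
  have h1 := mor_comp h' (mor_inv hs hAB h)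
  rwa [inv_mul_cancel] at h1

theorem mor_L2 (hs : Setup g f) {A B : g.N} (hAB : Eqv g A B) {x x' y : G}
    (h : Mor g f A B x y) (h' : Mor g f A B x' y) : x⁻¹ * x' ∈ Lg g f B := by
  rw [mem_Lg hs]
  have h1 := mor_comp (mor_inv hs hAB h) h'
  rwa [mul_inv_cancel] at h1

/-- the first projections of `Mor A B` form one coset of `P1 A` -/
theorem mor_P1 (hs : Setup g f) {A B : g.N} (hAB : Eqv g A B) {x y x' y' : G}
    (h : Mor g f A B x y) (h' : Mor g f A B x' y') : x' * x⁻¹ ∈ P1 g f A :=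
  (mem_P1 hs).2 ⟨_, mor_comp h' (mor_inv hs hAB h)⟩

/-- the second projections of `Mor A B` form one coset of `P2 A` -/
theorem mor_P2 (hs : Setup g f) {A B : g.N} (hAB : Eqv g A B) {x y x' y' : G}
    (h : Mor g f A B x y) (h' : Mor g f A B x' y') : y⁻¹ * y' ∈ P2 g f A :=
  (mem_P2 hs).2 ⟨_, mor_comp h' (mor_inv hs hAB h)⟩

end Pool.Agent.H.MP_5fffd4_al
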