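import Pool.Agent.H.MP_5fffd4_al.Alg

set_option autoImplicit false

namespace Pool.Agent.H.MP_5fffd4_al

variable {T : Type} {G : Type*} [Group G] {g : BG T} {f : T → G}

/-- transport of the four subgroups along `(x,y) ∈ Mor A B`: for `l ∈ Lg B`,
`(x,y)(l,1)(x⁻¹,y⁻¹) = (x l x⁻¹, 1)`, and conversely with the inverse. -/
theorem cj_Lg (hs : Setup g f) {A B : g.N} (hAB : Eqv g A B) {x y : G}
    (h : Mor g f A B x y) : cj x (Lg g f B) = Lg g f A := by
  have hi := mor_inv hs hAB h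
  ext z
  rw [mem_cj, mem_Lg hs, mem_Lg hs]
  constructor
  · intro h1
    have h2 := mor_comp (mor_comp h h1) hi
    have e1 : x * (x⁻¹ * z * x) * x⁻¹ = z := by group
    have e2 : y⁻¹ * (1 * y) = 1 := by group
    rwa [e1, e2] at h2
  · intro h1
    have h2 := mor_comp (mor_comp hi h1) h
    have e2 : y * (1 * y⁻¹) = 1 := by group
    rwa [e2] at h2

theorem cj_P1 (hs : Setup g f) {A B : g.N} (hAB : Eqv g A B) {x y : G}
    (h : Mor g f A B x y) : cj x (P1 g f B) = P1 g f A := by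
  have hi := mor_inv hs hAB h
  ext z
  rw [mem_cj, mem_P1 hs, mem_P1 hs]
  constructor
  · rintro ⟨w, h1⟩
    have h2 := mor_comp (mor_comp h h1) hi
    have e1 : x * (x⁻¹ * z * x) * x⁻¹ = z := by group
    rw [e1] at h2
    exact ⟨_, h2⟩
  · rintro ⟨w, h1⟩
    exact ⟨_, mor_comp (mor_comp hi h1) h⟩

theorem cj_Rg (hs : Setup g f) {A B : g.N} (hAB : Eqv g A B) {x y : G}
    (h : Mor g f A B x y) : cj y⁻¹ (Rg g f B) = Rg g f A := by
  have hi := mor_inv hs hAB h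
  ext z
  rw [mem_cj, mem_Rg hs, mem_Rg hs, inv_inv]
  constructor
  · intro h1
    have h2 := mor_comp (mor_comp h h1) hi
    have e1 : x * 1 * x⁻¹ = 1 := by group
    have e2 : y⁻¹ * (y * z * y⁻¹ * y) = z := by group
    rwa [e1, e2] at h2
  · intro h1
    have h2 := mor_comp (mor_comp hi h1) h
    have e1 : x⁻¹ * 1 * x = 1 := by group
    have e2 : y * (z * y⁻¹) = y * z * y⁻¹ := by group
    rwa [e1, e2] at h2

theorem cj_P2 (hs : Setup g f) {A B : g.N} (hAB : Eqv g A B) {x y : G}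
    (h : Mor g f A B x y) : cj y⁻¹ (P2 g f B) = P2 g f A := by
  have hi := mor_inv hs hAB h
  ext z
  rw [mem_cj, mem_P2 hs, mem_P2 hs, inv_inv]
  constructor
  · rintro ⟨w, h1⟩
    have h2 := mor_comp (mor_comp h h1) hi
    have e2 : y⁻¹ * (y * z * y⁻¹ * y) = z := by group
    rw [e2] at h2
    exact ⟨_, h2⟩
  · rintro ⟨w, h1⟩
    have h2 := mor_comp (mor_comp hi h1) h
    have e2 : y * (z * y⁻¹) = y * z * y⁻¹ := by group
    rw [e2] at h2
    exact ⟨_, h2⟩

theorem Alg2_eqv_refl (A : g.N) : Eqv g A A :=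
  ⟨⟨[], [], Ctx.refl A⟩, ⟨[], [], Ctx.refl A⟩⟩

/-- `P1 A` normalises `Lg A` (`cj_Lg` with `B = A`). -/
theorem nrm_P1 (hs : Setup g f) (A : g.N) : Nrm (P1 g f A) (Lg g f A) := by
  intro p hp
  obtain ⟨y, hy⟩ := (mem_P1 hs).1 hp
  exact cj_Lg hs (Alg2_eqv_refl A) hy

/-- `P2 A` normalises `Rg A` (`cj_Rg` with `B = A`, and inverses). -/
theorem nrm_P2 (hs : Setup g f) (A : g.N) : Nrm (P2 g f A) (Rg g f A) := by
  intro p hp
  obtain ⟨x, hx⟩ := (mem_P2 hs).1 ((P2 g f A).inv_mem hp)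
  have := cj_Rg hs (Alg2_eqv_refl A) hx
  rwa [inv_inv] at this

/-- KEY EXCLUSION, right version. If `p⁻¹ (ev w) p = r ∈ Rg A` with `p = ev (x ++ u)`, take
`Ctx A A a b` with `ev a = 1`, `ev b = r⁻¹` (`mem_Rg`, inverse). The word `x a u b y` is derived
from `S` (`Ctx.trans`, `Ctx.der`), so its value is not 1 (`hs.lang`); but its value is
`p r⁻¹ p⁻¹ (ev w) = 1` (use `ev w = p * ev y`). -/
theorem excl_R (hs : Setup g f) {w : List T} {A : g.N} {x u y : List T}
    (hn : Node g w A x u y) : ev f w ∉ cj (ev f (x ++ u)) (Rg g f A) := by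
  intro hcon
  rw [mem_cj] at hcon
  obtain ⟨a, b, hc, ha, hb⟩ := (mem_Rg hs).1 ((Rg g f A).inv_mem hcon)
  have hd := (hn.ctx.trans hc).der hn.der
  have hv := (hs.lang _).1 hd
  apply hv
  rw [hn.eq] at hb
  simp only [ev_append] at hb ⊢
  rw [ha, hb]
  group

/-- KEY EXCLUSION, left version (`Ctx A A a b`, `ev a = l⁻¹`, `ev b = 1`). -/
theorem excl_L (hs : Setup g f) {w : List T} {A : g.N} {x u y : List T}
    (hn : Node g w A x u y) : ev f w ∉ cj (ev f x) (Lg g f A) := by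
  intro hcon
  rw [mem_cj] at hcon
  obtain ⟨a, b, hc, ha, hb⟩ := (mem_Lg hs).1 ((Lg g f A).inv_mem hcon)
  have hd := (hn.ctx.trans hc).der hn.der
  have hv := (hs.lang _).1 hd
  apply hv
  rw [hn.eq] at ha
  simp only [ev_append] at ha ⊢
  rw [ha, hb]
  group

end Pool.Agent.H.MP_5fffd4_al
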