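import Pool.Agent.H.MP_5fffd4_al.Alg2

set_option autoImplicit false

namespace Pool.Agent.H.MP_5fffd4_al

variable {T : Type} {G : Type*} [Group G] {g : BG T} {f : T → G}

theorem AlgN_cj_mono (z : G) {H K : Subgroup G} (h : H ≤ K) : cj z H ≤ cj z K :=
  Subgroup.map_mono h

/-- If `H ≤ z H z⁻¹` and `z` has finite order then there is equality. -/
theorem AlgN_cj_eq {H : Subgroup G} {z : G} (hz : IsOfFinOrder z) (h : H ≤ cj z H) :
    cj z H = H := by
  have key : ∀ k : ℕ, cj z H ≤ cj (z ^ (k + 1)) H := by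
    intro k
    induction k with
    | zero => rw [zero_add, pow_one]
    | succ k ih =>
      refine ih.trans ?_
      have h1 := AlgN_cj_mono (z ^ (k + 1)) h
      rwa [cj_cj, ← pow_succ] at h1
  refine le_antisymm ?_ h
  have h1 := key (orderOf z - 1)
  rwa [Nat.sub_add_cancel hz.orderOf_pos, pow_orderOf_eq_one, cj_one] at h1

theorem AlgN_der {P Q : Set g.N} (hQ : Cls g P Q) {A E : g.N} (hA : A ∈ Q) (hE : E ∈ Q)
    {u : List T} (hu : Der g A u) : ∃ v, Der g E v := by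
  obtain ⟨⟨a, b, hc⟩, -⟩ := hQ.eqv E hE A hA
  exact ⟨_, hc.der hu⟩

theorem AlgN_prod {Q : Set g.N} (hnl : ¬ Lin g Q) :
    ∃ D ∈ Q, ∃ B ∈ Q, ∃ C ∈ Q, g.bin D B C := by
  by_contra hcon
  refine hnl fun D hD B C hb hB hC => hcon ⟨D, hD, B, hB, C, hC, hb⟩

/-- Nonlinear class, right version: the values of the words derived from `A ∈ Q` lie in one left
coset of `Rg A`. -/
theorem nl_right (hs : Setup g f) {P Q : Set g.N} (hQ : Cls g P Q) (hnl : ¬ Lin g Q) {A : g.N}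
    (hA : A ∈ Q) {u v : List T} (hu : Der g A u) (hv : Der g A v) :
    (ev f u)⁻¹ * ev f v ∈ Rg g f A := by
  obtain ⟨D, hD, B, hB, C, hC, hb⟩ := AlgN_prod hnl
  have step1 : ∀ c c' : List T, Der g C c → Der g C c' → (ev f c)⁻¹ * ev f c' ∈ Rg g f D := by
    intro c c' hc hc'
    have h1 : Mor g f D B 1 (ev f c) := by
      have := mor_of_ctx (f := f) (Ctx.left hb hc (Ctx.refl B))
      rwa [ev_nil, List.nil_append] at this
    have h2 : Mor g f D B 1 (ev f c') := by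
      have := mor_of_ctx (f := f) (Ctx.left hb hc' (Ctx.refl B))
      rwa [ev_nil, List.nil_append] at this
    exact mor_R1 hs (hQ.eqv D hD B hB) h1 h2
  obtain ⟨c, hc⟩ := AlgN_der hQ hA hC hu
  have step2 : Rg g f C ≤ Rg g f D := by
    intro r hr
    obtain ⟨a, b, hab, ha, hb'⟩ := (mem_Rg hs).1 hr
    have h1 := step1 c (a ++ c ++ b) hc (hab.der hc)
    rw [ev_append, ev_append, ha, hb', one_mul, inv_mul_cancel_left] at h1
    exact h1
  have step3 : Rg g f D = Rg g f C := by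
    obtain ⟨⟨a, b, hab⟩, -⟩ := hQ.eqv D hD C hC
    have h1 := cj_Rg hs (hQ.eqv D hD C hC) (mor_of_ctx (f := f) hab)
    rw [← h1] at step2 ⊢
    exact AlgN_cj_eq (hs.tor _) step2
  obtain ⟨⟨a, b, hab⟩, -⟩ := hQ.eqv C hC A hA
  have h1 := step1 _ _ (hab.der hu) (hab.der hv)
  have h2 := cj_Rg hs (hQ.eqv C hC A hA) (mor_of_ctx (f := f) hab)
  rw [step3, ← h2, mem_cj] at h1
  have h3 : ((ev f b)⁻¹)⁻¹ * ((ev f (a ++ u ++ b))⁻¹ * ev f (a ++ v ++ b)) * (ev f b)⁻¹ =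
      (ev f u)⁻¹ * ev f v := by
    simp only [ev_append]
    group
  rwa [h3] at h1

/-- Nonlinear class, left version. -/
theorem nl_left (hs : Setup g f) {P Q : Set g.N} (hQ : Cls g P Q) (hnl : ¬ Lin g Q) {A : g.N}
    (hA : A ∈ Q) {u v : List T} (hu : Der g A u) (hv : Der g A v) :
    ev f v * (ev f u)⁻¹ ∈ Lg g f A := by
  obtain ⟨D, hD, B, hB, C, hC, hb⟩ := AlgN_prod hnl
  have step1 : ∀ c c' : List T, Der g B c → Der g B c' → ev f c' * (ev f c)⁻¹ ∈ Lg g f D := by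
    intro c c' hc hc'
    have h1 : Mor g f D C (ev f c) 1 := by
      have := mor_of_ctx (f := f) (Ctx.right hb hc (Ctx.refl C))
      rwa [ev_nil, List.append_nil] at this
    have h2 : Mor g f D C (ev f c') 1 := by
      have := mor_of_ctx (f := f) (Ctx.right hb hc' (Ctx.refl C))
      rwa [ev_nil, List.append_nil] at this
    exact mor_L1 hs (hQ.eqv D hD C hC) h1 h2
  obtain ⟨c, hc⟩ := AlgN_der hQ hA hB hu
  have step2 : Lg g f B ≤ Lg g f D := by
    intro r hr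
    obtain ⟨a, b, hab, ha, hb'⟩ := (mem_Lg hs).1 hr
    have h1 := step1 c (a ++ c ++ b) hc (hab.der hc)
    rw [ev_append, ev_append, ha, hb', mul_one, mul_inv_cancel_right] at h1
    exact h1
  have step3 : Lg g f D = Lg g f B := by
    obtain ⟨⟨a, b, hab⟩, -⟩ := hQ.eqv D hD B hB
    have h1 := cj_Lg hs (hQ.eqv D hD B hB) (mor_of_ctx (f := f) hab)
    rw [← h1] at step2 ⊢
    exact AlgN_cj_eq (hs.tor _) step2
  obtain ⟨⟨a, b, hab⟩, -⟩ := hQ.eqv B hB A hA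
  have h1 := step1 _ _ (hab.der hu) (hab.der hv)
  have h2 := cj_Lg hs (hQ.eqv B hB A hA) (mor_of_ctx (f := f) hab)
  rw [step3, ← h2, mem_cj] at h1
  have h3 : (ev f a)⁻¹ * (ev f (a ++ v ++ b) * (ev f (a ++ u ++ b))⁻¹) * ev f a =
      ev f v * (ev f u)⁻¹ := by
    simp only [ev_append]
    group
  rwa [h3] at h1

theorem AlgN_Lg_le (hs : Setup g f) (A : g.N) : Lg g f A ≤ P1 g f A := fun _ hl =>
  (mem_P1 hs).2 ⟨1, (mem_Lg hs).1 hl⟩

theorem AlgN_Rg_le (hs : Setup g f) (A : g.N) : Rg g f A ≤ P2 g f A := fun _ hl =>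
  (mem_P2 hs).2 ⟨1, (mem_Rg hs).1 hl⟩

/-- Nonlinear class: `y ∈ P2 A` implies `(ev u) y (ev u)⁻¹ ∈ P1 A` for a word `u` derived from
`A`. -/
theorem nl_P (hs : Setup g f) {P Q : Set g.N} (hQ : Cls g P Q) (hnl : ¬ Lin g Q) {A : g.N}
    (hA : A ∈ Q) {u : List T} (hu : Der g A u) {y : G} (hy : y ∈ P2 g f A) :
    ev f u * y * (ev f u)⁻¹ ∈ P1 g f A := by
  obtain ⟨x, hxy⟩ := (mem_P2 hs).1 hy
  obtain ⟨a, b, hab, ha, hb⟩ := id hxy
  have h1 := AlgN_Lg_le hs A (nl_left hs hQ hnl hA hu (hab.der hu))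
  have h2 : x ∈ P1 g f A := (mem_P1 hs).2 ⟨y, hxy⟩
  have h3 := (P1 g f A).mul_mem ((P1 g f A).inv_mem h2) h1
  have h4 : x⁻¹ * (ev f (a ++ u ++ b) * (ev f u)⁻¹) = ev f u * y * (ev f u)⁻¹ := by
    rw [ev_append, ev_append, ha, hb]
    group
  rwa [h4] at h3

/-- the same with `P1` and `P2` exchanged: `x ∈ P1 A` implies `(ev u)⁻¹ x (ev u) ∈ P2 A`
(use `nl_right` for `a u b` with `ev a = x`). Hence `cj (ev u) (P2 A) = P1 A`. -/
theorem nl_cj (hs : Setup g f) {P Q : Set g.N} (hQ : Cls g P Q) (hnl : ¬ Lin g Q) {A : g.N}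
    (hA : A ∈ Q) {u : List T} (hu : Der g A u) :
    cj (ev f u) (P2 g f A) = P1 g f A := by
  ext z
  rw [mem_cj]
  constructor
  · intro hz
    have h1 := nl_P hs hQ hnl hA hu hz
    have h2 : ev f u * ((ev f u)⁻¹ * z * ev f u) * (ev f u)⁻¹ = z := by group
    rwa [h2] at h1
  · intro hz
    obtain ⟨y, hzy⟩ := (mem_P1 hs).1 hz
    obtain ⟨a, b, hab, ha, hb⟩ := id hzy
    have h1 := AlgN_Rg_le hs A (nl_right hs hQ hnl hA hu (hab.der hu))
    have h2 : y ∈ P2 g f A := (mem_P2 hs).2 ⟨z, hzy⟩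
    have h3 := (P2 g f A).mul_mem h1 ((P2 g f A).inv_mem h2)
    have h4 : (ev f u)⁻¹ * ev f (a ++ u ++ b) * y⁻¹ = (ev f u)⁻¹ * z * ev f u := by
      rw [ev_append, ev_append, ha, hb]
      group
    rwa [h4] at h3

end Pool.Agent.H.MP_5fffd4_al
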