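import Pool.Agent.H.MP_5fffd4_al.Grp

set_option autoImplicit false

namespace Pool.Agent.H.MP_5fffd4_al

open scoped Pointwise

variable {G : Type*} [Group G]

/-- B. H. Neumann: a group is not covered by finitely many sets `Y ∩ a H b` with
`(a H a⁻¹) ∩ Y` of infinite index in `Y`.

Proof: `Y ∩ a H b` is empty or, with an element `y0` of it, equal to
`((a H a⁻¹) ∩ Y) y0` (right coset); taking inverses, a left coset
`y0⁻¹ ((a H a⁻¹) ∩ Y)`. If `Y` were covered, all inverses too, so `Y` would be a finite union of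
left cosets of subgroups of infinite index, contradicting
`Subgroup.exists_finiteIndex_of_leftCoset_cover` in the group `Y`. -/
theorem avoid (Y : Subgroup G) (S : Set (G × Subgroup G × G)) (hS : S.Finite)
    (h : ∀ t ∈ S, (cj t.1 t.2.1).relIndex Y = 0) :
    ∃ z ∈ Y, ∀ t ∈ S, ∀ k ∈ t.2.1, z ≠ t.1 * k * t.2.2 := by
  classical
  by_contra hcon
  push Not at hcon
  -- a chosen element of `Y ∩ a H b`
  have hch : ∀ t : G × Subgroup G × G, ∃ y0 : Y, (∃ z : Y, ∃ k ∈ t.2.1, (z : G) = t.1 * k * t.2.2) →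
      ∃ k ∈ t.2.1, (y0 : G) = t.1 * k * t.2.2 := by
    intro t
    by_cases ht : ∃ z : Y, ∃ k ∈ t.2.1, (z : G) = t.1 * k * t.2.2
    · obtain ⟨z, hz⟩ := ht
      exact ⟨z, fun _ => hz⟩
    · exact ⟨1, fun h' => absurd h' ht⟩
  choose y0 hy0 using hch
  have hcov : ⋃ t ∈ hS.toFinset, (y0 t)⁻¹ • (((cj t.1 t.2.1).subgroupOf Y : Subgroup Y) : Set Y) =
      Set.univ := by
    rw [Set.eq_univ_iff_forall]
    intro y
    obtain ⟨t, ht, k, hk, e⟩ := hcon ((y : G)⁻¹) (Y.inv_mem y.2)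
    rw [Set.mem_iUnion₂]
    refine ⟨t, hS.mem_toFinset.2 ht, ?_⟩
    obtain ⟨k0, hk0, e0⟩ := hy0 t ⟨y⁻¹, k, hk, by simpa using e⟩
    rw [Set.mem_smul_set_iff_inv_smul_mem, inv_inv, smul_eq_mul, SetLike.mem_coe,
      Subgroup.mem_subgroupOf, mem_cj]
    have e1 : (y : G) = (t.1 * k * t.2.2)⁻¹ := by rw [← e, inv_inv]
    have e2 : t.1⁻¹ * ((y0 t * y : Y) : G) * t.1 = k0 * k⁻¹ := by
      rw [Subgroup.coe_mul, e0, e1]
      group
    rw [e2]
    exact t.2.1.mul_mem hk0 (t.2.1.inv_mem hk)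
  obtain ⟨t, ht, hfi⟩ := Subgroup.exists_finiteIndex_of_leftCoset_cover hcov
  exact hfi.index_ne_zero (h t (hS.mem_toFinset.1 ht))

end Pool.Agent.H.MP_5fffd4_al
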