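import Pool.Agent.H.MP_5fffd4_al.Words2

set_option autoImplicit false

namespace Pool.Agent.H.MP_5fffd4_al

variable {T : Type}

/-- the blocks surrounding the blocks `q, q+1` in a cyclic order, with the letter `t` between -/
def rest (zs : List (List T)) (q : ℕ) (t : List T) : List T :=
  (zs.drop (q + 2)).flatten ++ t ++ (zs.take q).flatten

/-- subword between the positions `i` and `j` -/
def subw (r : List T) (i j : ℕ) : List T := (r.drop i).take (j - i)

theorem subw_of_eq {r a b c : List T} (h : r = a ++ b ++ c) :
    subw r a.length (a.length + b.length) = b := by
  subst h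
  simp [subw]

end Pool.Agent.H.MP_5fffd4_al
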