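import Pool.Agent.H.MP_5fffd4_al.Alg2
import Pool.Agent.H.MP_5fffd4_al.LocDef

set_option autoImplicit false

namespace Pool.Agent.H.MP_5fffd4_al

universe u

variable {T : Type} {G : Type u} [Group G] {g : BG T} {f : T → G}

/-- the relation used when the blocks are on the left side of the chain -/
def rhoL (g : BG T) (f : T → G) (Q : Set g.N) (D D' : g.N) (x y : G) : Prop :=
  D ∈ Q ∧ D' ∈ Q ∧ Mor g f D D' x y

/-- the relation used when the blocks are on the right side of the chain -/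
def rhoR (g : BG T) (f : T → G) (Q : Set g.N) (D D' : g.N) (x y : G) : Prop :=
  D ∈ Q ∧ D' ∈ Q ∧ Mor g f D' D y x

theorem rhoL_det (hs : Setup g f) {P Q : Set g.N} (hQ : Cls g P Q) {D D' : g.N} {x x' y : G}
    (h : rhoL g f Q D D' x y) (h' : rhoL g f Q D D' x' y) : x' * x⁻¹ ∈ Lg g f D :=
  mor_L1 hs (hQ.eqv D h.1 D' h.2.1) h.2.2 h'.2.2

theorem rhoR_det (hs : Setup g f) {P Q : Set g.N} (hQ : Cls g P Q) {D D' : g.N} {x x' y : G}
    (h : rhoR g f Q D D' x y) (h' : rhoR g f Q D D' x' y) : x' * x⁻¹ ∈ Rg g f D :=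
  mor_R2 hs (hQ.eqv D' h.2.1 D h.1) h.2.2 h'.2.2

/-- The bad event: the blocks `q` and `q + 1` are matched with the adjacent subwords `[j,k)` and
`[i,j)` of `rest zs q t`. -/
def BadP {N : Type} (f : T → G) (ρ : N → N → G → G → Prop) (K : N → Subgroup G)
    (Y Θ : Subgroup G) (zs : List (List T)) (q : ℕ) (t : List T) (i j k : ℕ)
    (D0 D1 D2 : N) (s0 s1 s2 : List T) : Prop :=
  cj (ev f s0)⁻¹ (K D0) ⊓ Y ≤ Θ ∧ cj (ev f s1)⁻¹ (K D1) ⊓ Y ≤ Θ ∧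
  ρ D0 D1 (ev f s0 * ev f (zs.getD q []) * (ev f s1)⁻¹) (ev f (subw (rest zs q t) j k)) ∧
  ρ D1 D2 (ev f s1 * ev f (zs.getD (q + 1) []) * (ev f s2)⁻¹)
    (ev f (subw (rest zs q t) i j))

/-- one block is determined -/
theorem bad_aux {N : Type} {V : Set (List T)} {Θ : Subgroup G} (hΘ : Quo f V Θ)
    (ρ : N → N → G → G → Prop) (K : N → Subgroup G)
    (hdet : ∀ D D' x x' y, ρ D D' x y → ρ D D' x' y → x' * x⁻¹ ∈ K D)
    {Z : Finset (List T)} (hZs : ∀ z ∈ Z, Star V z)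
    (hZ : ∀ z ∈ Z, ∀ z' ∈ Z, (ev f z)⁻¹ * ev f z' ∈ Θ → z = z') {a a' : List T} (ha : a ∈ Z)
    (ha' : a' ∈ Z) {D D' : N} {s s' : List T} {y : G}
    (hK : cj (ev f s)⁻¹ (K D) ⊓ Gam f V ≤ Θ)
    (h : ρ D D' (ev f s * ev f a * (ev f s')⁻¹) y)
    (h' : ρ D D' (ev f s * ev f a' * (ev f s')⁻¹) y) : a = a' := by
  have haG : ev f a ∈ Gam f V := ev_mem_Gam (hZs a ha)
  have haG' : ev f a' ∈ Gam f V := ev_mem_Gam (hZs a' ha')
  have h1 := hdet _ _ _ _ _ h h'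
  have h2 : ev f a' * (ev f a)⁻¹ ∈ cj (ev f s)⁻¹ (K D) := by
    rw [mem_cj]
    have h3 : (ev f s)⁻¹⁻¹ * (ev f a' * (ev f a)⁻¹) * (ev f s)⁻¹ =
        ev f s * ev f a' * (ev f s')⁻¹ * (ev f s * ev f a * (ev f s')⁻¹)⁻¹ := by group
    rw [h3]
    exact h1
  have h3 : ev f a' * (ev f a)⁻¹ ∈ Θ :=
    hK ⟨h2, (Gam f V).mul_mem haG' ((Gam f V).inv_mem haG)⟩
  rw [← hΘ.nrm _ haG, mem_cj] at h3
  refine hZ a ha a' ha' ?_
  have h4 : (ev f a)⁻¹ * (ev f a' * (ev f a)⁻¹) * ev f a = (ev f a)⁻¹ * ev f a' := by group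
  rwa [h4] at h3

/-- A bad event determines the blocks `q` and `q + 1`.

Proof. `rest zs q t = rest zs' q t`, since `rest` only uses the other blocks. So the two `ρ D0 D1`
facts have the same second element and `hdet` gives
`ev s0 * ev zs'[q] * (ev zs[q])⁻¹ * (ev s0)⁻¹ ∈ K D0`, i.e.
`ev zs'[q] * (ev zs[q])⁻¹ ∈ cj (ev s0)⁻¹ (K D0) ⊓ Y ≤ Θ`. Conjugating by `ev zs[q] ∈ Y`
(`hΘ.nrm`): `(ev zs[q])⁻¹ * ev zs'[q] ∈ Θ`, so `zs[q] = zs'[q]` by `hZ`. Likewise for `q + 1` with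
`D1`, `s1` and `ρ D1 D2`. All entries agree, so the lists are equal (`List.ofFn`, `funext`). -/
theorem bad_det {N : Type} {V : Set (List T)} {Θ : Subgroup G} (hΘ : Quo f V Θ)
    (ρ : N → N → G → G → Prop) (K : N → Subgroup G)
    (hdet : ∀ D D' x x' y, ρ D D' x y → ρ D D' x' y → x' * x⁻¹ ∈ K D)
    {Z : Finset (List T)} (hZs : ∀ z ∈ Z, Star V z)
    (hZ : ∀ z ∈ Z, ∀ z' ∈ Z, (ev f z)⁻¹ * ev f z' ∈ Θ → z = z') {m : ℕ}
    {z z' : Fin m → List T} (hz : ∀ i, z i ∈ Z) (hz' : ∀ i, z' i ∈ Z) {q : ℕ} (hq : q + 1 < m)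
    (hag : ∀ i : Fin m, (i : ℕ) ≠ q → (i : ℕ) ≠ q + 1 → z i = z' i) {t : List T} {i j k : ℕ}
    {D0 D1 D2 : N} {s0 s1 s2 : List T}
    (h : BadP f ρ K (Gam f V) Θ (List.ofFn z) q t i j k D0 D1 D2 s0 s1 s2)
    (h' : BadP f ρ K (Gam f V) Θ (List.ofFn z') q t i j k D0 D1 D2 s0 s1 s2) : z = z' := by
  have hrest : rest (List.ofFn z) q t = rest (List.ofFn z') q t := by
    unfold rest
    have h1 : (List.ofFn z).drop (q + 2) = (List.ofFn z').drop (q + 2) := by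
      refine List.ext_getElem (by simp) fun n h1 h2 => ?_
      rw [List.getElem_drop, List.getElem_drop, List.getElem_ofFn, List.getElem_ofFn]
      exact hag _ (by simp; omega) (by simp; omega)
    have h2 : (List.ofFn z).take q = (List.ofFn z').take q := by
      refine List.ext_getElem (by simp) fun n h1 h2 => ?_
      rw [List.getElem_take, List.getElem_take, List.getElem_ofFn, List.getElem_ofFn]
      rw [List.length_take] at h1
      exact hag _ (by simp; omega) (by simp; omega)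
    rw [h1, h2]
  have hget : ∀ (w : Fin m → List T) (p : ℕ) (hp : p < m), (List.ofFn w).getD p [] = w ⟨p, hp⟩ := by
    intro w p hp
    rw [List.getD_eq_getElem _ _ (by rw [List.length_ofFn]; exact hp), List.getElem_ofFn]
  obtain ⟨hk0, hk1, ha, hb⟩ := h
  obtain ⟨-, -, ha', hb'⟩ := h'
  rw [← hrest] at ha' hb'
  rw [hget _ _ (by omega)] at ha ha' hb hb'
  have e0 := bad_aux hΘ ρ K hdet hZs hZ (hz _) (hz' _) hk0 ha ha'
  have e1 := bad_aux hΘ ρ K hdet hZs hZ (hz _) (hz' _) hk1 hb hb'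
  funext p
  by_cases hp : (p : ℕ) = q
  · have h1 : p = ⟨q, by omega⟩ := Fin.ext hp
    rw [h1]
    exact e0
  by_cases hp1 : (p : ℕ) = q + 1
  · have h1 : p = ⟨q + 1, hq⟩ := Fin.ext hp1
    rw [h1]
    exact e1
  exact hag p hp hp1

/-- no bad event of any kind -/
def GoodT (g : BG T) (f : T → G) (Q : Set g.N) (V : Set (List T)) (Θ : Subgroup G) (l B : ℕ)
    (zs : List (List T)) : Prop :=
  ∀ q, q + 1 < zs.length → ∀ t, (t ∈ V ∨ t = []) → ∀ i j k, i ≤ B → j ≤ B → k ≤ B →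
    ∀ (D0 D1 D2 : g.N) (s0 s1 s2 : List T), s0.length ≤ l → s1.length ≤ l → s2.length ≤ l →
      ¬ BadP f (rhoL g f Q) (Lg g f) (Gam f V) Θ zs q t i j k D0 D1 D2 s0 s1 s2 ∧
      ¬ BadP f (rhoR g f Q) (Rg g f) (Gam f V) Θ zs q t i j k D0 D1 D2 s0 s1 s2

end Pool.Agent.H.MP_5fffd4_al
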