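import Pool.Agent.H.MP_5fffd4_al.Tree

set_option autoImplicit false

namespace Pool.Agent.H.MP_5fffd4_al

variable {T : Type}

/-- The two children of a node in a linear class. -/
theorem Chain_step {g : BG T} {P Q : Set g.N} {l : ℕ} (hQ : Cls g P Q) (hlin : Lin g Q)
    {A B C : g.N} (hA : A ∈ Q) {u v : List T} (hb : g.bin A B C) (hu : BDer g P l B u)
    (hv : BDer g P l C v) :
    (B ∈ P ∧ C ∈ P) ∨ (B ∈ Q ∧ C ∈ P) ∨ (B ∈ P ∧ C ∈ Q) := by
  have h1 := hQ.down A hA B _ _ (Ctx.left hb hv.der (Ctx.refl B))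
  have h2 := hQ.down A hA C _ _ (Ctx.right hb hu.der (Ctx.refl C))
  rcases h1 with h1 | h1
  · rcases h2 with h2 | h2
    · exact Or.inl ⟨h1, h2⟩
    · exact Or.inr (Or.inr ⟨h1, h2⟩)
  · rcases h2 with h2 | h2
    · exact Or.inr (Or.inl ⟨h1, h2⟩)
    · exact (hlin A hA B C hb h1 h2).elim

/-- End of a linear chain. Induction on `h`: `term`/`eps`: take `B = A`, empty context.
`bin`: the children `B', C'` are in `P` or `Q` (`hQ.down`, contexts `Ctx A B' [] v`,
`Ctx A C' u []`), not both in `Q` (`hlin`). If one is in `Q`, induction hypothesis and prepend the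
step; if both are in `P` then `u.length ≤ 2 l`, take `B = A`. -/
theorem chain_end {g : BG T} {P Q : Set g.N} {l : ℕ} (hQ : Cls g P Q) (hlin : Lin g Q) {A : g.N}
    (hA : A ∈ Q) {u : List T} (h : BDer g P l A u) :
    ∃ B ∈ Q, ∃ x' u' y', BCtx g P l A B x' y' ∧ BDer g P l B u' ∧ u = x' ++ u' ++ y' ∧
      u'.length ≤ 2 * l + 1 := by
  induction h with
  | @term A a h => exact ⟨A, hA, [], [a], [], BCtx.refl A, BDer.term h, rfl, by simp⟩
  | @eps A h => exact ⟨A, hA, [], [], [], BCtx.refl A, BDer.eps h, rfl, by simp⟩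
  | @bin A B C u v hb hu hv hlu hlv ihu ihv =>
    rcases Chain_step hQ hlin hA hb hu hv with ⟨hB, hC⟩ | ⟨hB, hC⟩ | ⟨hB, hC⟩
    · refine ⟨A, hA, [], u ++ v, [], BCtx.refl A, BDer.bin hb hu hv hlu hlv, by simp, ?_⟩
      have h1 := hlu hB
      have h2 := hlv hC
      rw [List.length_append]
      omega
    · obtain ⟨D, hD, x', u', y', hc, hd, he, hl⟩ := ihu hB
      refine ⟨D, hD, x', u', y' ++ v, BCtx.left hb hv.der hlv hc, hd, ?_, hl⟩
      rw [he]
      simp
    · obtain ⟨D, hD, x', u', y', hc, hd, he, hl⟩ := ihv hC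
      refine ⟨D, hD, u ++ x', u', y', BCtx.right hb hu.der hlu hc, hd, ?_, hl⟩
      rw [he]
      simp

/-- Last long node of a linear chain. Induction on `h`: `term`/`eps`: `u.length ≤ 1`,
contradiction. `bin` (children `B' ⇒ u1`, `C' ⇒ u2`): if the child in `Q` has length `> m`:
induction hypothesis and prepend the step; if the child in `Q` has length `≤ m` then
`u.length ≤ m + l`, take `B = A`; if both children are in `P` then `u.length ≤ 2 l`,
contradiction. -/
theorem last_node {g : BG T} {P Q : Set g.N} {l : ℕ} (hQ : Cls g P Q) (hlin : Lin g Q) {A : g.N}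
    (hA : A ∈ Q) {u : List T} (h : BDer g P l A u) {m : ℕ} (hm : 2 * l + 1 ≤ m)
    (hu : m < u.length) :
    ∃ B ∈ Q, ∃ x' u' y', BCtx g P l A B x' y' ∧ BDer g P l B u' ∧ u = x' ++ u' ++ y' ∧
      m < u'.length ∧ u'.length ≤ m + l := by
  induction h with
  | @term A a h =>
    rw [List.length_singleton] at hu
    omega
  | @eps A h =>
    rw [List.length_nil] at hu
    omega
  | @bin A B C u v hb hu' hv' hlu hlv ihu ihv =>
    rw [List.length_append] at hu
    rcases Chain_step hQ hlin hA hb hu' hv' with ⟨hB, hC⟩ | ⟨hB, hC⟩ | ⟨hB, hC⟩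
    · have h1 := hlu hB
      have h2 := hlv hC
      omega
    · have h2 := hlv hC
      by_cases hcase : m < u.length
      · obtain ⟨D, hD, x', u', y', hc, hd, he, hl⟩ := ihu hB hcase
        refine ⟨D, hD, x', u', y' ++ v, BCtx.left hb hv'.der hlv hc, hd, ?_, hl⟩
        rw [he]
        simp
      · refine ⟨A, hA, [], u ++ v, [], BCtx.refl A, BDer.bin hb hu' hv' hlu hlv, by simp, ?_, ?_⟩
        · rw [List.length_append]
          omega
        · rw [List.length_append]
          omega
    · have h1 := hlu hB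
      by_cases hcase : m < v.length
      · obtain ⟨D, hD, x', u', y', hc, hd, he, hl⟩ := ihv hC hcase
        refine ⟨D, hD, u ++ x', u', y', BCtx.right hb hu'.der hlu hc, hd, ?_, hl⟩
        rw [he]
        simp
      · refine ⟨A, hA, [], u ++ v, [], BCtx.refl A, BDer.bin hb hu' hv' hlu hlv, by simp, ?_, ?_⟩
        · rw [List.length_append]
          omega
        · rw [List.length_append]
          omega

/-- Walking down a linear chain until one side has progressed by at least `lam`.

Proof. Prove by induction on `h : BDer g P l B u` the statement: for all `A ∈ Q`, `B ∈ Q`, `x`, `y`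
with `BCtx A B x y`, `x.length < lam`, `y.length < lam`,
`2 * lam + 2 * l + 1 < (x ++ u ++ y).length`, the conclusion holds with `x ++ u ++ y` in place of
`u`. `term`/`eps`: `u.length ≤ 1`, contradiction. `bin` (`u = u1 ++ u2`, children `B'`, `C'`): both
children in `P`: `u.length ≤ 2 l`, contradiction with the length. `B' ∈ Q`, `C' ∈ P`: the new
context is `A ⇒* x B' (u2 ++ y)` (`BCtx.trans` with one step), `u2.length ≤ l`: if
`lam ≤ (u2 ++ y).length` stop (second alternative), otherwise induction hypothesis. `C' ∈ Q`,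
`B' ∈ P`: symmetric, new context `x ++ u1`. Start with `BCtx.refl`, `0 < lam`. -/
theorem stop_node {g : BG T} {P Q : Set g.N} {l : ℕ} (hQ : Cls g P Q) (hlin : Lin g Q) {A : g.N}
    (hA : A ∈ Q) {u : List T} (h : BDer g P l A u) {lam : ℕ} (hlam : 0 < lam)
    (hu : 2 * lam + 2 * l + 1 < u.length) :
    ∃ B ∈ Q, ∃ x' u' y', BCtx g P l A B x' y' ∧ BDer g P l B u' ∧ u = x' ++ u' ++ y' ∧
      ((lam ≤ x'.length ∧ x'.length ≤ lam + l ∧ y'.length < lam) ∨
       (lam ≤ y'.length ∧ y'.length ≤ lam + l ∧ x'.length < lam)) := by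
  have key : ∀ (B : g.N) (u : List T), BDer g P l B u → B ∈ Q → ∀ x y : List T,
      BCtx g P l A B x y → x.length < lam → y.length < lam →
      2 * lam + 2 * l + 1 < x.length + u.length + y.length →
      ∃ D ∈ Q, ∃ x' u' y', BCtx g P l A D x' y' ∧ BDer g P l D u' ∧
        x ++ u ++ y = x' ++ u' ++ y' ∧
        ((lam ≤ x'.length ∧ x'.length ≤ lam + l ∧ y'.length < lam) ∨
         (lam ≤ y'.length ∧ y'.length ≤ lam + l ∧ x'.length < lam)) := by
    intro B u hB
    induction hB with
    | @term B a h =>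
      intro _ x y _ hx hy hlen
      rw [List.length_singleton] at hlen
      omega
    | @eps B h =>
      intro _ x y _ hx hy hlen
      rw [List.length_nil] at hlen
      omega
    | @bin B B' C' u v hb hu' hv' hlu hlv ihu ihv =>
      intro hBQ x y hc hx hy hlen
      rw [List.length_append] at hlen
      rcases Chain_step hQ hlin hBQ hb hu' hv' with ⟨hB, hC⟩ | ⟨hB, hC⟩ | ⟨hB, hC⟩
      · have h1 := hlu hB
        have h2 := hlv hC
        omega
      · have h2 := hlv hC
        have hc' : BCtx g P l A B' x (v ++ y) := by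
          have h3 := hc.trans (BCtx.left hb hv'.der hlv (BCtx.refl B'))
          simpa using h3
        by_cases hcase : lam ≤ (v ++ y).length
        · refine ⟨B', hB, x, u, v ++ y, hc', hu', by simp, Or.inr ⟨hcase, ?_, hx⟩⟩
          rw [List.length_append]
          omega
        · obtain ⟨D, hD, x', u', y', h4, h5, h6, h7⟩ := ihu hB x (v ++ y) hc' hx (by omega)
            (by rw [List.length_append]; omega)
          refine ⟨D, hD, x', u', y', h4, h5, ?_, h7⟩
          rw [← h6]
          simp
      · have h1 := hlu hB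
        have hc' : BCtx g P l A C' (x ++ u) y := by
          have h3 := hc.trans (BCtx.right hb hu'.der hlu (BCtx.refl C'))
          simpa using h3
        by_cases hcase : lam ≤ (x ++ u).length
        · refine ⟨C', hC, x ++ u, v, y, hc', hv', by simp, Or.inl ⟨hcase, ?_, hy⟩⟩
          rw [List.length_append]
          omega
        · obtain ⟨D, hD, x', u', y', h4, h5, h6, h7⟩ := ihv hC (x ++ u) y hc' (by omega) hy
            (by rw [List.length_append]; omega)
          refine ⟨D, hD, x', u', y', h4, h5, ?_, h7⟩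
          rw [← h6]
          simp
  obtain ⟨D, hD, x', u', y', h4, h5, h6, h7⟩ := key A u h hA [] [] (BCtx.refl A) hlam hlam
    (by simpa using hu)
  exact ⟨D, hD, x', u', y', h4, h5, by simpa using h6, h7⟩

end Pool.Agent.H.MP_5fffd4_al
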