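import Pool.Agent.H.MP_5fffd4_al.Tree

set_option autoImplicit false

namespace Pool.Agent.H.MP_5fffd4_al

variable {T : Type}

/-- Splitting a linear chain on the left side. `Q` linear, `A, B ∈ Q`, a bounded context
`A ⇒* x B y`. For every cut `x = s ++ t` there is an intermediate node `C ∈ Q` whose left
boundary lies at most `l` before the cut.

Proof: induction on `h` (generalise `s t`). `refl`: `x = []`, take `C = A`.
`left hb hv hl h'` (`A → B' C'`, `y = y0 ++ v`, `v` derived from `C'`): `x` does not change;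
the intermediate nonterminal `B'` is in `Q` by `mid_mem` (`Ctx A B' [] v` and `h'.ctx`); apply the
induction hypothesis and prepend the step (`BCtx.left`) to the first context.
`right hb hu hl h'` (`A → B' C'`, `x = u ++ x0`, `u` derived from `B'`): `C' ∈ Q` by `mid_mem`;
`B'` is in `P` or `Q` by `hQ.down` (`Ctx A B' [] _` exists because `C'` derives the word
`x0 ++ _ ++ y0`, see below) and not in `Q` by `hlin`, so `u.length ≤ l`. If `s.length < u.length`
take `C = A`, `x1 = []`, `s' = s`. Otherwise `s = u ++ s1` and the induction hypothesis for `s1`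
gives the result with `BCtx.right` prepended.
For `Ctx A B' [] _` one needs that `C'` derives some word: the hypothesis `hder` (`B` derives a
word) and `h'.ctx.der`. -/
theorem splitL {g : BG T} {P Q : Set g.N} {l : ℕ} (hQ : Cls g P Q) (hlin : Lin g Q) {A B : g.N}
    (hA : A ∈ Q) (hB : B ∈ Q) {x y u : List T} (h : BCtx g P l A B x y) (hder : Der g B u)
    (s t : List T) (hx : x = s ++ t) :
    ∃ C ∈ Q, ∃ x1 x2 y1 y2 s', BCtx g P l A C x1 y1 ∧ BCtx g P l C B x2 y2 ∧
      x = x1 ++ x2 ∧ y = y2 ++ y1 ∧ s = x1 ++ s' ∧ s'.length ≤ l := by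
  induction h generalizing s t with
  | refl A =>
    have h1 := List.append_eq_nil_iff.1 hx.symm
    refine ⟨A, hA, [], [], [], [], [], BCtx.refl A, BCtx.refl A, rfl, rfl, ?_, Nat.zero_le _⟩
    rw [h1.1]
    rfl
  | @left A B' C' D x y0 v hb hv hl h' ih =>
    have hc : Ctx g A B' [] v := by
      have := Ctx.left hb hv (Ctx.refl B')
      simpa using this
    have hB' : B' ∈ Q := mid_mem hQ hA hB hc h'.ctx
    obtain ⟨C, hC, x1, x2, y1, y2, s', c1, c2, e1, e2, e3, e4⟩ := ih hB' hB hder s t hx
    refine ⟨C, hC, x1, x2, y1 ++ v, y2, s', BCtx.left hb hv hl c1, c2, e1, ?_, e3, e4⟩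
    rw [e2, List.append_assoc]
  | @right A B' C' D x0 y u' hb hu hl h' ih =>
    have hc : Ctx g A C' u' [] := by
      have := Ctx.right hb hu (Ctx.refl C')
      simpa using this
    have hC' : C' ∈ Q := mid_mem hQ hA hB hc h'.ctx
    have hB'Q : B' ∉ Q := fun hB' => hlin A hA B' C' hb hB' hC'
    have hdC : Der g C' (x0 ++ u ++ y) := h'.ctx.der hder
    have hc2 : Ctx g A B' [] (x0 ++ u ++ y) := by
      have := Ctx.left hb hdC (Ctx.refl B')
      simpa using this
    have hB'P : B' ∈ P := by
      rcases hQ.down A hA B' _ _ hc2 with h | h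
      · exact h
      · exact absurd h hB'Q
    have hul : u'.length ≤ l := hl hB'P
    rcases Nat.lt_or_ge s.length u'.length with hlt | hge
    · refine ⟨A, hA, [], u' ++ x0, [], y, s, BCtx.refl A, BCtx.right hb hu hl h', rfl, ?_, rfl, ?_⟩
      · rw [List.append_nil]
      · omega
    · obtain ⟨s1, hs1⟩ : u' <+: s :=
        List.prefix_of_prefix_length_le (List.prefix_append u' x0)
          (hx ▸ List.prefix_append s t) hge
      subst hs1
      rw [List.append_assoc] at hx
      have hx0 := List.append_cancel_left hx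
      obtain ⟨C, hC, x1, x2, y1, y2, s', c1, c2, e1, e2, e3, e4⟩ := ih hC' hB hder s1 t hx0
      refine ⟨C, hC, u' ++ x1, x2, y1, y2, s', BCtx.right hb hu hl c1, c2, ?_, e2, ?_, e4⟩
      · rw [e1, List.append_assoc]
      · rw [e3, List.append_assoc]

end Pool.Agent.H.MP_5fffd4_al
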