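import Pool.Agent.H.MP_5fffd4_al.Tree

set_option autoImplicit false

namespace Pool.Agent.H.MP_5fffd4_al

variable {T : Type}

/-- Splitting a linear chain on the right side; mirror image of `splitL`: for every cut
`y = t ++ s` there is `C ∈ Q` whose right boundary lies at most `l` before the cut (the
context `C ⇒* x2 B y2` has `t = y2 ++ s'`).

Proof: induction on `h` (generalise `s t`). `refl`: `y = []`. `right`: `y` does not change, as in
`splitL`. `left hb hv hl h'` (`y = y0 ++ v`, `v` derived from `C' ∈ P`, so `v.length ≤ l`): if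
`y0.length ≤ t.length` then `t = y0 ++ s'` with `s'.length ≤ v.length ≤ l`: take `C = B'`
(`BCtx A B' [] v`, `BCtx B' B x y0`); otherwise `t` is a prefix of `y0`: `y0 = t ++ s1`,
induction hypothesis. -/
theorem splitR {g : BG T} {P Q : Set g.N} {l : ℕ} (hQ : Cls g P Q) (hlin : Lin g Q) {A B : g.N}
    (hA : A ∈ Q) (hB : B ∈ Q) {x y u : List T} (h : BCtx g P l A B x y) (hder : Der g B u)
    (t s : List T) (hy : y = t ++ s) :
    ∃ C ∈ Q, ∃ x1 x2 y1 y2 s', BCtx g P l A C x1 y1 ∧ BCtx g P l C B x2 y2 ∧
      x = x1 ++ x2 ∧ y = y2 ++ y1 ∧ t = y2 ++ s' ∧ s'.length ≤ l := by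
  induction h generalizing t s with
  | refl A =>
    have h1 := List.append_eq_nil_iff.1 hy.symm
    refine ⟨A, hA, [], [], [], [], [], BCtx.refl A, BCtx.refl A, rfl, rfl, ?_, Nat.zero_le _⟩
    rw [h1.1]
    rfl
  | @left A B' C' D x y0 v hb hv hl h' ih =>
    have hc : Ctx g A B' [] v := by
      have := Ctx.left hb hv (Ctx.refl B')
      simpa using this
    have hB' : B' ∈ Q := mid_mem hQ hA hB hc h'.ctx
    have hC'Q : C' ∉ Q := fun hC' => hlin A hA B' C' hb hB' hC'
    have hdB : Der g B' (x ++ u ++ y0) := h'.ctx.der hder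
    have hc2 : Ctx g A C' (x ++ u ++ y0) [] := by
      have := Ctx.right hb hdB (Ctx.refl C')
      simpa using this
    have hC'P : C' ∈ P := by
      rcases hQ.down A hA C' _ _ hc2 with h | h
      · exact h
      · exact absurd h hC'Q
    have hvl : v.length ≤ l := hl hC'P
    rcases Nat.lt_or_ge t.length y0.length with hlt | hge
    · obtain ⟨s1, hs1⟩ : t <+: y0 :=
        List.prefix_of_prefix_length_le (hy ▸ List.prefix_append t s)
          (List.prefix_append y0 v) hlt.le
      obtain ⟨C, hC, x1, x2, y1, y2, s', c1, c2, e1, e2, e3, e4⟩ := ih hB' hB hder t s1 hs1.symm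
      refine ⟨C, hC, x1, x2, y1 ++ v, y2, s', BCtx.left hb hv hl c1, c2, e1, ?_, e3, e4⟩
      rw [e2, List.append_assoc]
    · obtain ⟨s', hs'⟩ : y0 <+: t :=
        List.prefix_of_prefix_length_le (List.prefix_append y0 v)
          (hy ▸ List.prefix_append t s) hge
      subst hs'
      rw [List.append_assoc] at hy
      have hv' := List.append_cancel_left hy
      have hc1 : BCtx g P l A B' [] v := by
        have := BCtx.left hb hv hl (BCtx.refl B')
        simpa using this
      refine ⟨B', hB', [], x, v, y0, s', hc1, h', rfl, rfl, rfl, ?_⟩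
      have := congrArg List.length hv'
      rw [List.length_append] at this
      omega
  | @right A B' C' D x0 y u' hb hu hl h' ih =>
    have hc : Ctx g A C' u' [] := by
      have := Ctx.right hb hu (Ctx.refl C')
      simpa using this
    have hC' : C' ∈ Q := mid_mem hQ hA hB hc h'.ctx
    obtain ⟨C, hC, x1, x2, y1, y2, s', c1, c2, e1, e2, e3, e4⟩ := ih hC' hB hder t s hy
    refine ⟨C, hC, u' ++ x1, x2, y1, y2, s', BCtx.right hb hu hl c1, c2, ?_, e2, e3, e4⟩
    rw [e1, List.append_assoc]

end Pool.Agent.H.MP_5fffd4_al
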