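import Pool.Agent.H.MP_5fffd4_al.Words2
import Pool.Agent.H.MP_5fffd4_al.Avoid

set_option autoImplicit false

namespace Pool.Agent.H.MP_5fffd4_al

variable {T : Type} {G : Type*} [Group G] {f : T → G}

/-- WINDOW LEMMA. Given finite sets `HH` of subgroups and `F` of elements and a number `l`, one can
replace `V` by a finite set `V'` of words of `V*` with the same group such that: a window `z` of a word
`w` of `V'*`, all of whose prefix values lie in `b0 H F (words of length ≤ l)`, where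
`b0 H b0⁻¹ ∩ Gam V` has infinite index in `Gam V`, has bounded length.

Proof. Let `Y = Gam f V`, `F1 = {(ev r)⁻¹ * φ⁻¹ | r.length ≤ l, φ ∈ F}`,
`F2 = {φ * ev r | r.length ≤ l, φ ∈ F}` (finite sets, `T` finite). By `avoid`, applied to the finite
set of triples `(a, H, b)`, `a ∈ F1`, `H ∈ HH`, `b ∈ F2` with `(cj a H).relIndex Y = 0`, together
with the triple `(1, ⊥, 1)` (infinite index as `Y` is infinite), there is
`g1 ∈ Y`, `g1 ≠ 1`, outside all `a H b`. Let `V1` be a word of `V*` with value `g1` (`mem_Gam`), so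
`V1 ≠ []`, and `V' = blk V1 V`, `c1` a bound for the lengths in `V'`, `c = 2 c1 + 1`.
Let `z` be a window of length `> c` as in the statement. `star_window` gives
`z = z1 ++ (V1 ++ v) ++ z2` with `Star V' (a ++ z1)`, so `p := ev (a ++ z1) ∈ Y`. The hypothesis for the
prefixes `z1` and `z1 ++ V1` gives `p = b0 h φ (ev r)`, `p g1 = b0 h' φ' (ev r')`. Hence
`g1 = ((ev r)⁻¹ φ⁻¹) (h⁻¹ h') (φ' (ev r'))`. With `a1 = (ev r)⁻¹ φ⁻¹`: `b0 = p a1 h⁻¹`, so
`cj b0 H = cj p (cj a1 H)` (`cj_cj`, `cj_self`), so `(cj a1 H).relIndex Y = 0` by `relIndex_cj`.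
This contradicts the choice of `g1`. -/
theorem window [Finite T] (htor : ∀ x : G, IsOfFinOrder x) {V : Set (List T)} (hV : Good f V)
    (HH : Set (Subgroup G)) (hHH : HH.Finite) (F : Set G) (hF : F.Finite) (l : ℕ) :
    ∃ V' : Set (List T), Good f V' ∧ (∀ v ∈ V', Star V v) ∧ Gam f V' = Gam f V ∧
      ∃ c : ℕ, ∀ w, Star V' w → ∀ a z b, w = a ++ z ++ b → ∀ H ∈ HH, ∀ b0 : G,
        (cj b0 H).relIndex (Gam f V) = 0 →
        (∀ s t, z = s ++ t → ∃ h ∈ H, ∃ φ ∈ F, ∃ r : List T, r.length ≤ l ∧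
          ev f (a ++ s) = b0 * h * φ * ev f r) → z.length ≤ c := by
  classical
  have hR : {r : List T | r.length ≤ l}.Finite := List.finite_length_le T l
  have hP : ({r : List T | r.length ≤ l} ×ˢ F).Finite := hR.prod hF
  set F1 : Set G := (fun q : List T × G => (ev f q.1)⁻¹ * q.2⁻¹) ''
    ({r : List T | r.length ≤ l} ×ˢ F) with hF1
  set F2 : Set G := (fun q : List T × G => q.2 * ev f q.1) ''
    ({r : List T | r.length ≤ l} ×ˢ F) with hF2
  have hF1f : F1.Finite := hP.image _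
  have hF2f : F2.Finite := hP.image _
  set S : Set (G × Subgroup G × G) :=
    insert ((1 : G), (⊥ : Subgroup G), (1 : G))
      {t | t ∈ F1 ×ˢ (HH ×ˢ F2) ∧ (cj t.1 t.2.1).relIndex (Gam f V) = 0} with hS
  have hSf : S.Finite :=
    ((hF1f.prod (hHH.prod hF2f)).subset fun t ht => ht.1).insert _
  have hS0 : ∀ t ∈ S, (cj t.1 t.2.1).relIndex (Gam f V) = 0 := by
    intro t ht
    rcases ht with rfl | ht
    · have hinf : Infinite (Gam f V) := hV.inf.to_subtype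
      simp only [cj_one, Subgroup.relIndex_bot_left]
      exact Nat.card_eq_zero_of_infinite
    · exact ht.2
  obtain ⟨g1, hg1Y, hg1⟩ := avoid (Gam f V) S hSf hS0
  have hg1ne : g1 ≠ 1 := by
    have := hg1 _ (Set.mem_insert _ _) 1 (Subgroup.mem_bot.2 rfl)
    simpa using this
  obtain ⟨V1, hV1, hV1e⟩ := (mem_Gam htor).1 hg1Y
  have hV1ne : V1 ≠ [] := by
    rintro rfl
    rw [ev_nil] at hV1e
    exact hg1ne hV1e.symm
  have hfin : (blk V1 V).Finite := blk_finite hV.fin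
  have hGam : Gam f (blk V1 V) = Gam f V := Gam_blk hV1
  obtain ⟨c1, -, hc1⟩ := exists_len hfin
  refine ⟨blk V1 V, ⟨hfin, nil_notMem_blk hV1ne, by rw [hGam]; exact hV.inf⟩, blk_star hV1, hGam,
    2 * c1 + 1, ?_⟩
  intro w hw a z b hwz H hH b0 hidx hpre
  by_contra hlen
  push Not at hlen
  obtain ⟨z1, e, z2, hz, he, hst, -⟩ := star_window hc1 hw hwz (by omega)
  obtain ⟨v, -, rfl⟩ := he
  obtain ⟨h, hhH, φ, hφ, r, hr, e1⟩ := hpre z1 (V1 ++ v ++ z2) (by rw [hz, List.append_assoc])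
  obtain ⟨h', hhH', φ', hφ', r', hr', e2⟩ := hpre (z1 ++ V1) (v ++ z2) (by
    rw [hz]; simp only [List.append_assoc])
  have hp : ev f (a ++ z1) ∈ Gam f V := by
    rw [← hGam]
    exact ev_mem_Gam hst
  set p := ev f (a ++ z1) with hpdef
  have e3 : p * g1 = b0 * h' * φ' * ev f r' := by
    rw [← e2, ← hV1e, hpdef, ← ev_append, List.append_assoc]
  have e4 : g1 = ((ev f r)⁻¹ * φ⁻¹) * (h⁻¹ * h') * (φ' * ev f r') := by
    have : g1 = p⁻¹ * (b0 * h' * φ' * ev f r') := by rw [← e3, inv_mul_cancel_left]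
    rw [this, e1]
    group
  have e5 : b0 = p * ((ev f r)⁻¹ * φ⁻¹) * h⁻¹ := by
    rw [e1]
    group
  have e6 : cj b0 H = cj p (cj ((ev f r)⁻¹ * φ⁻¹) H) := by
    rw [e5, ← cj_cj, cj_self (H.inv_mem hhH), ← cj_cj]
  have e7 : (cj ((ev f r)⁻¹ * φ⁻¹) H).relIndex (Gam f V) = 0 := by
    rw [← relIndex_cj hp, ← e6]
    exact hidx
  have hmem : (((ev f r)⁻¹ * φ⁻¹, H, φ' * ev f r') : G × Subgroup G × G) ∈ S := by
    refine Set.mem_insert_of_mem _ ⟨⟨⟨(r, φ), ⟨hr, hφ⟩, rfl⟩, hH, ⟨(r', φ'), ⟨hr', hφ'⟩, rfl⟩⟩, e7⟩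
  exact hg1 _ hmem (h⁻¹ * h') (H.mul_mem (H.inv_mem hhH) hhH') e4

end Pool.Agent.H.MP_5fffd4_al
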