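import Pool.Agent.H.MP_5fffd4_al.Alg2
import Pool.Agent.H.MP_5fffd4_al.SplitL
import Pool.Agent.H.MP_5fffd4_al.SplitR
import Pool.Agent.H.MP_5fffd4_al.Chain
import Pool.Agent.H.MP_5fffd4_al.Window

set_option autoImplicit false

namespace Pool.Agent.H.MP_5fffd4_al

variable {T : Type} {G : Type*} [Group G] {g : BG T} {f : T → G}

/-- STAGE 2, linear class, first block. There is `V'` such that below a node
`(A; x, u, y)`, `A ∈ Q`, in every context `A ⇒* x' B y'` with `B ∈ Q`, `u = x' ++ u' ++ y'`: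
if `PP1 = cj (ev x) (P1 A)` has infinite index then the left part `x'` is bounded, and if
`PP2 = cj (ev (x ++ u)) (P2 A)` has infinite index then the right part `y'` is bounded.

Proof. For `A, B ∈ Q` choose `(m, m') ∈ Mor A B`; let `F` be the finite set of all `m`, `m'⁻¹`. Apply
`window` with `HH = {P1 A, P2 A}`, `F`, `l`; `l1 = c`.
Left: window `z = x'` at position `a = x`, `b0 = ev x`, `H = P1 A`: for a cut `x' = s ++ t`,
`splitL` gives `C ∈ Q`, `Ctx A C x1 y1`, `s = x1 ++ s'`, `s'.length ≤ l`; `ev x1 * m⁻¹ ∈ P1 A`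
(`mor_P1`), so `ev (x ++ s) = ev x * (ev x1 * m⁻¹) * m * ev s'`.
Right: window `z = y'` at position `a = x ++ x' ++ u'`, `b0 = ev (x ++ u)`, `H = P2 A`: for a cut
`y' = t ++ s`, `splitR` gives `C ∈ Q`, `Ctx A C x1 y1`, `y' = y2 ++ y1`, `t = y2 ++ s'`. Then
`ev (x ++ x' ++ u' ++ y2) * ev y1 = ev (x ++ u)`, and `m'⁻¹ * ev y1 ∈ P2 A` (`mor_P2`), so
`ev (x ++ x' ++ u' ++ t) = ev (x ++ u) * (m'⁻¹ * ev y1)⁻¹ * m'⁻¹ * ev s'`.
The contexts are bounded by `bctx_of_node`. -/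
theorem block1 [Finite T] (hs : Setup g f) (hN : Finite g.N) {P Q : Set g.N}
    (hQ : Cls g P Q) (hlin : Lin g Q) {V : Set (List T)} (hV : Good f V) {l : ℕ}
    (hb : Bdd g f V P l) :
    ∃ V' : Set (List T), Good f V' ∧ (∀ v ∈ V', Star V v) ∧ Gam f V' = Gam f V ∧
      ∃ l1 : ℕ, ∀ w, Star V' w → ev f w ≠ 1 → ∀ A ∈ Q, ∀ x u y, Node g w A x u y →
        ∀ B ∈ Q, ∀ x' u' y', Ctx g A B x' y' → Der g B u' → u = x' ++ u' ++ y' →
          ((cj (ev f x) (P1 g f A)).relIndex (Gam f V) = 0 → x'.length ≤ l1) ∧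
          ((cj (ev f (x ++ u)) (P2 g f A)).relIndex (Gam f V) = 0 → y'.length ≤ l1) := by
  classical
  have hch : ∀ A B : g.N, ∃ a b : List T, (∃ a b, Ctx g A B a b) → Ctx g A B a b := by
    intro A B
    by_cases h : ∃ a b, Ctx g A B a b
    · obtain ⟨a, b, hab⟩ := h
      exact ⟨a, b, fun _ => hab⟩
    · exact ⟨[], [], fun h' => absurd h' h⟩
  choose a b hab using hch
  set F : Set G := Set.range (fun q : g.N × g.N => ev f (a q.1 q.2)) ∪
    Set.range (fun q : g.N × g.N => (ev f (b q.1 q.2))⁻¹) with hF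
  have hFf : F.Finite := (Set.finite_range _).union (Set.finite_range _)
  obtain ⟨V', h1, h2, h3, c, hc⟩ := window hs.tor hV
    (Set.range (P1 g f) ∪ Set.range (P2 g f)) ((Set.finite_range _).union (Set.finite_range _))
    F hFf l
  refine ⟨V', h1, h2, h3, c, ?_⟩
  intro w hw hne A hA x u y hn B hB x' u' y' hctx hder hu
  have hbd : ∀ A ∈ P, ∀ x u y, Node g w A x u y → u.length ≤ l :=
    hb w (Star.mono h2 hw) hne
  have hbc := bctx_of_node hbd hn hctx hder hu
  have hwe : w = x ++ (x' ++ u' ++ y') ++ y := by rw [← hu]; exact hn.eq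
  constructor
  · intro hidx
    refine hc w hw x x' (u' ++ y' ++ y) ?_ (P1 g f A) (Or.inl ⟨A, rfl⟩) (ev f x) hidx ?_
    · rw [hwe]
      simp only [List.append_assoc]
    · intro s t hst
      obtain ⟨C, hC, x1, x2, y1, y2, s', c1, c2, e1, e2, e3, e4⟩ :=
        splitL hQ hlin hA hB hbc hder s t hst
      have hm : Mor g f A C (ev f (a A C)) (ev f (b A C)) :=
        mor_of_ctx (hab A C (hQ.eqv A hA C hC).1)
      have hm' : Mor g f A C (ev f x1) (ev f y1) := mor_of_ctx c1.ctx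
      refine ⟨ev f x1 * (ev f (a A C))⁻¹, mor_P1 hs (hQ.eqv A hA C hC) hm hm', ev f (a A C),
        Or.inl ⟨(A, C), rfl⟩, s', e4, ?_⟩
      rw [e3, ev_append, ev_append]
      group
  · intro hidx
    refine hc w hw (x ++ x' ++ u') y' y ?_ (P2 g f A) (Or.inr ⟨A, rfl⟩) (ev f (x ++ u)) hidx ?_
    · rw [hwe]
      simp only [List.append_assoc]
    · intro t s hts
      obtain ⟨C, hC, x1, x2, y1, y2, s', c1, c2, e1, e2, e3, e4⟩ :=
        splitR hQ hlin hA hB hbc hder t s hts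
      have hm : Mor g f A C (ev f (a A C)) (ev f (b A C)) :=
        mor_of_ctx (hab A C (hQ.eqv A hA C hC).1)
      have hm' : Mor g f A C (ev f x1) (ev f y1) := mor_of_ctx c1.ctx
      refine ⟨((ev f (b A C))⁻¹ * ev f y1)⁻¹,
        (P2 g f A).inv_mem (mor_P2 hs (hQ.eqv A hA C hC) hm hm'), (ev f (b A C))⁻¹,
        Or.inr ⟨(A, C), rfl⟩, s', e4, ?_⟩
      rw [hu, e2, e3]
      simp only [ev_append]
      group

end Pool.Agent.H.MP_5fffd4_al
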