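import Pool.Agent.H.MP_5fffd4_al.Alg2
import Pool.Agent.H.MP_5fffd4_al.SplitL
import Pool.Agent.H.MP_5fffd4_al.SplitR
import Pool.Agent.H.MP_5fffd4_al.Chain
import Pool.Agent.H.MP_5fffd4_al.Window

set_option autoImplicit false

namespace Pool.Agent.H.MP_5fffd4_al

variable {T : Type} {G : Type*} [Group G] {g : BG T} {f : T → G}

/-- STAGE 2, linear class, second block: if all `RR`, `LL` have infinite index (Stage 1) then one
can moreover bound the right part of chains whose left part has length at most `l1`, and the left part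
of chains whose right part has length at most `l1`.

Proof. For `A, B ∈ Q` and a word `ξ` of length `≤ l1`: if there is `y0` with
`Mor A B (ev ξ) y0` choose one, `y_{ξ,A,B}`; if there is `x0` with `Mor A B x0 (ev ξ)` choose one,
`x_{ξ,A,B}`. Let `F` be the finite set of all `(y_{ξ,A,B})⁻¹` and `x_{ξ,A,B}`. Apply `window` with
`HH = {Rg A, Lg A}`, `F`, `l`.
Right part (`x'.length ≤ l1`): window `z = y'` at `a = x ++ x' ++ u'`, `b0 = ev (x ++ u)`,
`H = Rg A`: for a cut `y' = t ++ s`, `splitR` gives `C ∈ Q`, `Ctx A C x1 y1`, `x1` a prefix of `x'`, so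
`x1.length ≤ l1`, `y' = y2 ++ y1`, `t = y2 ++ s'`. `(y_{x1,A,C})⁻¹ * ev y1 ∈ Rg A` (`mor_R1`), so
`ev (x ++ x' ++ u' ++ t) = ev (x ++ u) * (y⁻¹ * ev y1)⁻¹ * y⁻¹ * ev s'`. The index hypothesis of
`window` is the first part of `S1`.
Left part (`y'.length ≤ l1`): window `z = x'` at `a = x`, `b0 = ev x`, `H = Lg A`; `splitL` gives
`Ctx A C x1 y1` with `y1` a suffix of `y'`, `ev x1 * (x_{y1,A,C})⁻¹ ∈ Lg A` (`mor_L1`), so
`ev (x ++ s) = ev x * (ev x1 * x0⁻¹) * x0 * ev s'`; index: second part of `S1`.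
`S1` is used for words of `V'*`, which are words of `V*`, with `Gam f V' = Gam f V`. -/
theorem block2 [Finite T] (hs : Setup g f) (hN : Finite g.N) {P Q : Set g.N}
    (hQ : Cls g P Q) (hlin : Lin g Q) {V : Set (List T)} (hV : Good f V) {l : ℕ}
    (hb : Bdd g f V P l) (h1 : S1 g f V) (l1 : ℕ) :
    ∃ V' : Set (List T), Good f V' ∧ (∀ v ∈ V', Star V v) ∧ Gam f V' = Gam f V ∧
      ∃ l3 : ℕ, ∀ w, Star V' w → ev f w ≠ 1 → ∀ A ∈ Q, ∀ x u y, Node g w A x u y →
        ∀ B ∈ Q, ∀ x' u' y', Ctx g A B x' y' → Der g B u' → u = x' ++ u' ++ y' →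
          (x'.length ≤ l1 → y'.length ≤ l3) ∧ (y'.length ≤ l1 → x'.length ≤ l3) := by
  classical
  have hY : ∀ (ξ : List T) (A B : g.N), ∃ y0 : G,
      (∃ z, Mor g f A B (ev f ξ) z) → Mor g f A B (ev f ξ) y0 := by
    intro ξ A B
    by_cases h : ∃ z, Mor g f A B (ev f ξ) z
    · obtain ⟨z, hz⟩ := h
      exact ⟨z, fun _ => hz⟩
    · exact ⟨1, fun h' => absurd h' h⟩
  have hX : ∀ (η : List T) (A B : g.N), ∃ x0 : G,
      (∃ z, Mor g f A B z (ev f η)) → Mor g f A B x0 (ev f η) := by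
    intro η A B
    by_cases h : ∃ z, Mor g f A B z (ev f η)
    · obtain ⟨z, hz⟩ := h
      exact ⟨z, fun _ => hz⟩
    · exact ⟨1, fun h' => absurd h' h⟩
  choose Y hY using hY
  choose X hX using hX
  let D : Set (List T × g.N × g.N) := {ξ : List T | ξ.length ≤ l1} ×ˢ Set.univ
  have hD : D.Finite := (List.finite_length_le T l1).prod Set.finite_univ
  let F : Set G := (fun p : List T × g.N × g.N => (Y p.1 p.2.1 p.2.2)⁻¹) '' D ∪
    (fun p : List T × g.N × g.N => X p.1 p.2.1 p.2.2) '' D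
  have hF : F.Finite := (hD.image _).union (hD.image _)
  let HH : Set (Subgroup G) := Set.range (Rg g f) ∪ Set.range (Lg g f)
  have hHH : HH.Finite := (Set.finite_range _).union (Set.finite_range _)
  obtain ⟨V', hV', hVV', hGam, c, hwin⟩ := window hs.tor hV HH hHH F hF l
  refine ⟨V', hV', hVV', hGam, c, ?_⟩
  intro w hw hne A hA x u y hn B hB x' u' y' hc hd hu
  have hwV : Star V w := Star.mono hVV' hw
  have hctx : BCtx g P l A B x' y' := bctx_of_node (hb w hwV hne) hn hc hd hu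
  have hS := h1 w hwV hne A x u y hn
  have hw' : w = x ++ (x' ++ u' ++ y') ++ y := by rw [← hu]; exact hn.eq
  constructor
  · intro hx
    refine hwin w hw (x ++ x' ++ u') y' y ?_ (Rg g f A) (Or.inl ⟨A, rfl⟩) (ev f (x ++ u))
      hS.1 ?_
    · rw [hw']
      simp
    · intro t s hy
      obtain ⟨C, hC, x1, x2, y1, y2, s', c1, c2, e1, e2, e3, e4⟩ :=
        splitR hQ hlin hA hB hctx hd t s hy
      have hm : Mor g f A C (ev f x1) (ev f y1) := mor_of_ctx c1.ctx
      have hm0 := hY x1 A C ⟨_, hm⟩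
      have hr := mor_R1 hs (hQ.eqv A hA C hC) hm0 hm
      have hlen : x1.length ≤ l1 := by
        rw [e1, List.length_append] at hx
        omega
      refine ⟨_, (Rg g f A).inv_mem hr, (Y x1 A C)⁻¹,
        Or.inl ⟨(x1, A, C), ⟨hlen, Set.mem_univ _⟩, rfl⟩, s', e4, ?_⟩
      rw [hu, e2, e3]
      simp only [ev_append]
      group
  · intro hy
    refine hwin w hw x x' (u' ++ y' ++ y) ?_ (Lg g f A) (Or.inr ⟨A, rfl⟩) (ev f x) hS.2 ?_
    · rw [hw']
      simp
    · intro s t hx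
      obtain ⟨C, hC, x1, x2, y1, y2, s', c1, c2, e1, e2, e3, e4⟩ :=
        splitL hQ hlin hA hB hctx hd s t hx
      have hm : Mor g f A C (ev f x1) (ev f y1) := mor_of_ctx c1.ctx
      have hm0 := hX y1 A C ⟨_, hm⟩
      have hr := mor_L1 hs (hQ.eqv A hA C hC) hm0 hm
      have hlen : y1.length ≤ l1 := by
        rw [e2, List.length_append] at hy
        omega
      refine ⟨_, hr, X y1 A C,
        Or.inr ⟨(y1, A, C), ⟨hlen, Set.mem_univ _⟩, rfl⟩, s', e4, ?_⟩
      rw [e3]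
      simp only [ev_append]
      group

end Pool.Agent.H.MP_5fffd4_al
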