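import Pool.Agent.H.MP_5fffd4_al.AlgN

set_option autoImplicit false

namespace Pool.Agent.H.MP_5fffd4_al

universe u

variable {T : Type} {G : Type u} [Group G] {g : BG T} {f : T → G}

theorem ClosedN_ev_mem {V : Set (List T)} {w : List T} (h : Star V w) : ev f w ∈ Gam f V := by
  obtain ⟨L, hL, rfl⟩ := h
  induction L with
  | nil => exact (Gam f V).one_mem
  | cons a L ih =>
    rw [List.flatten_cons, ev_append]
    exact (Gam f V).mul_mem (Subgroup.subset_closure ⟨a, hL a (by simp), rfl⟩)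
      (ih fun v hv => hL v (by simp [hv]))

/-- `z` occurs for the triple `(A, o1, o2)` -/
def ClosedN_Occ (g : BG T) (f : T → G) (Q : Set g.N) (V : Set (List T)) (l2 : ℕ)
    (τ : g.N × List T × List T) (z : G) : Prop :=
  τ.1 ∈ Q ∧ ∃ w x u y a0 m0, Star V w ∧ ev f w ≠ 1 ∧ Node g w τ.1 x u y ∧ l2 < u.length ∧
    x = a0 ++ τ.2.1 ∧ x ++ u = a0 ++ m0 ++ τ.2.2 ∧ Star V a0 ∧ Star V m0 ∧ ev f m0 = z

theorem ClosedN_key (hs : Setup g f) {P Q : Set g.N}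
    (hQ : Cls g P Q) (hnl : ¬ Lin g Q) {V : Set (List T)} {l2 : ℕ} {Θ : Subgroup G}
    (h3 : S3 g f V Q l2 Θ) {τ : g.N × List T × List T} {z z' : G}
    (h : ClosedN_Occ g f Q V l2 τ z) (h' : ClosedN_Occ g f Q V l2 τ z') : z⁻¹ * z' ∈ Θ := by
  obtain ⟨A, o1, o2⟩ := τ
  obtain ⟨hA, w, x, u, y, a0, m0, hw, hw1, hn, hl, hx, hxu, ha0, hm0, rfl⟩ := h
  obtain ⟨-, w', x', u', y', a0', m0', hw', hw1', hn', hl', hx', hxu', ha0', hm0', rfl⟩ := h'
  simp only at hA hn hn' hx hx' hxu hxu'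
  have eu : ∀ {x u a0 m0 : List T}, x = a0 ++ o1 → x ++ u = a0 ++ m0 ++ o2 →
      ev f u = (ev f o1)⁻¹ * ev f m0 * ev f o2 := by
    intro x u a0 m0 h1 h2
    have h4 := congrArg (ev f) h2
    rw [h1] at h4
    simp only [ev_append] at h4
    have h5 : ev f u = (ev f a0 * ev f o1)⁻¹ * (ev f a0 * ev f m0 * ev f o2) := by
      rw [← h4]; group
    rw [h5]
    group
  have h4 := nl_right hs hQ hnl hA hn.der hn'.der
  rw [eu hx hxu, eu hx' hxu'] at h4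
  have h5 : (ev f m0)⁻¹ * ev f m0' ∈ cj (ev f o2) (Rg g f A) := by
    rw [mem_cj]
    have e : (ev f o2)⁻¹ * ((ev f m0)⁻¹ * ev f m0') * ev f o2 =
        ((ev f o1)⁻¹ * ev f m0 * ev f o2)⁻¹ * ((ev f o1)⁻¹ * ev f m0' * ev f o2) := by
      group
    rw [e]
    exact h4
  obtain ⟨hR, -, hN, -⟩ := h3 w hw hw1 A hA x u y hn hl
  have hq : ev f (a0 ++ m0) ∈ Gam f V := ClosedN_ev_mem (ha0.append hm0)
  have e1 : cj (ev f (x ++ u)) (Rg g f A) = cj (ev f (a0 ++ m0)) (cj (ev f o2) (Rg g f A)) := by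
    rw [hxu, cj_cj, ← ev_append]
  have h6 := hN _ ((Gam f V).inv_mem hq)
  have h7 : cj (ev f (a0 ++ m0))⁻¹ (cj (ev f (x ++ u)) (Rg g f A)) = cj (ev f o2) (Rg g f A) := by
    rw [e1, cj_cj, inv_mul_cancel, cj_one]
  rw [h7] at h6
  rw [h6] at h5
  exact hR ⟨h5, (Gam f V).mul_mem ((Gam f V).inv_mem (ClosedN_ev_mem hm0))
    (ClosedN_ev_mem hm0')⟩

/-- The classes of the values of (the `V`-parts of) long nodes form a finite set modulo `Θ`.

Proof. For a triple `(A, o1, o2)` (`A : g.N`, `o1, o2` words of length `≤ c`; finitely many) say that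
`z : G` occurs if there are `w, x, u, y, a0, m0` as in the statement (with these `A, o1, o2`) and
`z = ev m0`. Choose one `φ` for each triple for which some `z` occurs, `F` the finite set of the
`φ`. It remains to show: if `ev m0`, `ev m0'` occur for the same triple then
`(ev m0)⁻¹ * ev m0' ∈ Θ`. `ev u = (ev x)⁻¹ * ev (x ++ u) = (ev o1)⁻¹ * ev m0 * ev o2`, same for
`u'`, so `nl_right` (words `u, u'` derived from `A`) gives
`(ev o2)⁻¹ * (ev m0)⁻¹ * ev m0' * ev o2 ∈ Rg A`, i.e. `(ev m0)⁻¹ * ev m0' ∈ cj (ev o2) (Rg A)`.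
With `q = ev (a0 ++ m0) ∈ Gam f V`: `RR = cj (ev (x ++ u)) (Rg A) = cj q (cj (ev o2) (Rg A))`, and
`Nrm (Gam f V) RR` (`S3`) gives `cj (ev o2) (Rg A) = cj q⁻¹ RR = RR`. As
`(ev m0)⁻¹ * ev m0' ∈ Gam f V`, it lies in `RR ⊓ Gam f V ≤ Θ`. -/
theorem closed_classes [Finite T] (hs : Setup g f) (hN : Finite g.N) {P Q : Set g.N}
    (hQ : Cls g P Q) (hnl : ¬ Lin g Q) {V : Set (List T)} {l2 : ℕ} {Θ : Subgroup G}
    (h3 : S3 g f V Q l2 Θ) (c : ℕ) :
    ∃ F : Set G, F.Finite ∧ F ⊆ (Gam f V : Set G) ∧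
      ∀ w, Star V w → ev f w ≠ 1 → ∀ A ∈ Q, ∀ x u y, Node g w A x u y → l2 < u.length →
        ∀ a0 m0 o1 o2, x = a0 ++ o1 → x ++ u = a0 ++ m0 ++ o2 → Star V a0 → Star V m0 →
          o1.length ≤ c → o2.length ≤ c → ∃ φ ∈ F, φ⁻¹ * ev f m0 ∈ Θ := by
  classical
  let S : Set (g.N × List T × List T) := Set.univ ×ˢ ({l | l.length ≤ c} ×ˢ {l | l.length ≤ c})
  have hS : S.Finite := Set.finite_univ.prod ((List.finite_length_le T c).prod
    (List.finite_length_le T c))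
  let S' : Set (g.N × List T × List T) := {τ ∈ S | ∃ z, ClosedN_Occ g f Q V l2 τ z}
  have hS' : S'.Finite := hS.subset fun τ hτ => hτ.1
  let φ : g.N × List T × List T → G := fun τ =>
    if h : ∃ z, ClosedN_Occ g f Q V l2 τ z then h.choose else 1
  have hφ : ∀ τ ∈ S', ClosedN_Occ g f Q V l2 τ (φ τ) := by
    intro τ hτ
    have e : φ τ = hτ.2.choose := dif_pos hτ.2
    rw [e]
    exact hτ.2.choose_spec
  refine ⟨φ '' S', hS'.image φ, ?_, ?_⟩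
  · rintro _ ⟨τ, hτ, rfl⟩
    obtain ⟨-, w, x, u, y, a0, m0, -, -, -, -, -, -, -, hm0, hz⟩ := hφ τ hτ
    rw [← hz]
    exact ClosedN_ev_mem hm0
  · intro w hw hw1 A hA x u y hn hl a0 m0 o1 o2 hx hxu ha0 hm0 ho1 ho2
    have hocc : ClosedN_Occ g f Q V l2 (A, o1, o2) (ev f m0) :=
      ⟨hA, w, x, u, y, a0, m0, hw, hw1, hn, hl, hx, hxu, ha0, hm0, rfl⟩
    have hmem : ((A, o1, o2) : g.N × List T × List T) ∈ S' :=
      ⟨⟨Set.mem_univ _, ho1, ho2⟩, _, hocc⟩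
    exact ⟨φ (A, o1, o2), ⟨_, hmem, rfl⟩, ClosedN_key hs hQ hnl h3 (hφ _ hmem) hocc⟩

end Pool.Agent.H.MP_5fffd4_al
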