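import Mathlib

set_option autoImplicit false

namespace Pool.Agent.H.MP_5fffd4_al

/-- Counting tuples. If each bad event `Pr d q` (`d : D`, `q + 1 < K`) determines the entries
`q, q+1` of a tuple from the other entries, and `|D| K < |Z|^2`, then some tuple is good.

Proof. Count `Fin K → Z` (`|Z|^K` functions). For fixed `d, q` the restriction of functions to the
complement of `{q, q+1}` is injective on the bad tuples, so there are at most
`|Z|^(K-2)` of them. Altogether at most `|D| * K * |Z|^(K-2) < |Z|^K` bad tuples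
(`|Z| > 0` by the hypothesis). -/
theorem exists_good_tuple {X : Type*} (Z : Finset X) (K : ℕ) (hK : 2 ≤ K) {D : Type*}
    [Finite D] (Pr : D → ℕ → (Fin K → X) → Prop)
    (det : ∀ d q, q + 1 < K → ∀ z z' : Fin K → X, (∀ i, z i ∈ Z) → (∀ i, z' i ∈ Z) →
      Pr d q z → Pr d q z' → (∀ i : Fin K, (i : ℕ) ≠ q → (i : ℕ) ≠ q + 1 → z i = z' i) →
      z = z') (hc : Nat.card D * K < Z.card ^ 2) :
    ∃ z : Fin K → X, (∀ i, z i ∈ Z) ∧ ∀ d q, q + 1 < K → ¬ Pr d q z := by
  classical
  have := Fintype.ofFinite D
  rw [Nat.card_eq_fintype_card] at hc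
  by_contra hcon
  push Not at hcon
  have hZ : 0 < Z.card := by
    rcases Nat.eq_zero_or_pos Z.card with h | h
    · rw [h] at hc
      simp at hc
    · exact h
  obtain ⟨x0, hx0⟩ := Finset.card_pos.1 hZ
  let bad : D × Fin K → Finset (Fin K → X) := fun p =>
    (Fintype.piFinset fun _ => Z).filter fun z => (p.2 : ℕ) + 1 < K ∧ Pr p.1 p.2 z
  have hbad : ∀ p, (bad p).card ≤ Z.card ^ (K - 2) := by
    rintro ⟨d, q⟩
    by_cases hq : (q : ℕ) + 1 < K
    · let C : Finset (Fin K → X) := Fintype.piFinset fun i =>
        if i ∈ ({q, ⟨q + 1, hq⟩} : Finset (Fin K)) then {x0} else Z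
      have hC : C.card = Z.card ^ (K - 2) := by
        simp only [C]
        rw [Fintype.card_piFinset]
        have h1 : ∀ i : Fin K, (if i ∈ ({q, ⟨q + 1, hq⟩} : Finset (Fin K)) then ({x0} : Finset X)
            else Z).card = if i ∈ ({q, ⟨q + 1, hq⟩} : Finset (Fin K)) then 1 else Z.card := by
          intro i
          split_ifs
          · exact Finset.card_singleton x0
          · rfl
        rw [Finset.prod_congr rfl (fun i _ => h1 i), Finset.prod_ite, Finset.prod_const_one, one_mul,
          Finset.prod_const]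
        congr 1
        have h2 : (Finset.univ.filter fun i : Fin K => i ∉ ({q, ⟨q + 1, hq⟩} : Finset (Fin K))) =
            ({q, ⟨q + 1, hq⟩} : Finset (Fin K))ᶜ := by
          ext i
          simp
        rw [h2, Finset.card_compl, Fintype.card_fin, Finset.card_pair]
        intro h3
        have h4 := congrArg Fin.val h3
        simp at h4
      rw [← hC]
      refine Finset.card_le_card_of_injOn
        (fun z i => if i ∈ ({q, ⟨q + 1, hq⟩} : Finset (Fin K)) then x0 else z i) ?_ ?_
      · intro z hz
        have hz1 := (Finset.mem_filter.1 (Finset.mem_coe.1 hz)).1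
        rw [Fintype.mem_piFinset] at hz1
        refine Finset.mem_coe.2 (Fintype.mem_piFinset.2 fun i => ?_)
        simp only
        split_ifs
        · exact Finset.mem_singleton_self x0
        · exact hz1 i
      · intro z hz z' hz' he
        obtain ⟨hz1, -, hz2⟩ := Finset.mem_filter.1 (Finset.mem_coe.1 hz)
        obtain ⟨hz1', -, hz2'⟩ := Finset.mem_filter.1 (Finset.mem_coe.1 hz')
        rw [Fintype.mem_piFinset] at hz1 hz1'
        refine det d q hq z z' hz1 hz1' hz2 hz2' fun i hi1 hi2 => ?_
        have h1 := congrFun he i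
        have h2 : i ∉ ({q, ⟨q + 1, hq⟩} : Finset (Fin K)) := by
          rw [Finset.mem_insert, Finset.mem_singleton, not_or]
          exact ⟨fun h => hi1 (congrArg Fin.val h), fun h => hi2 (congrArg Fin.val h)⟩
        simp only [if_neg h2] at h1
        exact h1
    · have h1 : bad (d, q) = ∅ := by
        refine Finset.filter_eq_empty_iff.2 fun z _ h => hq h.1
      rw [h1, Finset.card_empty]
      exact Nat.zero_le _
  have hsub : (Fintype.piFinset fun _ : Fin K => Z) ⊆ Finset.univ.biUnion bad := by
    intro z hz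
    obtain ⟨d, q, hq, hP⟩ := hcon z (fun i => Fintype.mem_piFinset.1 hz i)
    exact Finset.mem_biUnion.2 ⟨(d, ⟨q, by omega⟩), Finset.mem_univ _,
      Finset.mem_filter.2 ⟨hz, hq, hP⟩⟩
  have h1 := (Finset.card_le_card hsub).trans Finset.card_biUnion_le
  have h2 : ∑ p, (bad p).card ≤ ∑ _p : D × Fin K, Z.card ^ (K - 2) :=
    Finset.sum_le_sum fun p _ => hbad p
  rw [Finset.sum_const, Finset.card_univ, Fintype.card_prod, Fintype.card_fin, smul_eq_mul] at h2
  rw [Fintype.card_piFinset, Finset.prod_const, Finset.card_univ, Fintype.card_fin] at h1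
  have h3 : Z.card ^ K = Z.card ^ 2 * Z.card ^ (K - 2) := by
    rw [← pow_add]
    congr 1
    omega
  have h4 : Fintype.card D * K * Z.card ^ (K - 2) < Z.card ^ 2 * Z.card ^ (K - 2) :=
    Nat.mul_lt_mul_of_pos_right hc (pow_pos hZ _)
  rw [h3] at h1
  exact absurd (h1.trans h2) (not_le.2 h4)

end Pool.Agent.H.MP_5fffd4_al
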