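import Mathlib

set_option autoImplicit false

namespace Pool.Agent.H.MP_5fffd4_al

/-- A grammar with productions `A → B C`, `A → a`, `A → ε`. -/
structure BG (T : Type) where
  N : Type
  S : N
  bin : N → N → N → Prop
  term : N → T → Prop
  eps : N → Prop

variable {T : Type}

/-- `Der g A u`: the nonterminal `A` derives the terminal word `u`. -/
inductive Der (g : BG T) : g.N → List T → Prop
  | term {A : g.N} {a : T} : g.term A a → Der g A [a]
  | eps {A : g.N} : g.eps A → Der g A []
  | bin {A B C : g.N} {u v : List T} :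
      g.bin A B C → Der g B u → Der g C v → Der g A (u ++ v)

/-- `Ctx g A B x y`: `A ⇒* x B y` with terminal words `x, y`. -/
inductive Ctx (g : BG T) : g.N → g.N → List T → List T → Prop
  | refl (A : g.N) : Ctx g A A [] []
  | left {A B C D : g.N} {x y v : List T} :
      g.bin A B C → Der g C v → Ctx g B D x y → Ctx g A D x (y ++ v)
  | right {A B C D : g.N} {x y u : List T} :
      g.bin A B C → Der g B u → Ctx g C D x y → Ctx g A D (u ++ x) y

theorem Ctx.trans {g : BG T} {A B C : g.N} {x y x' y' : List T} (h : Ctx g A B x y)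
    (h' : Ctx g B C x' y') : Ctx g A C (x ++ x') (y' ++ y) := by
  induction h with
  | refl A => simpa using h'
  | left hb hv _ ih =>
    have := Ctx.left hb hv (ih h')
    rwa [List.append_assoc] at this
  | right hb hu _ ih =>
    have := Ctx.right hb hu (ih h')
    rwa [← List.append_assoc] at this

theorem Ctx.der {g : BG T} {A B : g.N} {x y u : List T} (h : Ctx g A B x y)
    (h' : Der g B u) : Der g A (x ++ u ++ y) := by
  induction h with
  | refl A => simpa using h'
  | left hb hv _ ih =>
    have := Der.bin hb (ih h') hv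
    simpa [List.append_assoc] using this
  | right hb hu _ ih =>
    have := Der.bin hb hu (ih h')
    simpa [List.append_assoc] using this

/-- A node of the word `w`: `w = x u y`, `S ⇒* x A y`, `A ⇒* u`. -/
structure Node (g : BG T) (w : List T) (A : g.N) (x u y : List T) : Prop where
  eq : w = x ++ u ++ y
  ctx : Ctx g g.S A x y
  der : Der g A u

theorem Node.sub {g : BG T} {w : List T} {A B : g.N} {x u y x' u' y' : List T}
    (h : Node g w A x u y) (hc : Ctx g A B x' y') (hd : Der g B u') (hu : u = x' ++ u' ++ y') :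
    Node g w B (x ++ x') u' (y' ++ y) := by
  refine ⟨?_, h.ctx.trans hc, hd⟩
  rw [h.eq, hu]
  simp [List.append_assoc]

/-- concatenations of words of `V` -/
def Star (V : Set (List T)) (w : List T) : Prop :=
  ∃ L : List (List T), (∀ v ∈ L, v ∈ V) ∧ w = L.flatten

theorem Star.nil (V : Set (List T)) : Star V [] := ⟨[], by simp, rfl⟩

theorem Star.of_mem {V : Set (List T)} {v : List T} (h : v ∈ V) : Star V v :=
  ⟨[v], by simpa using h, by simp⟩

theorem Star.append {V : Set (List T)} {a b : List T} (ha : Star V a) (hb : Star V b) :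
    Star V (a ++ b) := by
  obtain ⟨L, hL, rfl⟩ := ha
  obtain ⟨M, hM, rfl⟩ := hb
  refine ⟨L ++ M, ?_, by simp⟩
  intro v hv
  rcases List.mem_append.1 hv with h | h
  · exact hL v h
  · exact hM v h

theorem Star.mono {V V' : Set (List T)} (h : ∀ v ∈ V', Star V v) {w : List T}
    (hw : Star V' w) : Star V w := by
  obtain ⟨L, hL, rfl⟩ := hw
  induction L with
  | nil => exact Star.nil V
  | cons a L ih =>
    rw [List.flatten_cons]
    exact (h a (hL a (by simp))).append (ih fun v hv => hL v (by simp [hv]))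

variable {G : Type*} [Group G]

/-- the value of a word -/
def ev (f : T → G) (w : List T) : G := (w.map f).prod

@[simp] theorem ev_nil (f : T → G) : ev f [] = 1 := rfl

@[simp] theorem ev_append (f : T → G) (a b : List T) : ev f (a ++ b) = ev f a * ev f b := by
  simp [ev]

/-- the pairs of values of contexts from `A` to `B` -/
def Mor (g : BG T) (f : T → G) (A B : g.N) (x y : G) : Prop :=
  ∃ a b, Ctx g A B a b ∧ ev f a = x ∧ ev f b = y

/-- mutual reachability -/
def Eqv (g : BG T) (A B : g.N) : Prop :=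
  (∃ a b, Ctx g A B a b) ∧ ∃ a b, Ctx g B A a b

/-- `{r | (1, r) ∈ Mor A A}` -/
def Rg (g : BG T) (f : T → G) (A : g.N) : Subgroup G := Subgroup.closure {r | Mor g f A A 1 r}

/-- `{l | (l, 1) ∈ Mor A A}` -/
def Lg (g : BG T) (f : T → G) (A : g.N) : Subgroup G := Subgroup.closure {l | Mor g f A A l 1}

/-- first projection of `Mor A A` -/
def P1 (g : BG T) (f : T → G) (A : g.N) : Subgroup G :=
  Subgroup.closure {x | ∃ y, Mor g f A A x y}

/-- second projection of `Mor A A` -/
def P2 (g : BG T) (f : T → G) (A : g.N) : Subgroup G :=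
  Subgroup.closure {y | ∃ x, Mor g f A A x y}

/-- the group generated by the values of the words of `V` -/
def Gam (f : T → G) (V : Set (List T)) : Subgroup G := Subgroup.closure (ev f '' V)

/-- conjugate subgroup `p H p⁻¹` -/
def cj (p : G) (H : Subgroup G) : Subgroup G := H.map (MulAut.conj p).toMonoidHom

theorem mem_cj {p z : G} {H : Subgroup G} : z ∈ cj p H ↔ p⁻¹ * z * p ∈ H := by
  unfold cj
  rw [Subgroup.mem_map]
  constructor
  · rintro ⟨y, hy, rfl⟩
    simpa [mul_assoc] using hy
  · intro h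
    exact ⟨_, h, by simp [mul_assoc]⟩

theorem cj_cj (p q : G) (H : Subgroup G) : cj p (cj q H) = cj (p * q) H := by
  ext z
  simp [mem_cj, mul_assoc]

theorem cj_one (H : Subgroup G) : cj 1 H = H := by
  ext z
  simp [mem_cj]

theorem cj_self {p : G} {H : Subgroup G} (hp : p ∈ H) : cj p H = H := by
  ext z
  rw [mem_cj]
  constructor
  · intro h
    have := H.mul_mem (H.mul_mem hp h) (H.inv_mem hp)
    simpa [mul_assoc] using this
  · intro h
    exact H.mul_mem (H.mul_mem (H.inv_mem hp) h) hp

/-- `Y` normalises `H` -/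
def Nrm (Y H : Subgroup G) : Prop := ∀ p ∈ Y, cj p H = H

/-- the standing assumptions -/
structure Setup (g : BG T) (f : T → G) : Prop where
  tor : ∀ x : G, IsOfFinOrder x
  lang : ∀ w, Der g g.S w ↔ ev f w ≠ 1

/-- all `P`-nodes of all nontrivial words of `V*` have length at most `l` -/
def Bdd (g : BG T) (f : T → G) (V : Set (List T)) (P : Set g.N) (l : ℕ) : Prop :=
  ∀ w, Star V w → ev f w ≠ 1 → ∀ A ∈ P, ∀ x u y, Node g w A x u y → u.length ≤ l

/-- the statement of the main induction -/
def Claim (g : BG T) (f : T → G) (P : Set g.N) : Prop :=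
  ∃ V : Set (List T), V.Finite ∧ [] ∉ V ∧ (Gam f V : Set G).Infinite ∧ ∃ l, Bdd g f V P l

/-- a finite set of nonempty words generating an infinite group -/
structure Good (f : T → G) (V : Set (List T)) : Prop where
  fin : V.Finite
  nil : [] ∉ V
  inf : (Gam f V : Set G).Infinite

/-- the property reached by Stage 1 -/
def S1 (g : BG T) (f : T → G) (V : Set (List T)) : Prop :=
  ∀ w, Star V w → ev f w ≠ 1 → ∀ A x u y, Node g w A x u y →
    (cj (ev f (x ++ u)) (Rg g f A)).relIndex (Gam f V) = 0 ∧
    (cj (ev f x) (Lg g f A)).relIndex (Gam f V) = 0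

/-- the property reached by Stage 2 -/
def S2 (g : BG T) (f : T → G) (V : Set (List T)) (Q : Set g.N) (l2 : ℕ) : Prop :=
  ∀ w, Star V w → ev f w ≠ 1 → ∀ A ∈ Q, ∀ x u y, Node g w A x u y → l2 < u.length →
    (cj (ev f x) (P1 g f A)).relIndex (Gam f V) ≠ 0 ∧
    (cj (ev f (x ++ u)) (P2 g f A)).relIndex (Gam f V) ≠ 0

/-- the property reached by Stage 3 -/
def S3 (g : BG T) (f : T → G) (V : Set (List T)) (Q : Set g.N) (l2 : ℕ) (Θ : Subgroup G) :
    Prop :=
  ∀ w, Star V w → ev f w ≠ 1 → ∀ A ∈ Q, ∀ x u y, Node g w A x u y → l2 < u.length →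
    cj (ev f (x ++ u)) (Rg g f A) ⊓ Gam f V ≤ Θ ∧
    cj (ev f x) (Lg g f A) ⊓ Gam f V ≤ Θ ∧
    Nrm (Gam f V) (cj (ev f (x ++ u)) (Rg g f A)) ∧
    Nrm (Gam f V) (cj (ev f x) (Lg g f A))

/-- `Θ` is a normal subgroup of infinite index of the group generated by `V` -/
structure Quo (f : T → G) (V : Set (List T)) (Θ : Subgroup G) : Prop where
  le : Θ ≤ Gam f V
  nrm : Nrm (Gam f V) Θ
  idx : Θ.relIndex (Gam f V) = 0

/-- `Q` is a class of mutually reachable nonterminals, and everything reachable from `Q` lies in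
`P` or `Q` -/
structure Cls (g : BG T) (P Q : Set g.N) : Prop where
  eqv : ∀ A ∈ Q, ∀ B ∈ Q, Eqv g A B
  full : ∀ A ∈ Q, ∀ B, Eqv g A B → B ∈ Q
  down : ∀ A ∈ Q, ∀ B x y, Ctx g A B x y → B ∈ P ∨ B ∈ Q

/-- `Q` is linear: no production has all three nonterminals in `Q` -/
def Lin (g : BG T) (Q : Set g.N) : Prop :=
  ∀ A ∈ Q, ∀ B C, g.bin A B C → B ∈ Q → C ∈ Q → False

end Pool.Agent.H.MP_5fffd4_al
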