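import Pool.Agent.H.MP_5fffd4_al.Quot

set_option autoImplicit false

namespace Pool.Agent.H.MP_5fffd4_al

universe u

variable {T : Type} {G : Type u} [Group G] {f : T → G}

theorem QuotZ_length_ge {V : Set (List T)} (h0 : [] ∉ V) (l : List (List T))
    (hl : ∀ v ∈ l, v ∈ V) : l.length ≤ l.flatten.length := by
  induction l with
  | nil => simp
  | cons a l ih =>
    have h1 := ih fun v hv => hl v (by simp [hv])
    have h2 : 1 ≤ a.length := by
      rw [Nat.one_le_iff_ne_zero]
      intro h
      rw [List.length_eq_zero_iff] at h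
      exact h0 (h ▸ hl a (by simp))
    rw [List.flatten_cons, List.length_append, List.length_cons]
    omega

theorem QuotZ_length_le {V : Set (List T)} {c : ℕ} (hc : ∀ v ∈ V, v.length ≤ c)
    (l : List (List T)) (hl : ∀ v ∈ l, v ∈ V) : l.flatten.length ≤ l.length * c := by
  induction l with
  | nil => simp
  | cons a l ih =>
    have h1 := ih fun v hv => hl v (by simp [hv])
    have h2 := hc a (hl a (by simp))
    rw [List.flatten_cons, List.length_append, List.length_cons, Nat.succ_mul]
    omega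

/-- Many words with pairwise different classes modulo `Θ`.

Proof. For `k ∈ [n, 2n)` let `D k` be the set of `sphereV` for `k`, and
`Z = ⋃ (D k).image List.flatten`. For `z = l.flatten`, `l ∈ D k`: `Star V z`,
`n ≤ k ≤ z.length` (elements of `V` are nonempty) and `z.length ≤ k c ≤ 2 n c`. If
`z = l.flatten`, `z' = l'.flatten` have `(ev z)⁻¹ ev z' ∈ Θ`, then `GeoV` of both gives `k = k'`, and so
`l = l'`. In particular `flatten` is injective on `⋃ D k`, which has
`Σ_{k=n}^{2n-1} (k + 1) ≥ n * n` elements (the `D k` are disjoint: lengths). -/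
theorem exists_Z (htor : ∀ x : G, IsOfFinOrder x) {V : Set (List T)} (hV : Good f V) {c : ℕ}
    (hc : ∀ v ∈ V, v.length ≤ c) {Θ : Subgroup G} (hΘ : Quo f V Θ) (n : ℕ) :
    ∃ Z : Finset (List T), n * n ≤ Z.card ∧
      (∀ z ∈ Z, Star V z ∧ n ≤ z.length ∧ z.length ≤ 2 * n * c) ∧
      ∀ z ∈ Z, ∀ z' ∈ Z, (ev f z)⁻¹ * ev f z' ∈ Θ → z = z' := by
  classical
  choose D hD1 hD2 hD3 using fun k => sphereV htor hV hΘ k
  have key : ∀ k k' : ℕ, ∀ l ∈ D k, ∀ l' ∈ D k',
      (ev f l.flatten)⁻¹ * ev f l'.flatten ∈ Θ → l = l' := by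
    intro k k' l hl l' hl' h
    obtain ⟨e1, m1, g1⟩ := hD2 k l hl
    obtain ⟨e2, m2, g2⟩ := hD2 k' l' hl'
    have h1 := g1 l' m2 h
    have h2 := g2 l m1 (by
      have := Θ.inv_mem h
      rwa [mul_inv_rev, inv_inv] at this)
    have h3 : k = k' := by omega
    subst h3
    exact hD3 k l hl l' hl' h
  have hinj : Set.InjOn List.flatten
      (((Finset.range n).biUnion fun i => D (n + i) : Finset (List (List T))) :
        Set (List (List T))) := by
    intro l hl l' hl' h
    rw [Finset.mem_coe, Finset.mem_biUnion] at hl hl'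
    obtain ⟨i, _, hi⟩ := hl
    obtain ⟨j, _, hj⟩ := hl'
    refine key _ _ l hi l' hj ?_
    rw [h, inv_mul_cancel]
    exact Θ.one_mem
  refine ⟨((Finset.range n).biUnion fun i => D (n + i)).image List.flatten, ?_, ?_, ?_⟩
  · rw [Finset.card_image_of_injOn hinj, Finset.card_biUnion]
    · calc n * n = ∑ _i ∈ Finset.range n, n := by
            rw [Finset.sum_const, Finset.card_range, smul_eq_mul]
        _ ≤ ∑ i ∈ Finset.range n, (D (n + i)).card := by
            refine Finset.sum_le_sum fun i _ => ?_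
            have := hD1 (n + i)
            omega
    · intro i _ j _ hij
      rw [Function.onFun, Finset.disjoint_left]
      intro l hl hl'
      have h1 := (hD2 _ l hl).1
      have h2 := (hD2 _ l hl').1
      exact hij (by omega)
  · intro z hz
    rw [Finset.mem_image] at hz
    obtain ⟨l, hl, rfl⟩ := hz
    rw [Finset.mem_biUnion] at hl
    obtain ⟨i, hi, hl⟩ := hl
    rw [Finset.mem_range] at hi
    obtain ⟨e1, m1, g1⟩ := hD2 _ l hl
    refine ⟨⟨l, m1, rfl⟩, ?_, ?_⟩
    · have := QuotZ_length_ge hV.nil l m1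
      omega
    · have h1 := QuotZ_length_le hc l m1
      rw [e1] at h1
      refine h1.trans (Nat.mul_le_mul_right c ?_)
      omega
  · intro z hz z' hz' h
    rw [Finset.mem_image] at hz hz'
    obtain ⟨l, hl, rfl⟩ := hz
    obtain ⟨l', hl', rfl⟩ := hz'
    rw [Finset.mem_biUnion] at hl hl'
    obtain ⟨i, _, hi⟩ := hl
    obtain ⟨j, _, hj⟩ := hl'
    rw [key _ _ l hi l' hj h]

end Pool.Agent.H.MP_5fffd4_al
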