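import Pool.Agent.H.MP_5fffd4_al.Bad
import Pool.Agent.H.MP_5fffd4_al.QuotZ
import Pool.Agent.H.MP_5fffd4_al.Count

set_option autoImplicit false

namespace Pool.Agent.H.MP_5fffd4_al

universe u

variable {T : Type} {G : Type u} [Group G] {g : BG T} {f : T → G}

/-- the selected bad event -/
def PrGT (g : BG T) (f : T → G) (Q : Set g.N) (V : Set (List T)) (Θ : Subgroup G)
    (zs : List (List T)) (q : ℕ) (t : List T) (i j k : ℕ) (D0 D1 D2 : g.N) (s0 s1 s2 : List T)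
    (b : Bool) : Prop :=
  if b = true then BadP f (rhoL g f Q) (Lg g f) (Gam f V) Θ zs q t i j k D0 D1 D2 s0 s1 s2
  else BadP f (rhoR g f Q) (Rg g f) (Gam f V) Θ zs q t i j k D0 D1 D2 s0 s1 s2

theorem PrGT_det (hs : Setup g f) {P Q : Set g.N} (hQ : Cls g P Q) {V : Set (List T)}
    {Θ : Subgroup G} (hΘ : Quo f V Θ) {Z : Finset (List T)} (hZs : ∀ z ∈ Z, Star V z)
    (hZ : ∀ z ∈ Z, ∀ z' ∈ Z, (ev f z)⁻¹ * ev f z' ∈ Θ → z = z') {m : ℕ}
    (z z' : Fin m → List T) (hz : ∀ i, z i ∈ Z) (hz' : ∀ i, z' i ∈ Z) (q : ℕ) (hq : q + 1 < m)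
    (hag : ∀ i : Fin m, (i : ℕ) ≠ q → (i : ℕ) ≠ q + 1 → z i = z' i) (t : List T) (i j k : ℕ)
    (D0 D1 D2 : g.N) (s0 s1 s2 : List T) (b : Bool)
    (h : PrGT g f Q V Θ (List.ofFn z) q t i j k D0 D1 D2 s0 s1 s2 b)
    (h' : PrGT g f Q V Θ (List.ofFn z') q t i j k D0 D1 D2 s0 s1 s2 b) : z = z' := by
  unfold PrGT at h h'
  cases b with
  | true =>
    rw [if_pos rfl] at h h'
    exact bad_det (t := t) (i := i) (j := j) (k := k) (D0 := D0) (D1 := D1) (D2 := D2) (s0 := s0)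
      (s1 := s1) (s2 := s2) hΘ (rhoL g f Q) (Lg g f)
      (fun _ _ _ _ _ h h' => rhoL_det hs hQ h h') hZs hZ hz hz' hq hag h h'
  | false =>
    rw [if_neg Bool.false_ne_true] at h h'
    exact bad_det (t := t) (i := i) (j := j) (k := k) (D0 := D0) (D1 := D1) (D2 := D2) (s0 := s0)
      (s1 := s1) (s2 := s2) hΘ (rhoR g f Q) (Rg g f)
      (fun _ _ _ _ _ h h' => rhoR_det hs hQ h h') hZs hZ hz hz' hq hag h h'

/-- Existence of a good tuple of `m` blocks of length about `n`, `n` arbitrarily large.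

Proof. Data type `D = {t // t ∈ V ∨ t = []} × (Fin (B+1))^3 × g.N^3 × (words of length ≤ l)^3 × Bool`
(finite; the last entry selects `rhoL, Lg` or `rhoR, Rg`), `B = (2 n c) m + c`. Its cardinality is
`C (B + 1)^3` with `C` independent of `n`. Choose
`n = n0 + C m ((2 c m + c + 1))^3 + 1`: `B + 1 ≤ (2 c m + c + 1) n`, so
`Nat.card D * m ≤ C m (2 c m + c + 1)^3 n^3 < n^4 ≤ Z.card^2` with `Z` from `exists_Z`.
`exists_good_tuple` with `K = m` (the `det` hypothesis is `bad_det` with `rhoL_det`, `rhoR_det`) gives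
`z`, and `zs = List.ofFn z`. -/
theorem exists_goodT [Finite T] (hs : Setup g f) (hN : Finite g.N) {P Q : Set g.N}
    (hQ : Cls g P Q) {V : Set (List T)} (hV : Good f V) {c : ℕ} (hc : ∀ v ∈ V, v.length ≤ c)
    {Θ : Subgroup G} (hΘ : Quo f V Θ) (l m n0 : ℕ) (hm : 2 ≤ m) :
    ∃ n ≥ n0, ∃ zs : List (List T), zs.length = m ∧
      (∀ z ∈ zs, Star V z ∧ n ≤ z.length ∧ z.length ≤ 2 * n * c) ∧
      GoodT g f Q V Θ l (2 * n * c * m + c) zs := by
  classical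
  -- the part of the data which does not depend on `n`
  have hVf : Finite {t : List T // t ∈ V ∨ t = []} := by
    have h1 : (insert [] V : Set (List T)).Finite := hV.fin.insert _
    refine (h1.subset ?_).to_subtype
    rintro t (ht | ht)
    · exact Set.mem_insert_of_mem _ ht
    · rw [ht]; exact Set.mem_insert _ _
  have hWf : Finite {s : List T // s.length ≤ l} := (List.finite_length_le T l).to_subtype
  obtain ⟨C, hC⟩ : ∃ C : ℕ, C = Nat.card ({t : List T // t ∈ V ∨ t = []} ×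
      ((g.N × g.N × g.N) × (({s : List T // s.length ≤ l} × {s : List T // s.length ≤ l} ×
        {s : List T // s.length ≤ l}) × Bool))) := ⟨_, rfl⟩
  obtain ⟨n, hn⟩ : ∃ n : ℕ, n = n0 + C * m * (2 * c * m + c + 1) ^ 3 + 1 := ⟨_, rfl⟩
  obtain ⟨Z, hZc, hZ1, hZ2⟩ := exists_Z hs.tor hV hc hΘ n
  obtain ⟨B, hB⟩ : ∃ B : ℕ, B = 2 * n * c * m + c := ⟨_, rfl⟩
  have hn1 : 1 ≤ n := by omega
  have hB1 : B + 1 ≤ (2 * c * m + c + 1) * n := by
    have h1 : c ≤ c * n := Nat.le_mul_of_pos_right c hn1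
    calc B + 1 = 2 * c * m * n + c + 1 := by rw [hB]; ring
      _ ≤ 2 * c * m * n + c * n + n := by omega
      _ = (2 * c * m + c + 1) * n := by ring
  have hcard : Nat.card (({t : List T // t ∈ V ∨ t = []} ×
      ((g.N × g.N × g.N) × (({s : List T // s.length ≤ l} × {s : List T // s.length ≤ l} ×
        {s : List T // s.length ≤ l}) × Bool))) ×
      (Fin (B + 1) × Fin (B + 1) × Fin (B + 1))) * m < Z.card ^ 2 := by
    rw [Nat.card_prod, ← hC]
    have h1 : Nat.card (Fin (B + 1) × Fin (B + 1) × Fin (B + 1)) = (B + 1) ^ 3 := by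
      rw [Nat.card_prod, Nat.card_prod, Nat.card_fin]
      ring
    rw [h1]
    calc C * (B + 1) ^ 3 * m ≤ C * ((2 * c * m + c + 1) * n) ^ 3 * m := by gcongr
      _ = (C * m * (2 * c * m + c + 1) ^ 3) * n ^ 3 := by ring
      _ < n * n ^ 3 := by
          refine Nat.mul_lt_mul_of_pos_right (by omega) (pow_pos hn1 3)
      _ = (n * n) ^ 2 := by ring
      _ ≤ Z.card ^ 2 := Nat.pow_le_pow_left hZc 2
  obtain ⟨z, hz1, hz2⟩ := exists_good_tuple Z m hm
    (D := ({t : List T // t ∈ V ∨ t = []} ×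
      ((g.N × g.N × g.N) × (({s : List T // s.length ≤ l} × {s : List T // s.length ≤ l} ×
        {s : List T // s.length ≤ l}) × Bool))) ×
      (Fin (B + 1) × Fin (B + 1) × Fin (B + 1)))
    (fun d q z => PrGT g f Q V Θ (List.ofFn z) q d.1.1.1 d.2.1 d.2.2.1 d.2.2.2
      d.1.2.1.1 d.1.2.1.2.1 d.1.2.1.2.2 d.1.2.2.1.1.1 d.1.2.2.1.2.1.1 d.1.2.2.1.2.2.1 d.1.2.2.2)
    (fun d q hq z z' hz hz' hp hp' hag => PrGT_det hs hQ hΘ (fun z hz => (hZ1 z hz).1) hZ2 z z'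
      hz hz' q hq hag _ _ _ _ _ _ _ _ _ _ _ hp hp')
    hcard
  refine ⟨n, by omega, List.ofFn z, List.length_ofFn, ?_, ?_⟩
  · intro x hx
    rw [List.mem_ofFn] at hx
    obtain ⟨i, rfl⟩ := hx
    exact hZ1 _ (hz1 i)
  · intro q hq t ht i j k hi hj hk D0 D1 D2 s0 s1 s2 h0 h1 h2
    rw [List.length_ofFn] at hq
    rw [← hB] at hi hj hk
    have key : ∀ b : Bool, ¬ PrGT g f Q V Θ (List.ofFn z) q t i j k D0 D1 D2 s0 s1 s2 b := by
      intro b
      exact hz2 (⟨⟨t, ht⟩, ⟨⟨D0, D1, D2⟩, ⟨⟨⟨s0, h0⟩, ⟨s1, h1⟩, ⟨s2, h2⟩⟩, b⟩⟩⟩,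
        ⟨⟨i, Nat.lt_succ_of_le hi⟩, ⟨j, Nat.lt_succ_of_le hj⟩, ⟨k, Nat.lt_succ_of_le hk⟩⟩) q hq
    refine ⟨?_, ?_⟩
    · intro h
      apply key true
      unfold PrGT
      rw [if_pos rfl]
      exact h
    · intro h
      apply key false
      unfold PrGT
      rw [if_neg Bool.false_ne_true]
      exact h

end Pool.Agent.H.MP_5fffd4_al
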