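import Pool.Agent.H.MP_5fffd4_al.Defs
import Pool.Agent.H.MP_21aec1_al.Zone

set_option autoImplicit false

namespace Pool.Agent.H.MP_5fffd4_al

section gram

variable {T : Type} (cg : ContextFreeGrammar T)

/-- The lists of symbols which are used as nonterminals. -/
def GramF : Set (List (Symbol T cg.NT)) :=
  {l | l = [] ∨ l = [Symbol.nonterminal cg.initial] ∨
    ∃ r ∈ cg.rules, l <:+ r.output ∨ ∃ X ∈ r.output, l = [X]}

theorem Gram_finite : (GramF cg).Finite := by
  have h1 : ∀ r : ContextFreeRule T cg.NT,
      ({l | l <:+ r.output ∨ ∃ X ∈ r.output, l = [X]} : Set (List (Symbol T cg.NT))).Finite := by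
    intro r
    have h2 : ({l | l <:+ r.output} : Set (List (Symbol T cg.NT))).Finite := by
      have h3 : ({l | l <:+ r.output} : Set (List (Symbol T cg.NT))) =
          {l | l ∈ r.output.tails} := by
        ext l
        simp only [Set.mem_ofPred_eq, List.mem_tails]
      rw [h3]
      exact List.finite_toSet _
    have h4 : ({l | ∃ X ∈ r.output, l = [X]} : Set (List (Symbol T cg.NT))).Finite := by
      have h5 : ({l | ∃ X ∈ r.output, l = [X]} : Set (List (Symbol T cg.NT))) =
          (fun X => [X]) '' {X | X ∈ r.output} := by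
        ext l
        simp only [Set.mem_ofPred_eq, Set.mem_image]
        exact ⟨fun ⟨X, hX, h⟩ => ⟨X, hX, h.symm⟩, fun ⟨X, hX, h⟩ => ⟨X, hX, h.symm⟩⟩
      rw [h5]
      exact (List.finite_toSet _).image _
    exact h2.union h4
  have h6 : GramF cg ⊆ ({[]} ∪ {[Symbol.nonterminal cg.initial]}) ∪
      ⋃ r ∈ cg.rules, {l | l <:+ r.output ∨ ∃ X ∈ r.output, l = [X]} := by
    rintro l (h | h | ⟨r, hr, h⟩)
    · exact Or.inl (Or.inl h)
    · exact Or.inl (Or.inr h)
    · exact Or.inr (Set.mem_iUnion₂.2 ⟨r, hr, h⟩)
  refine Set.Finite.subset (((Set.finite_singleton _).union (Set.finite_singleton _)).union ?_) h6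
  exact Set.Finite.biUnion cg.rules.finite_toSet fun r _ => h1 r

variable {cg}

theorem Gram_nil : [] ∈ GramF cg := Or.inl rfl

theorem Gram_init : [Symbol.nonterminal cg.initial] ∈ GramF cg := Or.inr (Or.inl rfl)

theorem Gram_output {r : ContextFreeRule T cg.NT} (hr : r ∈ cg.rules) : r.output ∈ GramF cg :=
  Or.inr (Or.inr ⟨r, hr, Or.inl (List.suffix_refl _)⟩)

theorem Gram_tail {X : Symbol T cg.NT} {l : List (Symbol T cg.NT)} (h : X :: l ∈ GramF cg) :
    l ∈ GramF cg := by
  rcases h with h | h | ⟨r, hr, h | ⟨Y, hY, h⟩⟩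
  · cases h
  · have : l = [] := (List.cons.inj h).2
    rw [this]; exact Gram_nil
  · exact Or.inr (Or.inr ⟨r, hr, Or.inl ((List.suffix_cons X l).trans h)⟩)
  · have : l = [] := (List.cons.inj h).2
    rw [this]; exact Gram_nil

theorem Gram_head {X : Symbol T cg.NT} {l : List (Symbol T cg.NT)} (h : X :: l ∈ GramF cg) :
    [X] ∈ GramF cg := by
  rcases h with h | h | ⟨r, hr, h | ⟨Y, hY, h⟩⟩
  · cases h
  · have : X = Symbol.nonterminal cg.initial := (List.cons.inj h).1
    rw [this]; exact Gram_init
  · exact Or.inr (Or.inr ⟨r, hr, Or.inr ⟨X, h.subset List.mem_cons_self, rfl⟩⟩)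
  · have : X = Y := (List.cons.inj h).1
    rw [this]
    exact Or.inr (Or.inr ⟨r, hr, Or.inr ⟨Y, hY, rfl⟩⟩)

variable (cg)

/-- The binary grammar. -/
def GramB : BG T where
  N := {l : List (Symbol T cg.NT) // l ∈ GramF cg}
  S := ⟨_, Gram_init⟩
  bin l l1 l2 := (∃ X, l.1 = X :: l2.1 ∧ l1.1 = [X]) ∨
    (∃ r ∈ cg.rules, l.1 = [Symbol.nonterminal r.input] ∧ l1.1 = r.output ∧ l2.1 = [])
  term l a := l.1 = [Symbol.terminal a]
  eps l := l.1 = []

theorem Gram_forward {l : (GramB cg).N} {w : List T} (h : Der (GramB cg) l w) :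
    ∃ pcs : List (List T), List.Forall₂ (MP_21aec1_al.Sy cg) l.1 pcs ∧ w = pcs.flatten := by
  induction h with
  | @term A a hA =>
    have hA' : A.1 = [Symbol.terminal a] := hA
    refine ⟨[[a]], ?_, by simp⟩
    rw [hA']
    exact List.Forall₂.cons ⟨0, rfl⟩ List.Forall₂.nil
  | @eps A hA =>
    have hA' : A.1 = [] := hA
    refine ⟨[], ?_, by simp⟩
    rw [hA']
    exact List.Forall₂.nil
  | @bin A B C u v hb _ _ ih1 ih2 =>
    obtain ⟨p1, hp1, rfl⟩ := ih1
    obtain ⟨p2, hp2, rfl⟩ := ih2
    rcases hb with ⟨X, hX, hX1⟩ | ⟨r, hr, h1, h2, h3⟩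
    · rw [hX1] at hp1
      cases hp1 with
      | @cons _ p _ _ hd hnil =>
        cases hnil
        refine ⟨p :: p2, ?_, by simp⟩
        rw [hX]
        exact List.Forall₂.cons hd hp2
    · rw [h3] at hp2
      cases hp2
      rw [h2] at hp1
      have h4 := MP_21aec1_al.der_of_rule cg hr hp1
      refine ⟨[p1.flatten], ?_, by simp⟩
      rw [h1]
      exact List.Forall₂.cons h4 List.Forall₂.nil

theorem Gram_backward (n : ℕ) : ∀ (l : List (Symbol T cg.NT)) (hl : l ∈ GramF cg)
    (pcs : List (List T)), List.Forall₂ (MP_21aec1_al.SyN cg n) l pcs →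
    Der (GramB cg) ⟨l, hl⟩ pcs.flatten := by
  induction n with
  | zero =>
    intro l
    induction l with
    | nil =>
      intro hl pcs h
      cases h
      exact Der.eps rfl
    | cons X l ih =>
      intro hl pcs h
      cases h with
      | @cons _ p _ pcs hd htl =>
        have h1 : Der (GramB cg) ⟨[X], Gram_head hl⟩ p := by
          cases X with
          | terminal a =>
            have h2 : p = [a] := hd
            subst h2
            exact Der.term rfl
          | nonterminal A => exact (show False from hd).elim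
        exact Der.bin (B := (⟨[X], Gram_head hl⟩ : (GramB cg).N))
          (C := (⟨l, Gram_tail hl⟩ : (GramB cg).N)) (Or.inl ⟨X, rfl, rfl⟩) h1
          (ih (Gram_tail hl) pcs htl)
  | succ n IH =>
    intro l
    induction l with
    | nil =>
      intro hl pcs h
      cases h
      exact Der.eps rfl
    | cons X l ih =>
      intro hl pcs h
      cases h with
      | @cons _ p _ pcs hd htl =>
        have h1 : Der (GramB cg) ⟨[X], Gram_head hl⟩ p := by
          cases X with
          | terminal a =>
            have h2 : p = [a] := hd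
            subst h2
            exact Der.term rfl
          | nonterminal A =>
            have h2 : MP_21aec1_al.DerN cg (n + 1) A p := hd
            rw [MP_21aec1_al.DerN_succ] at h2
            obtain ⟨r, hr, rfl, pcs', hf, rfl⟩ := h2
            have h3 := IH r.output (Gram_output hr) pcs' hf
            have h4 : Der (GramB cg) ⟨[], Gram_nil⟩ ([] : List T) := Der.eps rfl
            have h5 := Der.bin (A := (⟨[Symbol.nonterminal r.input], Gram_head hl⟩ :
              (GramB cg).N)) (Or.inr ⟨r, hr, rfl, rfl, rfl⟩) h3 h4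
            rwa [List.append_nil] at h5
        exact Der.bin (B := (⟨[X], Gram_head hl⟩ : (GramB cg).N))
          (C := (⟨l, Gram_tail hl⟩ : (GramB cg).N)) (Or.inl ⟨X, rfl, rfl⟩) h1
          (ih (Gram_tail hl) pcs htl)

end gram

/-- Every context-free language is generated by a grammar with finitely many nonterminals and
productions `A → B C`, `A → a`, `A → ε`.

Proof. Let `cg` be a context-free grammar of `L`. Let `F` be the finite set of lists of symbols
consisting of `[]`, `[nonterminal initial]`, `[X]` for all symbols `X` in outputs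
of rules, and all suffixes (`List.tails`) of outputs of rules. Nonterminals: `N = {l // l ∈ F}`
(finite), `S = [nonterminal initial]`.
`bin l l1 l2`: either (`l = X :: l2`, `l1 = [X]`, `l2 ≠ []`), or (`l = [nonterminal A]`, `l2 = []` and
`l1 = r.output` for a rule `r` with `r.input = A`). `term l a`: `l = [terminal a]`.
`eps l`: `l = []`.
Claim: `Der g l w ↔ ∃ pcs, List.Forall₂ (Sy cg) l pcs ∧ w = pcs.flatten` (`Sy`, `Der`,
`DerN`, `der_of_rule`, `der_of_mem`, `mem_of_der` from
`Pool/Agent/H/MP_21aec1_al/Zone.lean`). Forward: induction on `Der`. Backward: prove by induction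
on `n` for all `l ∈ F`: if `List.Forall₂ (SyN cg n) l pcs` then `Der g l pcs.flatten`, with an inner
induction on the list `l` (the tails of elements of `F` are in `F`; for `l = [X]` use
`term` or the rule, the height drops). -/
theorem exists_BG {T : Type} {L : Language T} (h : L.IsContextFree) :
    ∃ g : BG T, Finite g.N ∧ ∀ w, Der g g.S w ↔ w ∈ L := by
  obtain ⟨cg, rfl⟩ := h
  refine ⟨GramB cg, (Gram_finite cg).to_subtype, fun w => ⟨fun h => ?_, fun h => ?_⟩⟩
  · obtain ⟨pcs, hf, rfl⟩ := Gram_forward cg h
    have hf' : List.Forall₂ (MP_21aec1_al.Sy cg) [Symbol.nonterminal cg.initial] pcs := hf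
    cases hf' with
    | cons hd hnil =>
      cases hnil
      rw [List.flatten_cons, List.flatten_nil, List.append_nil]
      exact MP_21aec1_al.mem_of_der cg hd
  · obtain ⟨n, hn⟩ := MP_21aec1_al.der_of_mem cg h
    have h1 := Gram_backward cg n [Symbol.nonterminal cg.initial] Gram_init [w]
      (List.Forall₂.cons hn List.Forall₂.nil)
    rw [List.flatten_cons, List.flatten_nil, List.append_nil] at h1
    exact h1

end Pool.Agent.H.MP_5fffd4_al
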