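import Mathlib

set_option autoImplicit false

namespace Pool.Agent.H.MP_5fffd4_al

/-- Walks in a labelled graph: `Walk E X a b l`: a walk from `a` to `b` with label list `l`, all of
whose vertices after the start and before the end lie in `X`. -/
inductive Walk {W ι : Type*} (E : W → ι → W → Prop) (X : Set W) : W → W → List ι → Prop
  | nil (a : W) : Walk E X a a []
  | single {a b : W} {i : ι} : E a i b → Walk E X a b [i]
  | cons {a b c : W} {i : ι} {l : List ι} : E a i b → b ∈ X → Walk E X b c l →
      Walk E X a c (i :: l)

/-- Values of walks. -/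
def Graph_Val {W ι H : Type*} [Monoid H] (E : W → ι → W → Prop) (e : ι → H) (X : Set W)
    (a b : W) : Set H := {x : H | ∃ l, Walk E X a b l ∧ (l.map e).prod = x}

theorem Graph_decomp {W ι : Type*} {E : W → ι → W → Prop} {X : Set W} {u : W} {a b : W}
    {l : List ι} (hw : Walk E (insert u X) a b l) :
    Walk E X a b l ∨ ∃ (l1 : List ι) (L : List (List ι)) (l2 : List ι), Walk E X a u l1 ∧
      (∀ c ∈ L, Walk E X u u c) ∧ Walk E X u b l2 ∧ l = l1 ++ (L.flatten ++ l2) := by
  induction hw with
  | nil a => exact Or.inl (Walk.nil a)
  | single h => exact Or.inl (Walk.single h)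
  | @cons a b' c i l h1 h2 _ ih =>
    rcases h2 with rfl | h2
    · rcases ih with ih | ⟨l1, L, l2, w1, w2, w3, rfl⟩
      · exact Or.inr ⟨[i], [], l, Walk.single h1, by simp, ih, rfl⟩
      · refine Or.inr ⟨[i], l1 :: L, l2, Walk.single h1, ?_, w3, ?_⟩
        · intro c hc
          rcases List.mem_cons.1 hc with rfl | hc
          · exact w1
          · exact w2 c hc
        · simp
    · rcases ih with ih | ⟨l1, L, l2, w1, w2, w3, rfl⟩
      · exact Or.inl (Walk.cons h1 h2 ih)
      · exact Or.inr ⟨i :: l1, L, l2, Walk.cons h1 h2 w1, w2, w3, rfl⟩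

theorem Graph_mono {W ι : Type*} {E : W → ι → W → Prop} {X Y : Set W} (hXY : X ⊆ Y) {a b : W}
    {l : List ι} (hw : Walk E X a b l) : Walk E Y a b l := by
  induction hw with
  | nil a => exact Walk.nil a
  | single h => exact Walk.single h
  | cons h1 h2 _ ih => exact Walk.cons h1 (hXY h2) ih

theorem Graph_flatten_mem {ι H : Type*} [Monoid H] (e : ι → H) (V : Set H)
    (L : List (List ι)) (hL : ∀ c ∈ L, (c.map e).prod ∈ V) :
    (L.flatten.map e).prod ∈ Submonoid.closure V := by
  induction L with
  | nil => simp
  | cons c L ih =>
    rw [List.flatten_cons, List.map_append, List.prod_append]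
    exact mul_mem (Submonoid.subset_closure (hL c (by simp)))
      (ih fun d hd => hL d (List.mem_cons_of_mem _ hd))

theorem Graph_step {W ι H : Type*} [Monoid H] (E : W → ι → W → Prop) (e : ι → H) (X : Set W)
    (u : W)
    (h : ∀ (F : Set (List ι)), F.Finite → (∀ l ∈ F, Walk E Set.univ u u l) →
      (Submonoid.closure ((fun l : List ι => (l.map e).prod) '' F) : Set H).Finite)
    (ih : ∀ a b, (Graph_Val E e X a b).Finite) (a b : W) :
    (Graph_Val E e (insert u X) a b).Finite := by
  classical
  have hex : ∀ x : H, ∃ l : List ι, x ∈ Graph_Val E e X u u →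
      Walk E X u u l ∧ (l.map e).prod = x := by
    intro x
    by_cases hx : x ∈ Graph_Val E e X u u
    · obtain ⟨l, hl⟩ := hx
      exact ⟨l, fun _ => hl⟩
    · exact ⟨[], fun h' => absurd h' hx⟩
  choose f hf using hex
  have hF : (Submonoid.closure (Graph_Val E e X u u) : Set H).Finite := by
    have h1 := h (f '' Graph_Val E e X u u) ((ih u u).image f) (by
      rintro _ ⟨x, hx, rfl⟩
      exact Graph_mono (Set.subset_univ _) (hf x hx).1)
    have h2 : (fun l : List ι => (l.map e).prod) '' (f '' Graph_Val E e X u u) =
        Graph_Val E e X u u := by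
      rw [Set.image_image]
      ext x
      constructor
      · rintro ⟨y, hy, rfl⟩
        beta_reduce
        rw [(hf y hy).2]
        exact hy
      · intro hx
        exact ⟨x, hx, (hf x hx).2⟩
    rwa [h2] at h1
  refine ((ih a b).union (((ih a u).image2 (fun x y => x * y)
    (hF.image2 (fun x y => x * y) (ih u b))))).subset ?_
  rintro x ⟨l, hl, rfl⟩
  rcases Graph_decomp hl with h1 | ⟨l1, L, l2, w1, w2, w3, rfl⟩
  · exact Or.inl ⟨l, h1, rfl⟩
  · refine Or.inr ⟨(l1.map e).prod, ⟨l1, w1, rfl⟩, (L.flatten.map e).prod * (l2.map e).prod, ?_, ?_⟩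
    · refine ⟨(L.flatten.map e).prod, ?_, (l2.map e).prod, ⟨l2, w3, rfl⟩, rfl⟩
      exact Graph_flatten_mem e _ L fun c hc => ⟨c, w2 c hc, rfl⟩
    · simp only [List.map_append, List.prod_append]

/-- GRAPH LEMMA. Finite labelled graph (vertices `W`, edges `E a i b`), labels evaluated in a
monoid `H` by `e`. If for every vertex `u` and every finite set `F` of labels of closed walks at
`u` the submonoid generated by the values of `F` is finite, then the set of values of all walks
is finite.

Proof: for a finite set `X` of vertices show by induction on `X` (Finset induction) that the set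
`Val X a b = {values of walks a → b with inner vertices in X}` is finite for all `a b`.
`X = ∅`: walks of length at most one. `insert u X`: a walk `a → b` with inner vertices in `insert u X` is
either a walk with inner vertices in `X`, or a composition: (walk `a → u`, inner vertices in `X`),
(closed walks `u → u` with inner vertices in `X`, finitely many of them), (walk `u → b`, inner
vertices in `X`). The values of closed walks `u → u` inside `X` form a finite set
by induction; choose a finite set `F` of such walks having all these values; the product of the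
middle part is in the submonoid generated by the values of `F`, a finite set by hypothesis. -/
theorem graph_lemma {W ι H : Type*} [Finite W] [Finite ι] [Monoid H] (E : W → ι → W → Prop)
    (e : ι → H)
    (h : ∀ (u : W) (F : Set (List ι)), F.Finite → (∀ l ∈ F, Walk E Set.univ u u l) →
      (Submonoid.closure ((fun l : List ι => (l.map e).prod) '' F) : Set H).Finite) (a b : W) :
    {x : H | ∃ l, Walk E Set.univ a b l ∧ (l.map e).prod = x}.Finite := by
  classical
  have key : ∀ (X : Finset W) (a b : W), (Graph_Val E e (X : Set W) a b).Finite := by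
    intro X
    induction X using Finset.induction_on with
    | empty =>
      intro a b
      refine ((Set.finite_singleton (1 : H)).union (Set.finite_range e)).subset ?_
      rintro x ⟨l, hl, rfl⟩
      cases hl with
      | nil => exact Or.inl (by simp)
      | @single _ _ i hE => exact Or.inr ⟨i, by simp⟩
      | cons _ h2 _ => simp at h2
    | insert u X _ ih =>
      intro a b
      rw [Finset.coe_insert]
      exact Graph_step E e (X : Set W) u (h u) ih a b
  have : Fintype W := Fintype.ofFinite W
  have h1 := key Finset.univ a b
  rwa [Finset.coe_univ] at h1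

end Pool.Agent.H.MP_5fffd4_al
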