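import Pool.Agent.H.MP_7efe7b_al.Lift

set_option autoImplicit false

namespace Pool.Agent.H.MP_5fffd4_al

open Pool.Agent.H.MP_7efe7b_al

/-- The Grigorchuk group is infinite. Proof. For every `g` in the group there is an element of the
group of the form `pair h g` (`ev_lam` with `y = B`: `ev (lam B w) = pair (ev (jW B w)) (ev w)`, and
`exists_word`). Suppose the group is finite. Let `P` be the set of elements of the group of the form
`pair h g`. The map `pair h g ↦ g` from `P` onto the group shows
`P.ncard ≥ card`. But `P` is a proper subset, since `genA` is not of the form `pair h g`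
(`genA [false] = [true]`, `pair h g [false] = false :: h [] `, first letter kept; `pair_false`). -/
theorem grig_infinite : Infinite Grigorchuk := by
  by_contra hinf
  have hfin : Finite Grigorchuk := not_infinite_iff_finite.1 hinf
  have hex : ∀ g : Grigorchuk, ∃ (h : Equiv.Perm (List Bool)), pair h (g : Equiv.Perm (List Bool)) ∈
      Grigorchuk := by
    intro g
    obtain ⟨w, hw⟩ := exists_word g.2
    refine ⟨ev (jW Gen.B w), ?_⟩
    rw [← hw, ← ev_lam (Or.inl rfl)]
    exact ev_mem _
  choose h hh using hex
  let L : Grigorchuk → Grigorchuk := fun g => ⟨pair (h g) g, hh g⟩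
  have hinj : Function.Injective L := by
    intro g g' e
    have e' : pair (h g) g = pair (h g') g' := congrArg Subtype.val e
    exact Subtype.ext (pair_inj e').2
  have hsurj : Function.Surjective L := Finite.injective_iff_surjective.1 hinj
  obtain ⟨g, hg⟩ := hsurj ⟨genA, val_mem Gen.A⟩
  have e : pair (h g) g = genA := congrArg Subtype.val hg
  have e1 := congrArg (fun f : Equiv.Perm (List Bool) => (f [false]).head?) e
  simp only [pair_false, List.head?_cons] at e1
  have e2 : genA [false] = [true] := rfl
  rw [e2] at e1
  simp at e1

end Pool.Agent.H.MP_5fffd4_al
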