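import Pool.Agent.H.MP_7efe7b_al.Lift

set_option autoImplicit false

namespace Pool.Agent.H.MP_5fffd4_al

open Pool.Agent.H.MP_7efe7b_al
open Gen

/-! ### Torsion of the Grigorchuk group

We use the weights `3, 4, 3, 2` of `a, b, c, d`. Every element is conjugate to an element of the Klein
four group `{1, b, c, d}` or to a product of syllables `a x` with `x` in the Klein four group, of
no greater weight; the coordinates of a product of `l` syllables have total weight at most the weight of
the product minus `l`. -/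

/-- weights of the generators -/
def gtW : Gen → ℕ
  | A => 3
  | B => 4
  | C => 3
  | D => 2

/-- weight of a word -/
def gtWt (w : List Gen) : ℕ := (w.map gtW).sum

@[simp] theorem gtWt_nil : gtWt [] = 0 := rfl
@[simp] theorem gtWt_cons (x : Gen) (w : List Gen) : gtWt (x :: w) = gtW x + gtWt w := by
  simp [gtWt]
@[simp] theorem gtWt_append (v w : List Gen) : gtWt (v ++ w) = gtWt v + gtWt w := by
  simp [gtWt]

/-- elements represented by words of weight at most `n` -/
def GtH (g : Equiv.Perm (List Bool)) (n : ℕ) : Prop := ∃ w, ev w = g ∧ gtWt w ≤ n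

theorem GtH.mul {g h : Equiv.Perm (List Bool)} {m n : ℕ} (hg : GtH g m) (hh : GtH h n) :
    GtH (g * h) (m + n) := by
  obtain ⟨v, rfl, hv⟩ := hg
  obtain ⟨w, rfl, hw⟩ := hh
  exact ⟨v ++ w, by simp, by simp; omega⟩

/-- the elements of the Klein four group; the letter `A` stands for the identity -/
def gtV : Gen → Equiv.Perm (List Bool)
  | A => 1
  | B => genB
  | C => genC
  | D => genD

/-- their weights -/
def gtVW : Gen → ℕ
  | A => 0
  | B => 4
  | C => 3
  | D => 2

/-- the multiplication of the Klein four group -/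
def gtM : Gen → Gen → Gen
  | A, x => x
  | x, A => x
  | B, B => A
  | B, C => D
  | B, D => C
  | C, B => D
  | C, C => A
  | C, D => B
  | D, B => C
  | D, C => B
  | D, D => A

theorem gtV_mul (x y : Gen) : gtV x * gtV y = gtV (gtM x y) := by
  cases x <;> cases y <;> simp [gtV, gtM, bb, cc, dd, bc, cd, db, cb, dc, bd]

theorem gtVW_le (x y : Gen) : gtVW (gtM x y) ≤ gtVW x + gtVW y := by
  cases x <;> cases y <;> simp [gtVW, gtM]

/-- product of syllables -/
def gtS (s : List Gen) : Equiv.Perm (List Bool) := (s.map fun x => genA * gtV x).prod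

/-- weight of a product of syllables -/
def gtSW (s : List Gen) : ℕ := (s.map fun x => 3 + gtVW x).sum

@[simp] theorem gtS_nil : gtS [] = 1 := rfl
@[simp] theorem gtS_cons (x : Gen) (s : List Gen) : gtS (x :: s) = genA * gtV x * gtS s := by
  simp [gtS]
@[simp] theorem gtS_append (s t : List Gen) : gtS (s ++ t) = gtS s * gtS t := by
  simp [gtS]
@[simp] theorem gtSW_nil : gtSW [] = 0 := rfl
@[simp] theorem gtSW_cons (x : Gen) (s : List Gen) : gtSW (x :: s) = 3 + gtVW x + gtSW s := by
  simp [gtSW]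
@[simp] theorem gtSW_append (s t : List Gen) : gtSW (s ++ t) = gtSW s + gtSW t := by
  simp [gtSW]

theorem gt_form (w : List Gen) :
    ∃ (x : Gen) (s : List Gen), ev w = gtV x * gtS s ∧ gtVW x + gtSW s ≤ gtWt w := by
  induction w with
  | nil => exact ⟨A, [], by simp [gtV], by simp [gtVW]⟩
  | cons y w ih =>
    obtain ⟨x, s, h1, h2⟩ := ih
    have hA : ev (A :: w) = gtV A * gtS (x :: s) := by
      simp [gtV, val, h1, mul_assoc]
    by_cases hy : y = A
    · subst hy
      refine ⟨A, x :: s, hA, ?_⟩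
      have e1 : gtVW A = 0 := rfl
      have e2 : gtW A = 3 := rfl
      rw [gtSW_cons, gtWt_cons, e1, e2]
      omega
    · have hv : val y = gtV y := by
        cases y
        · exact absurd rfl hy
        · rfl
        · rfl
        · rfl
      have hw : gtW y = gtVW y := by
        cases y
        · exact absurd rfl hy
        · rfl
        · rfl
        · rfl
      refine ⟨gtM y x, s, ?_, ?_⟩
      · rw [ev_cons, h1, hv, ← mul_assoc, gtV_mul]
      · have := gtVW_le y x
        rw [gtWt_cons, hw]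
        omega

/-- the conjugate normal form -/
theorem gt_conj (w : List Gen) :
    ∃ k : Equiv.Perm (List Bool), (∃ x, k * ev w * k⁻¹ = gtV x) ∨
      ∃ s, s ≠ [] ∧ k * ev w * k⁻¹ = gtS s ∧ gtSW s ≤ gtWt w := by
  obtain ⟨x, s, h1, h2⟩ := gt_form w
  rcases List.eq_nil_or_concat s with rfl | ⟨t, y, rfl⟩
  · exact ⟨1, Or.inl ⟨x, by simp [h1]⟩⟩
  · refine ⟨(gtV x)⁻¹, Or.inr ⟨t ++ [gtM y x], by simp, ?_, ?_⟩⟩
    · have h3 : (gtV x)⁻¹ * ev w * (gtV x)⁻¹⁻¹ = gtS (t.concat y) * gtV x := by
        rw [h1]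
        group
      rw [h3]
      simp only [List.concat_eq_append, gtS_append, gtS_cons, gtS_nil, mul_one, mul_assoc, gtV_mul]
    · have := gtVW_le y x
      simp only [List.concat_eq_append, gtSW_append, gtSW_cons, gtSW_nil] at h2 ⊢
      omega

/-- the coordinates of the elements of the Klein four group -/
theorem gt_coord (x : Gen) : ∃ p q m n, gtV x = pair p q ∧ GtH p m ∧ GtH q n ∧
    m + n ≤ 2 + gtVW x := by
  cases x
  · exact ⟨1, 1, 0, 0, pair_one.symm, ⟨[], rfl, le_rfl⟩, ⟨[], rfl, le_rfl⟩, by simp⟩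
  · exact ⟨genA, genC, 3, 3, genB_eq, ⟨[A], by simp [val], by simp [gtW]⟩,
      ⟨[C], by simp [val], by simp [gtW]⟩, by simp [gtVW]⟩
  · exact ⟨genA, genD, 3, 2, genC_eq, ⟨[A], by simp [val], by simp [gtW]⟩,
      ⟨[D], by simp [val], by simp [gtW]⟩, by simp [gtVW]⟩
  · exact ⟨1, genB, 0, 4, genD_eq, ⟨[], rfl, le_rfl⟩,
      ⟨[B], by simp [val], by simp [gtW]⟩, by simp [gtVW]⟩

/-- the coordinates of a product of syllables -/
theorem gt_split (s : List Gen) : ∃ g h m n, (gtS s = pair g h ∨ gtS s = pair g h * genA) ∧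
    GtH g m ∧ GtH h n ∧ m + n + s.length ≤ gtSW s := by
  induction s with
  | nil => exact ⟨1, 1, 0, 0, Or.inl pair_one.symm, ⟨[], rfl, le_rfl⟩, ⟨[], rfl, le_rfl⟩, by simp⟩
  | cons x s ih =>
    obtain ⟨g, h, m, n, h1, h2, h3, h4⟩ := ih
    obtain ⟨p, q, i, j, h5, h6, h7, h8⟩ := gt_coord x
    refine ⟨q * h, p * g, j + n, i + m, ?_, h7.mul h3, h6.mul h2, ?_⟩
    · rw [gtS_cons, h5]
      rcases h1 with h1 | h1
      · right
        rw [h1, mul_assoc, pair_mul, a_pair]
      · left
        rw [h1]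
        have : genA * pair p q * (pair g h * genA) = genA * (pair p q * pair g h) * genA := by
          simp only [mul_assoc]
        rw [this, pair_mul, a_pair_a]
    · rw [gtSW_cons, List.length_cons]
      omega

theorem gt_pair_pow (p q : Equiv.Perm (List Bool)) (n : ℕ) :
    (pair p q) ^ n = pair (p ^ n) (q ^ n) := by
  induction n with
  | zero => simp [pair_one]
  | succ n ih => rw [pow_succ, ih, pair_mul, ← pow_succ, ← pow_succ]

theorem gt_pair_fin {p q : Equiv.Perm (List Bool)} (hp : IsOfFinOrder p) (hq : IsOfFinOrder q) :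
    IsOfFinOrder (pair p q) := by
  rw [isOfFinOrder_iff_pow_eq_one] at hp hq ⊢
  obtain ⟨m, hm, hm'⟩ := hp
  obtain ⟨n, hn, hn'⟩ := hq
  refine ⟨m * n, Nat.mul_pos hm hn, ?_⟩
  rw [gt_pair_pow, pow_mul, hm', one_pow, mul_comm, pow_mul, hn', one_pow, pair_one]

theorem gtV_fin (x : Gen) : IsOfFinOrder (gtV x) := by
  rw [isOfFinOrder_iff_pow_eq_one]
  refine ⟨2, by norm_num, ?_⟩
  rw [pow_two, gtV_mul]
  cases x <;> rfl

theorem gt_conj_fin {k g : Equiv.Perm (List Bool)} (h : IsOfFinOrder (k * g * k⁻¹)) :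
    IsOfFinOrder g := by
  rw [isOfFinOrder_iff_pow_eq_one] at h ⊢
  obtain ⟨m, hm, hm'⟩ := h
  refine ⟨m, hm, ?_⟩
  rw [conj_pow] at hm'
  have h2 : k * g ^ m = k := by
    rw [← mul_one k] at hm'
    have := mul_inv_eq_one.1 hm'
    simpa using this
  exact mul_eq_left.1 h2

theorem gt_main (n : ℕ) : ∀ w : List Gen, gtWt w = n → IsOfFinOrder (ev w) := by
  induction n using Nat.strong_induction_on with
  | _ n ih =>
    intro w hw
    have ih' : ∀ (g : Equiv.Perm (List Bool)) (m : ℕ), m < n → GtH g m → IsOfFinOrder g := by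
      rintro g m hm ⟨v, rfl, hv⟩
      exact ih _ (lt_of_le_of_lt hv hm) v rfl
    obtain ⟨k, ⟨x, hx⟩ | ⟨s, hs, h1, h2⟩⟩ := gt_conj w
    · refine gt_conj_fin (k := k) ?_
      rw [hx]
      exact gtV_fin x
    · refine gt_conj_fin (k := k) ?_
      rw [h1]
      have hlen : 0 < s.length := List.length_pos_iff.2 hs
      obtain ⟨g, h, m, l, h3, h4, h5, h6⟩ := gt_split s
      rcases h3 with h3 | h3
      · rw [h3]
        exact gt_pair_fin (ih' g m (by omega) h4) (ih' h l (by omega) h5)
      · have h7 : gtS s ^ 2 = pair (g * h) (h * g) := by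
          rw [h3, pow_two]
          have : pair g h * genA * (pair g h * genA) = pair g h * (genA * pair g h * genA) := by
            simp only [mul_assoc]
          rw [this, a_pair_a, pair_mul]
        have h8 : IsOfFinOrder (gtS s ^ 2) := by
          rw [h7]
          exact gt_pair_fin (ih' _ (m + l) (by omega) (h4.mul h5))
            (ih' _ (l + m) (by omega) (h5.mul h4))
        rw [isOfFinOrder_iff_pow_eq_one] at h8 ⊢
        obtain ⟨i, hi, hi'⟩ := h8
        exact ⟨2 * i, by omega, by rw [pow_mul]; exact hi'⟩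

/-- Every element of the Grigorchuk group has finite order (Grigorchuk 1980; classical). -/
theorem grig_torsion (g : Equiv.Perm (List Bool)) (hg : g ∈ Grigorchuk) : IsOfFinOrder g := by
  obtain ⟨w, rfl⟩ := exists_word hg
  exact gt_main _ w rfl

end Pool.Agent.H.MP_5fffd4_al
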