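import Pool.Agent.H.MP_5fffd4_al.Defs

set_option autoImplicit false

namespace Pool.Agent.H.MP_5fffd4_al

variable {G : Type*} [Group G]

/-- conjugating by an element of `Y` does not change the index of `H ∩ Y` in `Y`
(use `Subgroup.relIndex_pointwise_smul` or transport along the inner automorphism). -/
theorem relIndex_cj {p : G} {H Y : Subgroup G} (hp : p ∈ Y) :
    (cj p H).relIndex Y = H.relIndex Y := by
  conv_lhs => rw [← cj_self hp]
  unfold cj
  exact Subgroup.relIndex_map_map_of_injective H Y (MulAut.conj p).injective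

/-- A finite family of subgroups: there is a finite index subgroup `Y0` of `Y`, normalised by `Y`,
contained in every member of the family whose intersection with `Y` has finite index in `Y`.

Proof: `Y1 = Y ⊓ ⨅ K` (over the `K ∈ F` of finite relative index) has finite relative index; take
for `Y0` the image in `G` of the normal core of `Y1.subgroupOf Y` in `Y`. -/
theorem finite_core (Y : Subgroup G) (F : Set (Subgroup G)) (hF : F.Finite) :
    ∃ Y0 ≤ Y, Y0.relIndex Y ≠ 0 ∧ Nrm Y Y0 ∧ ∀ K ∈ F, K.relIndex Y ≠ 0 → Y0 ≤ K := by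
  classical
  set F' : Set (Subgroup G) := {K | K ∈ F ∧ K.relIndex Y ≠ 0} with hF'
  have hfin : F'.Finite := hF.subset fun K hK => hK.1
  haveI : Finite F' := hfin
  set Y1 : Subgroup G := ⨅ K : F', (K : Subgroup G) with hY1
  have h1 : Y1.relIndex Y ≠ 0 := Subgroup.relIndex_iInf_ne_zero fun K => K.2.2
  have h2 : (Y1.subgroupOf Y).index ≠ 0 := h1
  haveI : (Y1.subgroupOf Y).FiniteIndex := ⟨h2⟩
  set C : Subgroup Y := (Y1.subgroupOf Y).normalCore with hC
  haveI : C.Normal := Subgroup.normalCore_normal _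
  haveI : C.FiniteIndex := inferInstance
  have hCle : C ≤ Y1.subgroupOf Y := Subgroup.normalCore_le _
  refine ⟨C.map Y.subtype, ?_, ?_, ?_, ?_⟩
  · rintro _ ⟨y, -, rfl⟩
    exact y.2
  · have h3 : (C.map Y.subtype).subgroupOf Y = C := by
      rw [Subgroup.subgroupOf, Subgroup.comap_map_eq_self_of_injective Y.subtype_injective]
    rw [Subgroup.relIndex, h3]
    exact Subgroup.FiniteIndex.index_ne_zero
  · intro p hp
    ext z
    rw [mem_cj]
    constructor
    · rintro ⟨y, hy, hyz⟩
      have h4 := Subgroup.Normal.conj_mem ‹C.Normal› y hy ⟨p, hp⟩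
      refine ⟨_, h4, ?_⟩
      simp only [map_mul, map_inv, hyz]
      simp [mul_assoc]
    · rintro ⟨y, hy, rfl⟩
      have h4 := Subgroup.Normal.conj_mem ‹C.Normal› y hy ⟨p, hp⟩⁻¹
      refine ⟨_, h4, ?_⟩
      simp
  · intro K hK hK0
    rintro _ ⟨y, hy, rfl⟩
    have h5 : (y : G) ∈ Y1 := hCle hy
    rw [hY1, Subgroup.mem_iInf] at h5
    exact h5 ⟨K, hK, hK0⟩

/-- Schreier (`Subgroup.fg_of_index_ne_zero`), transported: a finite relative index subgroup of a
finitely generated subgroup is finitely generated. -/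
theorem fg_of_relIndex {Y Y0 : Subgroup G} (hY : Y.FG) (h : Y0 ≤ Y) (hi : Y0.relIndex Y ≠ 0) :
    Y0.FG := by
  haveI : Group.FG Y := (Group.fg_iff_subgroup_fg Y).2 hY
  haveI : (Y0.subgroupOf Y).FiniteIndex := ⟨hi⟩
  have h1 : Group.FG (Y0.subgroupOf Y) := Subgroup.fg_of_index_ne_zero _
  haveI := h1
  have h2 : Group.FG Y0 :=
    Group.fg_of_surjective (f := (Subgroup.subgroupOfEquivOfLe h).toMonoidHom)
      (Subgroup.subgroupOfEquivOfLe h).surjective
  exact (Group.fg_iff_subgroup_fg Y0).1 h2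

theorem infinite_of_relIndex {Y Y0 : Subgroup G} (hY : (Y : Set G).Infinite) (h : Y0 ≤ Y)
    (hi : Y0.relIndex Y ≠ 0) : (Y0 : Set G).Infinite := by
  intro hfin
  apply hY
  haveI : Finite Y0 := hfin
  haveI : (Y0.subgroupOf Y).FiniteIndex := ⟨hi⟩
  haveI : Finite (Y0.subgroupOf Y) :=
    Finite.of_equiv _ (Subgroup.subgroupOfEquivOfLe h).symm.toEquiv
  haveI : Finite (Y ⧸ Y0.subgroupOf Y) := Subgroup.finite_quotient_of_finiteIndex
  have h1 : Finite Y :=
    Finite.of_equiv _ (Subgroup.groupEquivQuotientProdSubgroup (s := Y0.subgroupOf Y)).symm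
  exact h1

/-- `relIndex` with two nested subgroups: if `Θ ≤ H ≤ Y`, `Θ` has infinite index in `Y` and `H`
has finite index in `Y` then `Θ` has infinite index in `H` (`Subgroup.relIndex_mul_relIndex`). -/
theorem relIndex_zero_of {Θ H Y : Subgroup G} (h1 : Θ ≤ H) (h2 : H ≤ Y)
    (h0 : Θ.relIndex Y = 0) (h3 : H.relIndex Y ≠ 0) : Θ.relIndex H = 0 := by
  have h := Subgroup.relIndex_mul_relIndex Θ H Y h1 h2
  rw [h0] at h
  rcases Nat.mul_eq_zero.1 h with h4 | h4
  · exact h4
  · exact absurd h4 h3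

/-- if `Y0 ≤ Y` has finite index in `Y` then `K ∩ Y0` has infinite index in `Y0` iff `K ∩ Y` has
infinite index in `Y` -/
theorem relIndex_zero_iff {K Y0 Y : Subgroup G} (h : Y0 ≤ Y) (hi : Y0.relIndex Y ≠ 0) :
    K.relIndex Y0 = 0 ↔ K.relIndex Y = 0 := by
  constructor
  · intro h0
    exact Subgroup.relIndex_eq_zero_of_le_right h h0
  · intro h0
    by_contra h1
    exact Subgroup.relIndex_ne_zero_trans h1 hi h0

end Pool.Agent.H.MP_5fffd4_al
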