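import Pool.Agent.H.MP_5fffd4_al.Defs

set_option autoImplicit false

namespace Pool.Agent.H.MP_5fffd4_al

/-- One step of reading a letter `σ` of the image word: the state is the unread rest of the
current block; in the state `[]` a new block `φ a` is started and `a` is recorded. -/
def IStep {T U : Type} (φ : U → List T) (r : List T) (σ : T) (o : List U) (r' : List T) : Prop :=
  (r = σ :: r' ∧ o = []) ∨ (r = [] ∧ ∃ a, φ a = σ :: r' ∧ o = [a])

/-- Reading a word. -/
inductive IRun {T U : Type} (φ : U → List T) : List T → List T → List U → List T → Prop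
  | nil (r : List T) : IRun φ r [] [] r
  | cons {r r1 r' : List T} {σ : T} {x : List T} {o y : List U} :
      IStep φ r σ o r1 → IRun φ r1 x y r' → IRun φ r (σ :: x) (o ++ y) r'

theorem InvHom_trans {T U : Type} {φ : U → List T} {r r1 r2 x x' : List T} {y y' : List U}
    (h : IRun φ r x y r1) (h' : IRun φ r1 x' y' r2) : IRun φ r (x ++ x') (y ++ y') r2 := by
  induction h with
  | nil r => exact h'
  | cons hs _ ih =>
    have h1 := IRun.cons hs (ih h')
    rwa [← List.append_assoc] at h1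

theorem InvHom_split {T U : Type} {φ : U → List T} {x' : List T} {r2 : List T} :
    ∀ (x r : List T) (y : List U), IRun φ r (x ++ x') y r2 →
      ∃ y1 y2 r1, y = y1 ++ y2 ∧ IRun φ r x y1 r1 ∧ IRun φ r1 x' y2 r2 := by
  intro x
  induction x with
  | nil =>
    intro r y h
    exact ⟨[], y, r, rfl, IRun.nil r, h⟩
  | cons σ x ih =>
    intro r y h
    rw [List.cons_append] at h
    cases h with
    | cons hs hr =>
      obtain ⟨y1, y2, r1, rfl, h1, h2⟩ := ih _ _ hr
      exact ⟨_, y2, r1, (List.append_assoc _ _ _).symm, IRun.cons hs h1, h2⟩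

/-- the states: suffixes of the blocks -/
def InvHomF {T U : Type} (φ : U → List T) : Set (List T) :=
  {[]} ∪ ⋃ a, {r | r ∈ (φ a).tails}

theorem InvHomF_finite {T U : Type} [Finite U] (φ : U → List T) : (InvHomF φ).Finite :=
  (Set.finite_singleton _).union (Set.finite_iUnion fun a => List.finite_toSet _)

theorem InvHomF_step {T U : Type} {φ : U → List T} {r r' : List T} {σ : T} {o : List U}
    (h : IStep φ r σ o r') (hr : r ∈ InvHomF φ) : r' ∈ InvHomF φ := by
  rcases h with ⟨h1, _⟩ | ⟨_, a, h1, _⟩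
  · rcases hr with h2 | h2
    · rw [Set.mem_singleton_iff, h1] at h2
      exact absurd h2 (List.cons_ne_nil _ _)
    · obtain ⟨a, ha⟩ := Set.mem_iUnion.1 h2
      refine Or.inr (Set.mem_iUnion.2 ⟨a, ?_⟩)
      have h3 : r <:+ φ a := (List.mem_tails _ _).1 ha
      rw [h1] at h3
      exact (List.mem_tails _ _).2 ((List.suffix_cons σ r').trans h3)
  · refine Or.inr (Set.mem_iUnion.2 ⟨a, (List.mem_tails _ _).2 ?_⟩)
    rw [h1]
    exact List.suffix_cons σ r'

theorem InvHomF_run {T U : Type} {φ : U → List T} {r r' x : List T} {y : List U}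
    (h : IRun φ r x y r') (hr : r ∈ InvHomF φ) : r' ∈ InvHomF φ := by
  induction h with
  | nil r => exact hr
  | cons hs _ ih => exact ih (InvHomF_step hs hr)

theorem InvHom_single {T U : Type} {φ : U → List T} {r r' : List T} {σ : T} {o : List U}
    (h : IStep φ r σ o r') : IRun φ r [σ] o r' := by
  have h1 := IRun.cons h (IRun.nil (φ := φ) r')
  rwa [List.append_nil] at h1

/-- the grammar of the inverse image -/
def InvHomG {T U : Type} (g : BG T) (φ : U → List T) : BG U where
  N := g.N × InvHomF φ × InvHomF φ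
  S := (g.S, ⟨[], Or.inl rfl⟩, ⟨[], Or.inl rfl⟩)
  bin X Y Z := g.bin X.1 Y.1 Z.1 ∧ Y.2.1 = X.2.1 ∧ Y.2.2 = Z.2.1 ∧ Z.2.2 = X.2.2
  term X a := ∃ σ, g.term X.1 σ ∧ IStep φ X.2.1.1 σ [a] X.2.2.1
  eps X := (g.eps X.1 ∧ X.2.1 = X.2.2) ∨ ∃ σ, g.term X.1 σ ∧ IStep φ X.2.1.1 σ [] X.2.2.1

theorem InvHom_fwd {T U : Type} {g : BG T} {φ : U → List T} {X : (InvHomG g φ).N} {y : List U}
    (h : Der (InvHomG g φ) X y) :
    ∃ x, Der g X.1 x ∧ IRun φ X.2.1.1 x y X.2.2.1 := by
  induction h with
  | term h =>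
    obtain ⟨σ, h1, h2⟩ := h
    exact ⟨[σ], Der.term h1, InvHom_single h2⟩
  | @eps A h =>
    rcases h with ⟨h1, h2⟩ | ⟨σ, h1, h2⟩
    · refine ⟨[], Der.eps h1, ?_⟩
      rw [h2]
      exact IRun.nil _
    · exact ⟨[σ], Der.term h1, InvHom_single h2⟩
  | bin h _ _ ih1 ih2 =>
    obtain ⟨h1, h2, h3, h4⟩ := h
    obtain ⟨x1, hx1, hr1⟩ := ih1
    obtain ⟨x2, hx2, hr2⟩ := ih2
    refine ⟨x1 ++ x2, Der.bin h1 hx1 hx2, ?_⟩
    rw [h2, h3] at hr1
    rw [h4] at hr2
    exact InvHom_trans hr1 hr2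

theorem InvHom_bwd {T U : Type} {g : BG T} {φ : U → List T} {A : g.N} {x : List T}
    (h : Der g A x) : ∀ (r r' : InvHomF φ) (y : List U), IRun φ r.1 x y r'.1 →
      Der (InvHomG g φ) ((A, r, r') : g.N × InvHomF φ × InvHomF φ) y := by
  induction h with
  | @term A σ h =>
    intro r r' y hr
    cases hr with
    | cons hs hr =>
      cases hr with
      | nil =>
        rw [List.append_nil]
        rcases id hs with ⟨_, ho⟩ | ⟨_, a, _, ho⟩
        · rw [ho] at hs ⊢
          exact Der.eps (Or.inr ⟨σ, h, hs⟩)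
        · rw [ho] at hs ⊢
          exact Der.term ⟨σ, h, hs⟩
  | @eps A h =>
    intro r r' y hr
    generalize hq : r'.1 = q at hr
    cases hr with
    | nil => exact Der.eps (Or.inl ⟨h, Subtype.ext hq.symm⟩)
  | @bin A B C u v h _ _ ih1 ih2 =>
    intro r r' y hr
    obtain ⟨y1, y2, r1, rfl, h1, h2⟩ := InvHom_split _ _ _ hr
    have hr1 : r1 ∈ InvHomF φ := InvHomF_run h1 r.2
    exact Der.bin (g := InvHomG g φ)
      (A := ((A, r, r') : g.N × InvHomF φ × InvHomF φ))
      (B := ((B, r, ⟨r1, hr1⟩) : g.N × InvHomF φ × InvHomF φ))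
      (C := ((C, ⟨r1, hr1⟩, r') : g.N × InvHomF φ × InvHomF φ))
      ⟨h, rfl, rfl, rfl⟩ (ih1 r ⟨r1, hr1⟩ y1 h1) (ih2 ⟨r1, hr1⟩ r' y2 h2)

theorem InvHom_inv {T U : Type} {φ : U → List T} {r r' x : List T} {y : List U}
    (h : IRun φ r x y r') : r ++ y.flatMap φ = x ++ r' := by
  induction h with
  | nil r => simp
  | cons hs _ ih =>
    rcases hs with ⟨h1, h2⟩ | ⟨h1, a, h2, h3⟩
    · rw [h1, h2, List.nil_append, List.cons_append, List.cons_append, ih]
    · rw [h1, h3, List.nil_append, List.flatMap_append, List.flatMap_singleton, h2,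
        List.cons_append, List.cons_append, ih]

theorem InvHom_read {T U : Type} {φ : U → List T} : ∀ t : List T, IRun φ t t [] []
  | [] => IRun.nil []
  | σ :: t => by
    have h1 : IStep φ (σ :: t) σ [] t := Or.inl ⟨rfl, rfl⟩
    exact IRun.cons h1 (InvHom_read t)

theorem InvHom_flat {T U : Type} {φ : U → List T} (hφ : ∀ a, φ a ≠ []) :
    ∀ y : List U, IRun φ [] (y.flatMap φ) y []
  | [] => IRun.nil []
  | a :: y => by
    obtain ⟨σ, t, ht⟩ := List.exists_cons_of_ne_nil (hφ a)
    have h1 : IStep φ [] σ [a] t := Or.inr ⟨rfl, a, ht, rfl⟩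
    have h2 : IRun φ [] (σ :: t) ([a] ++ []) [] := IRun.cons h1 (InvHom_read t)
    have h3 := InvHom_trans h2 (InvHom_flat hφ y)
    rw [← ht, List.append_nil] at h3
    exact h3

/-- Context-free languages are closed under inverse homomorphisms (non-erasing case), for the
grammars `BG`.

Proof. Let `F` be the finite set of all suffixes of the words `φ a` and `[]`. Nonterminals of `g'`:
triples `(A, r, r')`, `A : g.N`, `r, r' ∈ F`. Start `(S, [], [])`.
`bin (A,r,r') (B,p,p') (C,q,q')`: `g.bin A B C`, `p = r`, `p' = q`, `q' = r'`.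
`term (A,r,r') a`: there is `σ` with `g.term A σ` and `IStep φ r σ [a] r'`.
`eps (A,r,r')`: `g.eps A` and `r = r'`, or there is `σ` with `g.term A σ` and `IStep φ r σ [] r'`.
Claim: `Der g' (A,r,r') y ↔ ∃ x, Der g A x ∧ IRun φ r x y r'`. Forward by induction on `Der g'`
(runs compose), backward by induction on `Der g` (a run of `u ++ v` splits at a state of `F`: states
reached from `F` stay in `F`). Finally `IRun φ [] x y [] ↔ x = y.flatMap φ`: forward: the invariant
`IRun φ r x y r' → r ++ y.flatMap φ = x ++ r'`; backward: induction on `y`, using `φ a ≠ []`. -/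
theorem inv_hom {T U : Type} [Finite U] (g : BG T) (hN : Finite g.N) (φ : U → List T)
    (hφ : ∀ a, φ a ≠ []) :
    ∃ g' : BG U, Finite g'.N ∧ ∀ w : List U, Der g' g'.S w ↔ Der g g.S (w.flatMap φ) := by
  refine ⟨InvHomG g φ, ?_, fun w => ⟨fun h => ?_, fun h => ?_⟩⟩
  · have h1 : Finite (InvHomF φ) := (InvHomF_finite φ).to_subtype
    have h2 : Finite (g.N × InvHomF φ × InvHomF φ) := inferInstance
    exact h2
  · obtain ⟨x, hx, hr⟩ := InvHom_fwd h
    have h1 := InvHom_inv hr
    have h2 : w.flatMap φ = x := by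
      have h3 : ([] : List T) ++ w.flatMap φ = x ++ [] := h1
      rwa [List.nil_append, List.append_nil] at h3
    rw [h2]
    exact hx
  · exact InvHom_bwd h ⟨[], Or.inl rfl⟩ ⟨[], Or.inl rfl⟩ w (InvHom_flat hφ w)

end Pool.Agent.H.MP_5fffd4_al
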