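import Pool.Agent.H.MP_5fffd4_al.Loc

set_option autoImplicit false

namespace Pool.Agent.H.MP_5fffd4_al

variable {T : Type}

theorem locA_len {n : ℕ} (L : List (List T)) (h : ∀ z ∈ L, n ≤ z.length) :
    L.length * n ≤ L.flatten.length := by
  induction L with
  | nil => simp
  | cons a L ih =>
    rw [List.flatten_cons, List.length_append, List.length_cons, Nat.succ_mul]
    have h1 := h a List.mem_cons_self
    have h2 := ih fun z hz => h z (List.mem_cons_of_mem _ hz)
    omega

theorem locA_star {V : Set (List T)} (L : List (List T)) (h : ∀ z ∈ L, Star V z) :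
    Star V L.flatten := by
  have h1 : Star {z | z ∈ L} L.flatten := ⟨L, fun _ hv => hv, rfl⟩
  exact h1.mono h

/-- Two blocks in a window, and what follows. Proof: `loc` for `z`, `b = b1 ++ b2`. `Star V (a ++ s1)`
as `L1.flatten` and the `zs` are in `V*`. For the last claim: `s2 ++ b1` is a initial segment of
`(zs.drop (q+2)).flatten ++ t ++ L2.flatten`. If `L2 = []` this is a initial segment of `rest zs q t`. If
`L2 = (zs.flatten ++ t') :: L3` then `rest zs q t` is a initial segment of it, and
`(s2 ++ b1).length ≤ (z ++ b1).length ≤ (zs.length - 2) * n ≤ (rest zs q t).length`, so `s2 ++ b1` is a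
initial segment of `rest zs q t`. -/
theorem two_blocks_after {V : Set (List T)} {zs : List (List T)} {c1 n : ℕ}
    (hz : ∀ z ∈ zs, Star V z ∧ n ≤ z.length ∧ z.length ≤ c1)
    (hv : ∀ v ∈ V, v.length ≤ c1) (hK : 4 ≤ zs.length) {w a z b1 b2 : List T}
    (hw : Star (blk zs.flatten V) w) (h : w = a ++ z ++ (b1 ++ b2))
    (hl : 6 * c1 + 1 ≤ z.length) (hs : (z ++ b1).length ≤ (zs.length - 2) * n) :
    ∃ (q : ℕ) (s1 s2 t e : List T), q + 1 < zs.length ∧ (t ∈ V ∨ t = []) ∧
      z = s1 ++ zs.getD q [] ++ zs.getD (q + 1) [] ++ s2 ∧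
      Star V (a ++ s1) ∧ Star V (a ++ s1 ++ zs.getD q []) ∧
      rest zs q t = s2 ++ b1 ++ e := by
  obtain ⟨q, s1, s2, t, L1, L2, hq, h1, h2, h3, ht, hL1, hL2⟩ :=
    loc (fun z hz' => (hz z hz').2.2) hv hK hw h hl
  have hU : Star V zs.flatten := locA_star zs fun z hz' => (hz z hz').1
  have hs1 : Star V (a ++ s1) := by
    rw [h2]
    refine Star.append (locA_star L1 fun x hx => blk_star hU x (hL1 x hx)) ?_
    exact locA_star _ fun x hx => (hz x (List.mem_of_mem_take hx)).1
  have hgq : Star V (zs.getD q []) := by
    rw [List.getD_eq_getElem _ _ (by omega : q < zs.length)]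
    exact (hz _ (List.getElem_mem _)).1
  have hpre : (s2 ++ b1) <+: rest zs q t := by
    rcases L2 with _ | ⟨x, L3⟩
    · rw [List.flatten_nil, List.append_nil, ← List.append_assoc] at h3
      refine ⟨b2 ++ (zs.take q).flatten, ?_⟩
      unfold rest
      rw [← h3]
      simp only [List.append_assoc]
    · obtain ⟨t', -, hx⟩ := hL2 x List.mem_cons_self
      have h4 : (s2 ++ b1) <+: (zs.drop (q + 2)).flatten ++ t ++ (x :: L3).flatten := by
        rw [← h3]
        exact ⟨b2, by simp only [List.append_assoc]⟩
      have h5 : rest zs q t <+: (zs.drop (q + 2)).flatten ++ t ++ (x :: L3).flatten := by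
        have h6 : zs.flatten = (zs.take q).flatten ++ (zs.drop q).flatten := by
          rw [← List.flatten_append, List.take_append_drop]
        refine ⟨(zs.drop q).flatten ++ t' ++ L3.flatten, ?_⟩
        unfold rest
        rw [List.flatten_cons, hx, h6]
        simp only [List.append_assoc]
      refine List.prefix_of_prefix_length_le h4 h5 ?_
      have h7 : (s2 ++ b1).length ≤ (z ++ b1).length := by
        rw [h1]
        simp only [List.length_append]
        omega
      refine h7.trans (hs.trans ?_)
      unfold rest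
      have h8 := locA_len (n := n) (zs.drop (q + 2)) fun y hy => (hz y (List.mem_of_mem_drop hy)).2.1
      have h9 := locA_len (n := n) (zs.take q) fun y hy => (hz y (List.mem_of_mem_take hy)).2.1
      rw [List.length_drop] at h8
      rw [List.length_take, min_eq_left (by omega : q ≤ zs.length)] at h9
      have h10 : (zs.length - 2) * n = (zs.length - (q + 2)) * n + q * n := by
        rw [← Nat.add_mul]
        congr 1
        omega
      rw [h10]
      simp only [List.length_append]
      omega
  obtain ⟨e, he⟩ := hpre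
  refine ⟨q, s1, s2, t, e, hq, ht, h1, hs1, hs1.append hgq, he.symm⟩

end Pool.Agent.H.MP_5fffd4_al
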