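import Pool.Agent.H.MP_5fffd4_al.SplitL
import Pool.Agent.H.MP_5fffd4_al.Bad
import Pool.Agent.H.MP_5fffd4_al.LocA

set_option autoImplicit false

namespace Pool.Agent.H.MP_5fffd4_al

universe u

variable {T : Type} {G : Type u} [Group G] {g : BG T} {f : T → G}

theorem Left_flatten_le {T : Type} {C : ℕ} (L : List (List T)) (h : ∀ z ∈ L, z.length ≤ C) :
    L.flatten.length ≤ C * L.length := by
  induction L with
  | nil => simp
  | cons a L ih =>
    rw [List.flatten_cons, List.length_append, List.length_cons, Nat.mul_succ]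
    have h1 := h a (by simp)
    have h2 := ih (fun z hz => h z (by simp [hz]))
    omega

theorem Left_star_flatten {T : Type} {V : Set (List T)} (L : List (List T))
    (h : ∀ z ∈ L, Star V z) : Star V L.flatten := by
  induction L with
  | nil => exact Star.nil V
  | cons a L ih =>
    rw [List.flatten_cons]
    exact (h a (by simp)).append (ih fun z hz => h z (by simp [hz]))

theorem Left_rest_le {T : Type} {C c : ℕ} {zs : List (List T)} (h : ∀ z ∈ zs, z.length ≤ C)
    {q : ℕ} {t : List T} (ht : t.length ≤ c) : (rest zs q t).length ≤ C * zs.length + c := by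
  unfold rest
  rw [List.length_append, List.length_append]
  have h1 := Left_flatten_le (zs.drop (q + 2)) (fun z hz => h z (List.mem_of_mem_drop hz))
  have h2 := Left_flatten_le (zs.take q) (fun z hz => h z (List.mem_of_mem_take hz))
  rw [List.length_drop] at h1
  rw [List.length_take] at h2
  have h3 : C * (zs.length - (q + 2)) + C * min q zs.length ≤ C * zs.length := by
    rw [← Nat.mul_add]
    exact Nat.mul_le_mul_left _ (by omega)
  omega

theorem Left_aux (hs : Setup g f) {P Q : Set g.N} (hQ : Cls g P Q) {V : Set (List T)}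
    {Θ : Subgroup G} {A D : g.N} (hA : A ∈ Q) (hD : D ∈ Q) {x0 m y0 p s : G}
    (hm : Mor g f A D m y0) (h1 : cj x0 (Lg g f A) ⊓ Gam f V ≤ Θ)
    (h2 : Nrm (Gam f V) (cj x0 (Lg g f A))) (hp : p ∈ Gam f V) (he : p = x0 * m * s) :
    cj s⁻¹ (Lg g f D) ⊓ Gam f V ≤ Θ := by
  have h0 : cj x0 (Lg g f A) = cj (x0 * m) (Lg g f D) := by
    rw [← cj_Lg hs (hQ.eqv A hA D hD) hm, cj_cj]
  have e1 : cj s⁻¹ (Lg g f D) = cj x0 (Lg g f A) := by
    have h3 := h2 p⁻¹ ((Gam f V).inv_mem hp)
    rw [h0, cj_cj] at h3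
    rw [h0, ← h3]
    congr 1
    rw [he]
    group
  rw [e1]
  exact h1

/-- No long left part for a good tuple. -/
theorem no_left (hs : Setup g f) {P Q : Set g.N} (hQ : Cls g P Q) (hlin : Lin g Q)
    {V : Set (List T)} (hV : Good f V) {l l2 c n : ℕ} (hc : ∀ v ∈ V, v.length ≤ c)
    {Θ : Subgroup G} (hΘ : Quo f V Θ) (h3 : S3 g f V Q l2 Θ) {zs : List (List T)}
    (hn : 1 ≤ n) (hz : ∀ z ∈ zs, Star V z ∧ n ≤ z.length ∧ z.length ≤ 2 * n * c)
    (hK : 4 ≤ zs.length) (hg : GoodT g f Q V Θ l (2 * n * c * zs.length + c) zs)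
    {w : List T} (hw : Star (blk zs.flatten V) w) (hne : ev f w ≠ 1) {A B : g.N} (hA : A ∈ Q)
    (hB : B ∈ Q) {x u y x' u' y' : List T} (hn' : Node g w A x u y) (hl2 : l2 < u.length)
    (hctx : BCtx g P l A B x' y') (hd : Der g B u') (hu : u = x' ++ u' ++ y')
    (h6 : 6 * (2 * n * c) + 1 ≤ x'.length) (hlen : u.length ≤ (zs.length - 2) * n) : False := by
  have hcc : c ≤ 2 * n * c := by nlinarith
  obtain ⟨q, s1, s2, t, e, hq, ht, hx', hst1, hst2, hrest⟩ :=
    two_blocks_after (c1 := 2 * n * c) (n := n) hz (fun v hv => (hc v hv).trans hcc) hK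
      (a := x) (z := x') (b1 := u' ++ y') (b2 := y) hw
      (by rw [hn'.eq, hu]; simp [List.append_assoc]) h6
      (by rw [← List.append_assoc, ← hu]; exact hlen)
  set zq := zs.getD q [] with hzq
  set zq' := zs.getD (q + 1) [] with hzq'
  obtain ⟨Ca, hCa, x1, x2, y1, y2, sa, c1, c2, e1, e2, e3, e4⟩ :=
    splitL hQ hlin hA hB hctx hd s1 (zq ++ zq' ++ s2) (by rw [hx']; simp [List.append_assoc])
  have hx2 : x2 = (sa ++ zq) ++ (zq' ++ s2) := by
    have h : x1 ++ x2 = x1 ++ ((sa ++ zq) ++ (zq' ++ s2)) := by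
      rw [← e1, hx', e3]
      simp [List.append_assoc]
    exact List.append_cancel_left h
  obtain ⟨Cb, hCb, x3, x4, y3, y4, sb, c3, c4, f1, f2, f3, f4⟩ :=
    splitL hQ hlin hCa hB c2 hd (sa ++ zq) (zq' ++ s2) hx2
  have hx4 : x4 = (sb ++ zq') ++ s2 := by
    have h : x3 ++ x4 = x3 ++ ((sb ++ zq') ++ s2) := by
      rw [← f1, hx2, f3]
      simp [List.append_assoc]
    exact List.append_cancel_left h
  obtain ⟨Cc, hCc, x5, x6, y5, y6, sc, c5, c6, g1, g2, g3, g4⟩ :=
    splitL hQ hlin hCb hB c4 hd (sb ++ zq') s2 hx4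
  have hr1 : rest zs q t = (s2 ++ u' ++ y6) ++ y5 ++ (y3 ++ y1 ++ e) := by
    rw [hrest, e2, f2, g2]
    simp [List.append_assoc]
  have hr2 : rest zs q t = (s2 ++ u' ++ y6 ++ y5) ++ y3 ++ (y1 ++ e) := by
    rw [hrest, e2, f2, g2]
    simp [List.append_assoc]
  have hb1 := subw_of_eq hr1
  have hb2 := subw_of_eq hr2
  have hlj : (s2 ++ u' ++ y6 ++ y5).length = (s2 ++ u' ++ y6).length + y5.length :=
    List.length_append
  rw [hlj] at hb2
  have hrl : (rest zs q t).length ≤ 2 * n * c * zs.length + c := by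
    refine Left_rest_le (fun z hz' => (hz z hz').2.2) ?_
    rcases ht with ht | ht
    · exact hc t ht
    · rw [ht]
      exact Nat.zero_le _
  have hk : (s2 ++ u' ++ y6).length + y5.length + y3.length ≤ 2 * n * c * zs.length + c := by
    refine le_trans ?_ hrl
    rw [hr2]
    simp only [List.length_append]
    omega
  have hk1 : (s2 ++ u' ++ y6).length ≤ 2 * n * c * zs.length + c := by omega
  have hk2 : (s2 ++ u' ++ y6).length + y5.length ≤ 2 * n * c * zs.length + c := by omega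
  have hwV : Star V w := hw.mono (blk_star (Left_star_flatten zs fun z hz' => (hz z hz').1))
  obtain ⟨-, i1, -, i2⟩ := h3 w hwV hne A hA x u y hn' hl2
  have m1 : Mor g f A Ca (ev f x1) (ev f y1) := mor_of_ctx c1.ctx
  have m3 : Mor g f Ca Cb (ev f x3) (ev f y3) := mor_of_ctx c3.ctx
  have m5 : Mor g f Cb Cc (ev f x5) (ev f y5) := mor_of_ctx c5.ctx
  have v3 : ev f sa * ev f zq = ev f x3 * ev f sb := by
    rw [← ev_append, ← ev_append, f3]
  have v5 : ev f sb * ev f zq' = ev f x5 * ev f sc := by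
    rw [← ev_append, ← ev_append, g3]
  refine (hg q hq t ht _ _ _ hk1 hk2 hk Ca Cb Cc
    sa sb sc e4 f4 g4).1 ⟨?_, ?_, ⟨hCa, hCb, ?_⟩, ⟨hCb, hCc, ?_⟩⟩
  · refine Left_aux hs hQ hA hCa m1 i1 i2 (ev_mem_Gam hst1) ?_
    rw [e3, ev_append, ev_append, mul_assoc]
  · refine Left_aux hs hQ hA hCb (mor_comp m1 m3) i1 i2 (ev_mem_Gam hst2) ?_
    have k1 : ev f (x ++ s1 ++ zq) = ev f x * ev f x1 * (ev f sa * ev f zq) := by
      rw [ev_append, ev_append, e3, ev_append]
      group
    rw [k1, v3]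
    group
  · rw [hb2, v3, mul_inv_cancel_right]
    exact m3
  · rw [hb1, v5, mul_inv_cancel_right]
    exact m5

end Pool.Agent.H.MP_5fffd4_al
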