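import Pool.Agent.H.MP_5fffd4_al.LocDef

set_option autoImplicit false

namespace Pool.Agent.H.MP_5fffd4_al

variable {T : Type}

theorem Loc_take (zs : List (List T)) (q : ℕ) :
    (zs.take (q + 1)).flatten = (zs.take q).flatten ++ zs.getD q [] := by
  rw [List.take_add_one, List.flatten_append]
  congr 1
  cases h : zs[q]? <;> simp [List.getD, h]

theorem Loc_drop (zs : List (List T)) {q : ℕ} (hq : q < zs.length) :
    (zs.drop q).flatten = zs.getD q [] ++ (zs.drop (q + 1)).flatten := by
  rw [List.drop_eq_getElem_cons hq, List.flatten_cons, List.getD_eq_getElem _ _ hq]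

theorem Loc_getD {zs : List (List T)} {c1 : ℕ} (hz : ∀ z ∈ zs, z.length ≤ c1) {q : ℕ}
    (hq : q < zs.length) : (zs.getD q []).length ≤ c1 := by
  rw [List.getD_eq_getElem _ _ hq]
  exact hz _ (List.getElem_mem hq)

theorem Loc_pre {x y z b : List T} (h : x ++ y = z ++ b) (hl : x.length ≤ z.length) :
    ∃ s, z = x ++ s ∧ y = s ++ b := by
  rcases List.append_eq_append_iff.1 h with ⟨a', h1, h2⟩ | ⟨c', h1, h2⟩
  · exact ⟨a', h1, h2⟩
  · have h3 : c' = [] := by
      have h4 := congrArg List.length h1
      rw [List.length_append] at h4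
      exact List.eq_nil_of_length_eq_zero (by omega)
    subst h3
    rw [List.append_nil] at h1
    rw [List.nil_append] at h2
    exact ⟨[], by rw [List.append_nil, h1], by rw [List.nil_append, h2]⟩

theorem Loc_two (zs : List (List T)) {q : ℕ} (hq : q + 1 < zs.length) :
    (zs.drop q).flatten = zs.getD q [] ++ zs.getD (q + 1) [] ++ (zs.drop (q + 2)).flatten := by
  rw [Loc_drop zs (by omega : q < zs.length), Loc_drop zs hq, List.append_assoc]

/-- Location of two consecutive blocks in a window.

Proof. `w = L.flatten` with `L` a list of elements of `blk zs.flatten V`. `list_prefix`-like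
decomposition for the prefix `a`: `L = L1 ++ L2`, `a = L1.flatten ++ o`, and (the window is long)
`L2 = (zs.flatten ++ t) :: L3` with `o` a prefix of `zs.flatten ++ t` (if `o = []` take the first element
of the rest, which exists since `z ≠ []`; `list_prefix` in Words.lean covers this).
Let `K = zs.length`.
Case 1: there is `q` with `q + 2 ≤ K` and `o.length ≤ (zs.take q).flatten.length`; take the least one.
Then `(zs.take q).flatten = o ++ s1` with `s1.length ≤ c1` (`s1 = []` if `q = 0`, otherwise
`o.length > (zs.take (q-1)).flatten.length`), and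
`o' = s1 ++ zs[q] ++ zs[q+1] ++ (zs.drop (q+2)).flatten ++ t`. As `z.length ≥ 6 c1 + 1`, `z` contains
`s1 ++ zs[q] ++ zs[q+1]`: `z = s1 ++ zs[q] ++ zs[q+1] ++ s2`,
`s2 ++ b = (zs.drop (q+2)).flatten ++ t ++ L3.flatten`.
Case 2: `o.length > (zs.take (K-2)).flatten.length`. Then `zs.flatten ++ t = o ++ o'` with
`o'.length ≤ 3 c1`, `z = o' ++ z'`, `z'.length ≥ 3 c1 + 1`; so `L3` is not empty,
`L3 = (zs.flatten ++ t') :: L4`, and `q = 0`, `s1 = o'`, `L1' = L1 ++ [zs.flatten ++ t]`:
`z' = zs[0] ++ zs[1] ++ s2`, `s2 ++ b = (zs.drop 2).flatten ++ t' ++ L4.flatten`. -/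
theorem loc {V : Set (List T)} {zs : List (List T)} {c1 : ℕ} (hz : ∀ z ∈ zs, z.length ≤ c1)
    (hv : ∀ v ∈ V, v.length ≤ c1) (hK : 4 ≤ zs.length) {w a z b : List T}
    (hw : Star (blk zs.flatten V) w) (h : w = a ++ z ++ b) (hl : 6 * c1 + 1 ≤ z.length) :
    ∃ (q : ℕ) (s1 s2 t : List T) (L1 L2 : List (List T)), q + 1 < zs.length ∧
      z = s1 ++ zs.getD q [] ++ zs.getD (q + 1) [] ++ s2 ∧
      a ++ s1 = L1.flatten ++ (zs.take q).flatten ∧
      s2 ++ b = (zs.drop (q + 2)).flatten ++ t ++ L2.flatten ∧ (t ∈ V ∨ t = []) ∧
      (∀ e ∈ L1, e ∈ blk zs.flatten V) ∧ ∀ e ∈ L2, e ∈ blk zs.flatten V := by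
  obtain ⟨L, hL, rfl⟩ := hw
  have hlen : ∀ e ∈ L, e.length ≤ zs.flatten.length + c1 := by
    intro e he
    obtain ⟨v, hv1, rfl⟩ := hL e he
    rw [List.length_append]
    rcases hv1 with hv1 | rfl
    · have := hv v hv1
      omega
    · simp
  rw [List.append_assoc] at h
  obtain ⟨L1, L2, o, o', e1, e2, e3, -, -, e6⟩ := list_prefix L hlen a (z ++ b) h
  have hL1 : ∀ v ∈ L1, v ∈ blk zs.flatten V := fun v hv => hL v (by
    rw [e1]; exact List.mem_append_left _ hv)
  have hL2 : ∀ v ∈ L2, v ∈ blk zs.flatten V := fun v hv => hL v (by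
    rw [e1]; exact List.mem_append_right _ hv)
  -- the first block which meets the window
  have key : ∃ (o' : List T) (L3 : List (List T)), L2 = (o ++ o') :: L3 := by
    rcases e6 with ⟨rfl, rfl⟩ | ⟨L3, e6⟩
    · cases hc : L2 with
      | nil =>
        exfalso
        rw [hc, List.flatten_nil, List.nil_append] at e3
        have h1 := congrArg List.length e3
        rw [List.length_nil, List.length_append] at h1
        omega
      | cons e L3 => exact ⟨e, L3, by rw [List.nil_append]⟩
    · exact ⟨o', L3, e6⟩
  clear e6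
  obtain ⟨o', L3, e6⟩ := key
  have hL3 : ∀ v ∈ L3, v ∈ blk zs.flatten V := fun v hv => hL2 v (by
    rw [e6]; exact List.mem_cons_of_mem _ hv)
  obtain ⟨t, ht, het⟩ := hL2 (o ++ o') (by rw [e6]; exact List.mem_cons_self)
  have htl : t.length ≤ c1 := by
    rcases ht with ht | rfl
    · exact hv t ht
    · simp
  rw [e6, List.flatten_cons, List.append_assoc] at e3
  have e4 : o' ++ L3.flatten = z ++ b := List.append_cancel_left e3
  have hUq : ∀ q, zs.flatten = (zs.take q).flatten ++ (zs.drop q).flatten := by
    intro q
    rw [← List.flatten_append, List.take_append_drop]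
  by_cases hcase : ∃ q, q + 2 ≤ zs.length ∧ o.length ≤ (zs.take q).flatten.length
  · classical
    obtain ⟨hq1, hq2⟩ := Nat.find_spec hcase
    have hmin : ∀ m, m < Nat.find hcase → ¬ (m + 2 ≤ zs.length ∧
        o.length ≤ (zs.take m).flatten.length) := fun m hm => Nat.find_min hcase hm
    generalize Nat.find hcase = q at hq1 hq2 hmin
    rw [hUq q, List.append_assoc] at het
    obtain ⟨s1, h1, h2⟩ := Loc_pre het hq2
    have hs1 : s1.length ≤ c1 := by
      have h3 := congrArg List.length h1
      rw [List.length_append] at h3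
      rcases Nat.eq_zero_or_pos q with h4 | h4
      · subst h4
        rw [List.take_zero, List.flatten_nil, List.length_nil] at h3
        omega
      · obtain ⟨m, rfl⟩ : ∃ m, q = m + 1 := ⟨q - 1, by omega⟩
        have h5 := hmin m (by omega)
        have h6 : (zs.take m).flatten.length < o.length := by
          by_contra h7
          exact h5 ⟨by omega, not_lt.1 h7⟩
        rw [Loc_take, List.length_append] at h3
        have h7 := Loc_getD hz (q := m) (by omega)
        omega
    have hq3 : q + 1 < zs.length := by omega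
    have h8 : (s1 ++ zs.getD q [] ++ zs.getD (q + 1) []) ++
        ((zs.drop (q + 2)).flatten ++ t ++ L3.flatten) = z ++ b := by
      rw [← e4, h2, Loc_two zs hq3]
      simp only [List.append_assoc]
    obtain ⟨s2, h9, h10⟩ := Loc_pre h8 (by
      rw [List.length_append, List.length_append]
      have h11 := Loc_getD hz (q := q) (by omega)
      have h12 := Loc_getD hz (q := q + 1) hq3
      omega)
    refine ⟨q, s1, s2, t, L1, L3, hq3, h9, ?_, h10.symm, ht, hL1, hL3⟩
    rw [e2, List.append_assoc, h1]
  · push Not at hcase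
    have hK2 := hcase (zs.length - 2) (by omega)
    have ho' : o'.length ≤ 3 * c1 := by
      have h1 := congrArg List.length het
      rw [hUq (zs.length - 2), Loc_two zs (by omega)] at h1
      simp only [List.length_append] at h1
      have h2 : zs.drop (zs.length - 2 + 2) = [] := by
        rw [List.drop_eq_nil_iff]
        omega
      rw [h2, List.flatten_nil, List.length_nil] at h1
      have h3 := Loc_getD hz (q := zs.length - 2) (by omega)
      have h4 := Loc_getD hz (q := zs.length - 2 + 1) (by omega)
      omega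
    obtain ⟨z', h1, h2⟩ := Loc_pre e4 (by omega)
    have hz' : 3 * c1 + 1 ≤ z'.length := by
      have h3 := congrArg List.length h1
      rw [List.length_append] at h3
      omega
    cases hc : L3 with
    | nil =>
      exfalso
      rw [hc, List.flatten_nil] at h2
      have h3 := congrArg List.length h2
      rw [List.length_nil, List.length_append] at h3
      omega
    | cons e L4 =>
      have hL4 : ∀ v ∈ L4, v ∈ blk zs.flatten V := fun v hv => hL3 v (by
        rw [hc]; exact List.mem_cons_of_mem _ hv)
      obtain ⟨t', ht', rfl⟩ := hL3 e (by rw [hc]; exact List.mem_cons_self)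
      rw [hc, List.flatten_cons] at h2
      have h3 : (zs.getD 0 [] ++ zs.getD 1 []) ++ ((zs.drop 2).flatten ++ t' ++ L4.flatten) =
          z' ++ b := by
        rw [← h2]
        conv_rhs => rw [hUq 0, List.take_zero, List.flatten_nil, List.nil_append,
          Loc_two zs (by omega : 0 + 1 < zs.length)]
        simp only [List.append_assoc, Nat.zero_add]
      obtain ⟨s2, h4, h5⟩ := Loc_pre h3 (by
        rw [List.length_append]
        have h11 := Loc_getD hz (q := 0) (by omega)
        have h12 := Loc_getD hz (q := 1) (by omega)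
        omega)
      refine ⟨0, o', s2, t', L1 ++ [zs.flatten ++ t], L4, by omega, ?_, ?_, h5.symm, ht', ?_, hL4⟩
      · rw [h1, h4]
        simp only [List.append_assoc, Nat.zero_add]
      · rw [List.take_zero, List.flatten_nil, List.append_nil, List.flatten_append,
          List.flatten_singleton, ← het, e2, List.append_assoc]
      · intro v hv
        rcases List.mem_append.1 hv with h6 | h6
        · exact hL1 v h6
        · rw [List.mem_singleton] at h6
          subst h6
          exact ⟨t, ht, rfl⟩

end Pool.Agent.H.MP_5fffd4_al
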