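import Pool.Agent.H.MP_5fffd4_al.Loc

set_option autoImplicit false

namespace Pool.Agent.H.MP_5fffd4_al

variable {T : Type}

theorem LocB_len {n : ℕ} (L : List (List T)) (h : ∀ z ∈ L, n ≤ z.length) :
    L.length * n ≤ L.flatten.length := by
  induction L with
  | nil => simp
  | cons a L ih =>
    have h1 := h a List.mem_cons_self
    have h2 := ih fun z hz => h z (List.mem_cons_of_mem _ hz)
    rw [List.length_cons, List.flatten_cons, List.length_append, Nat.succ_mul]
    omega

theorem LocB_star {V : Set (List T)} (L : List (List T)) (h : ∀ z ∈ L, Star V z) :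
    Star V L.flatten := by
  induction L with
  | nil => exact Star.nil V
  | cons a L ih =>
    rw [List.flatten_cons]
    exact (h a List.mem_cons_self).append (ih fun z hz => h z (List.mem_cons_of_mem _ hz))

theorem LocB_rest_len {n : ℕ} (zs : List (List T)) (h : ∀ z ∈ zs, n ≤ z.length) {q : ℕ}
    (hq : q + 1 < zs.length) (t : List T) : (zs.length - 2) * n ≤ (rest zs q t).length := by
  have h1 := LocB_len (n := n) (zs.drop (q + 2)) fun z hz => h z (List.mem_of_mem_drop hz)
  have h2 := LocB_len (n := n) (zs.take q) fun z hz => h z (List.mem_of_mem_take hz)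
  rw [List.length_drop] at h1
  rw [List.length_take, min_eq_left (by omega)] at h2
  have h3 : (zs.length - 2) * n = (zs.length - (q + 2)) * n + q * n := by
    rw [← Nat.add_mul]
    congr 1
    omega
  unfold rest
  rw [List.length_append, List.length_append]
  omega

theorem LocB_flatten_split (zs : List (List T)) (q : ℕ) :
    zs.flatten = (zs.take (q + 2)).flatten ++ (zs.drop (q + 2)).flatten := by
  rw [← List.flatten_append, List.take_append_drop]

theorem LocB_take_succ (zs : List (List T)) {q : ℕ} (hq : q + 1 < zs.length) :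
    (zs.take (q + 1)).flatten = (zs.take q).flatten ++ zs.getD q [] := by
  have h : q < zs.length := by omega
  rw [List.take_add_one, List.flatten_append, List.getD_eq_getElem?_getD,
    List.getElem?_eq_getElem h]
  simp

/-- Two blocks in a window, and what precedes (mirror image): `a2 ++ s1` is a suffix of
`L1.flatten ++ (zs.take q).flatten`; if `L1 = []` it is a suffix of every `rest zs q t`, otherwise the
last element of `L1` is `zs.flatten ++ t''` and `rest zs q t''` is a suffix of
`L1.flatten ++ (zs.take q).flatten`; compare the lengths. -/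
theorem two_blocks_before {V : Set (List T)} {zs : List (List T)} {c1 n : ℕ}
    (hz : ∀ z ∈ zs, Star V z ∧ n ≤ z.length ∧ z.length ≤ c1)
    (hv : ∀ v ∈ V, v.length ≤ c1) (hK : 4 ≤ zs.length) {w a1 a2 z b : List T}
    (hw : Star (blk zs.flatten V) w) (h : w = a1 ++ a2 ++ z ++ b)
    (hl : 6 * c1 + 1 ≤ z.length) (hs : (a2 ++ z).length ≤ (zs.length - 2) * n) :
    ∃ (q : ℕ) (s1 s2 t e : List T), q + 1 < zs.length ∧ (t ∈ V ∨ t = []) ∧
      z = s1 ++ zs.getD q [] ++ zs.getD (q + 1) [] ++ s2 ∧
      Star V (a1 ++ a2 ++ s1) ∧ Star V (a1 ++ a2 ++ s1 ++ zs.getD q []) ∧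
      rest zs q t = e ++ (a2 ++ s1) := by
  obtain ⟨q, s1, s2, t, L1, L2, hq, hzz, ha, -, -, hL1, -⟩ :=
    loc (fun z hz' => (hz z hz').2.2) hv hK hw h hl
  have hzsV : Star V zs.flatten := LocB_star zs fun z hz' => (hz z hz').1
  have hL1V : Star V L1.flatten := LocB_star L1 fun e he => blk_star hzsV e (hL1 e he)
  have htakeV : ∀ j, Star V (zs.take j).flatten := fun j =>
    LocB_star _ fun z hz' => (hz z (List.mem_of_mem_take hz')).1
  have hS1 : Star V (a1 ++ a2 ++ s1) := by
    rw [ha]
    exact hL1V.append (htakeV q)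
  have hS2 : Star V (a1 ++ a2 ++ s1 ++ zs.getD q []) := by
    rw [ha, List.append_assoc, ← LocB_take_succ zs hq]
    exact hL1V.append (htakeV (q + 1))
  rcases List.eq_nil_or_concat L1 with hnil | ⟨L1', x, hcon⟩
  · refine ⟨q, s1, s2, [], (zs.drop (q + 2)).flatten ++ a1, hq, Or.inr rfl, hzz, hS1, hS2, ?_⟩
    rw [hnil, List.flatten_nil, List.nil_append] at ha
    unfold rest
    rw [← ha]
    simp [List.append_assoc]
  · have hx : x ∈ blk zs.flatten V := hL1 x (by rw [hcon]; simp)
    obtain ⟨t', ht', rfl⟩ := hx
    have h1 : a1 ++ (a2 ++ s1) = (L1'.flatten ++ (zs.take (q + 2)).flatten) ++ rest zs q t' := by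
      rw [← List.append_assoc, ha, hcon]
      unfold rest
      simp only [List.concat_eq_append, List.flatten_append, List.flatten_cons, List.flatten_nil,
        List.append_nil]
      conv_lhs => rw [LocB_flatten_split zs q]
      simp only [List.append_assoc]
    have h2 : (a2 ++ s1).length ≤ (rest zs q t').length := by
      refine le_trans ?_ (LocB_rest_len zs (fun z hz' => (hz z hz').2.1) hq t')
      refine le_trans ?_ hs
      rw [List.length_append, List.length_append, hzz]
      simp only [List.length_append]
      omega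
    rw [List.append_eq_append_iff] at h1
    rcases h1 with ⟨c, h3, h4⟩ | ⟨c, h3, h4⟩
    · have h5 : c = [] := by
        have h6 := congrArg List.length h4
        simp only [List.length_append] at h6 h2
        exact List.eq_nil_of_length_eq_zero (by omega)
      rw [h5, List.nil_append] at h4
      exact ⟨q, s1, s2, t', [], hq, ht', hzz, hS1, hS2, by rw [List.nil_append, h4]⟩
    · exact ⟨q, s1, s2, t', c, hq, ht', hzz, hS1, hS2, h4⟩

end Pool.Agent.H.MP_5fffd4_al
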