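import Mathlib

set_option autoImplicit false

namespace Pool.Agent.H.MP_5fffd4_al

/-- a word over the index type is geodesic: no shorter word has the same value -/
def Geo {ι H : Type*} [Monoid H] (e : ι → H) (l : List ι) : Prop :=
  ∀ l' : List ι, (l'.map e).prod = (l.map e).prod → l.length ≤ l'.length

/-- infixes of geodesic words are geodesic (replace the infix). -/
theorem Geo.mid {ι H : Type*} [Monoid H] {e : ι → H} {a z b : List ι}
    (h : Geo e (a ++ z ++ b)) : Geo e z := by
  intro v' hv'
  have h1 := h (a ++ v' ++ b) (by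
    rw [List.map_append, List.prod_append, List.map_append, List.prod_append, hv',
      List.map_append, List.prod_append, List.map_append, List.prod_append])
  simp only [List.length_append] at h1
  omega

section NF

variable {ι H : Type*} [LinearOrder ι] [Monoid H]

/-- shortlex normal forms -/
def MH_NF (e : ι → H) (w : List ι) : Prop :=
  Geo e w ∧ ∀ w' : List ι, (w'.map e).prod = (w.map e).prod → w'.length = w.length → w ≤ w'

omit [Monoid H] in
theorem MH_lex_left (u : List ι) {v v' : List ι} : u ++ v ≤ u ++ v' ↔ v ≤ v' := by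
  induction u with
  | nil => simp
  | cons a u ih =>
    rw [List.cons_append, List.cons_append, ← not_lt, ← not_lt, List.cons_lt_cons_iff]
    simp only [lt_self_iff_false, true_and, false_or]
    rw [not_lt, ih, not_lt]

theorem MH_lex_right : ∀ {u u' : List ι} (v : List ι), u.length = u'.length → u ++ v ≤ u' ++ v →
    u ≤ u' := by
  intro u
  induction u with
  | nil =>
    intro u' v h _
    have : u' = [] := by
      cases u' with
      | nil => rfl
      | cons => simp at h
    rw [this]
  | cons a u ih =>
    intro u' v h h1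
    cases u' with
    | nil => simp at h
    | cons b u' =>
      simp only [List.cons_append] at h1
      rw [← not_lt, List.cons_lt_cons_iff] at h1 ⊢
      push Not at h1 ⊢
      refine ⟨h1.1, fun hb => ?_⟩
      have h2 := h1.2 hb
      exact ih v (by simpa using h) h2

theorem MH_NF.mid {e : ι → H} {u v w : List ι} (h : MH_NF e (u ++ v ++ w)) : MH_NF e v := by
  refine ⟨h.1.mid, ?_⟩
  intro v' hv' hl
  have h1 := h.2 (u ++ v' ++ w) (by
    rw [List.map_append, List.prod_append, List.map_append, List.prod_append, hv',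
      List.map_append, List.prod_append, List.map_append, List.prod_append]) (by simp [hl])
  rw [List.append_assoc, List.append_assoc, MH_lex_left] at h1
  exact MH_lex_right w hl.symm h1

theorem MH_NF.pre {e : ι → H} {u v : List ι} (h : MH_NF e (u ++ v)) : MH_NF e u :=
  MH_NF.mid (u := []) (w := v) (by simpa using h)

theorem MH_NF.suf {e : ι → H} {u v : List ι} (h : MH_NF e (u ++ v)) : MH_NF e v :=
  MH_NF.mid (u := u) (w := []) (by simpa using h)

theorem MH_NF.inj {e : ι → H} {u v : List ι} (hu : MH_NF e u) (hv : MH_NF e v)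
    (h : (u.map e).prod = (v.map e).prod) : u = v := by
  have h1 : u.length = v.length := le_antisymm (hu.1 v h.symm) (hv.1 u h)
  exact le_antisymm (hu.2 v h.symm h1.symm) (hv.2 u h h1)

variable [Finite ι]

theorem MH_exists_NF (e : ι → H) (w : List ι) :
    ∃ u, MH_NF e u ∧ (u.map e).prod = (w.map e).prod := by
  classical
  have h1 : ∃ n, ∃ u : List ι, u.length = n ∧ (u.map e).prod = (w.map e).prod := ⟨_, w, rfl, rfl⟩
  obtain ⟨u0, hu0, hv0⟩ := Nat.find_spec h1
  have hmin : ∀ u : List ι, (u.map e).prod = (w.map e).prod → Nat.find h1 ≤ u.length :=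
    fun u hu => Nat.find_min' h1 ⟨u, rfl, hu⟩
  let S : Set (List ι) := {u | u.length = Nat.find h1 ∧ (u.map e).prod = (w.map e).prod}
  have hS : S.Finite := (List.finite_length_eq ι (Nat.find h1)).subset fun u hu => hu.1
  obtain ⟨u, hu, hle⟩ := Set.exists_min_image S id hS ⟨u0, hu0, hv0⟩
  refine ⟨u, ⟨?_, ?_⟩, hu.2⟩
  · intro u' hu'
    rw [hu.1]
    exact hmin u' (hu'.trans hu.2)
  · intro u' hu' hl
    exact hle u' ⟨hl.trans hu.1, hu'.trans hu.2⟩

/-- normal forms of length `m` with normal form extensions of every length -/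
def MH_D (e : ι → H) (m : ℕ) : Set (List ι) :=
  {u | u.length = m ∧ ∀ n, ∃ v : List ι, v.length = n ∧ MH_NF e (u ++ v)}

theorem MH_D_finite (e : ι → H) (m : ℕ) : (MH_D e m).Finite :=
  (List.finite_length_eq ι m).subset fun _ hu => hu.1

omit [LinearOrder ι] [Finite ι] in
theorem MH_exists_word (e : ι → H) (hgen : Submonoid.closure (Set.range e) = ⊤) (x : H) :
    ∃ w : List ι, (w.map e).prod = x := by
  have hx : x ∈ Submonoid.closure (Set.range e) := by rw [hgen]; trivial
  induction hx using Submonoid.closure_induction with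
  | mem x hx =>
    obtain ⟨i, rfl⟩ := hx
    exact ⟨[i], by simp⟩
  | one => exact ⟨[], by simp⟩
  | mul x y _ _ hx hy =>
    obtain ⟨u, hu⟩ := hx
    obtain ⟨v, hv⟩ := hy
    exact ⟨u ++ v, by simp [hu, hv]⟩

theorem MH_D_zero (e : ι → H) (hgen : Submonoid.closure (Set.range e) = ⊤) [Infinite H] :
    [] ∈ MH_D e 0 := by
  refine ⟨rfl, fun n => ?_⟩
  have h1 : {u : List ι | u.length < n}.Finite := List.finite_length_lt ι n
  have h2 : ((fun u : List ι => (u.map e).prod) '' {u : List ι | u.length < n}).Finite :=
    h1.image _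
  obtain ⟨g, hg⟩ := Set.Infinite.nonempty h2.infinite_compl
  obtain ⟨w, hw⟩ := MH_exists_word e hgen g
  obtain ⟨u, hu, hv⟩ := MH_exists_NF e w
  have h3 : n ≤ u.length := by
    by_contra hlt
    push Not at hlt
    exact hg ⟨u, hlt, hv.trans hw⟩
  refine ⟨u.take n, by simp [h3], ?_⟩
  rw [List.nil_append]
  refine MH_NF.pre (v := u.drop n) ?_
  rw [List.take_append_drop]
  exact hu

theorem MH_D_ext {e : ι → H} {m : ℕ} {u : List ι} (hu : u ∈ MH_D e m) :
    ∃ a, u ++ [a] ∈ MH_D e (m + 1) := by
  classical
  by_contra hcon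
  push Not at hcon
  have h1 : ∀ a : ι, ∃ n, ∀ v : List ι, v.length = n → ¬ MH_NF e (u ++ [a] ++ v) := by
    intro a
    by_contra h2
    push Not at h2
    refine hcon a ⟨by simp [hu.1], fun n => ?_⟩
    obtain ⟨v, hv, hv'⟩ := h2 n
    exact ⟨v, hv, hv'⟩
  choose n hn using h1
  obtain ⟨N, hN⟩ : ∃ N, ∀ a, n a ≤ N := by
    obtain ⟨N, hN⟩ := (Set.finite_range n).bddAbove
    exact ⟨N, fun a => hN (Set.mem_range_self a)⟩
  obtain ⟨v, hv, hv'⟩ := hu.2 (N + 1)
  cases v with
  | nil => simp at hv
  | cons a v =>
    refine hn a (v.take (n a)) ?_ ?_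
    · have h3 : v.length = N := by simpa using hv
      rw [List.length_take, h3]
      exact min_eq_left (hN a)
    · refine MH_NF.pre (v := v.drop (n a)) ?_
      rw [List.append_assoc, List.take_append_drop, List.append_assoc]
      exact hv'

theorem MH_D_pre {e : ι → H} {m : ℕ} {u v : List ι} (h : u ++ v ∈ MH_D e m) :
    u ∈ MH_D e u.length := by
  refine ⟨rfl, fun n => ?_⟩
  obtain ⟨w, hw, hw'⟩ := h.2 n
  refine ⟨(v ++ w).take n, ?_, ?_⟩
  · rw [List.length_take, List.length_append, hw]
    omega
  · refine MH_NF.pre (v := (v ++ w).drop n) ?_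
    rw [List.append_assoc, List.take_append_drop, ← List.append_assoc]
    exact hw'

theorem MH_D_suf {e : ι → H} {m : ℕ} {u v : List ι} (h : u ++ v ∈ MH_D e m) :
    v ∈ MH_D e v.length := by
  refine ⟨rfl, fun n => ?_⟩
  obtain ⟨w, hw, hw'⟩ := h.2 n
  refine ⟨w, hw, ?_⟩
  rw [List.append_assoc] at hw'
  exact hw'.suf

end NF

section periodic

variable {ι H : Type*} [LinearOrder ι] [Finite ι] [Group H]

/-- the unique continuation is impossible -/
theorem MH_not_unique (htor : ∀ x : H, IsOfFinOrder x) (e : ι → H) (m : ℕ)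
    (hne : (MH_D e m).Nonempty)
    (hun : ∀ u ∈ MH_D e m, ∀ a b, u ++ [a] ∈ MH_D e (m + 1) → u ++ [b] ∈ MH_D e (m + 1) → a = b) :
    False := by
  classical
  have hex : ∀ u : MH_D e m, ∃ a, (u : List ι) ++ [a] ∈ MH_D e (m + 1) := fun u => MH_D_ext u.2
  choose nx hnx using hex
  have hT : ∀ u : MH_D e m, ((u : List ι) ++ [nx u]).tail ∈ MH_D e m := by
    intro u
    have h1 := hnx u
    have hlen : ((u : List ι) ++ [nx u]).length = m + 1 := h1.1
    cases h : (u : List ι) ++ [nx u] with
    | nil => rw [h] at hlen; simp at hlen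
    | cons x w =>
      rw [h] at h1 hlen
      have h2 : [x] ++ w ∈ MH_D e (m + 1) := h1
      have h3 := MH_D_suf h2
      have h4 : w.length = m := by simpa using hlen
      rw [h4] at h3
      exact h3
  let T : MH_D e m → MH_D e m := fun u => ⟨((u : List ι) ++ [nx u]).tail, hT u⟩
  -- the forced word
  let x : MH_D e m → ℕ → ι := fun u i => nx (T^[i] u)
  let Lw : MH_D e m → ℕ → List ι := fun u j => (List.range j).map (x u)
  have hLs : ∀ u j, Lw u (j + 1) = Lw u j ++ [x u j] := by
    intro u j
    show (List.range (j + 1)).map (x u) = _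
    rw [List.range_succ, List.map_append]
    rfl
  have hforce : ∀ (u : MH_D e m) (j : ℕ), (u : List ι) ++ Lw u j ∈ MH_D e (m + j) ∧
      ∃ p : List ι, (u : List ι) ++ Lw u j = p ++ (T^[j] u : List ι) := by
    intro u j
    induction j with
    | zero =>
      refine ⟨?_, [], ?_⟩
      · show (u : List ι) ++ [] ∈ MH_D e (m + 0)
        rw [List.append_nil]
        exact u.2
      · show (u : List ι) ++ [] = [] ++ (u : List ι)
        simp
    | succ j ih =>
      obtain ⟨h1, p, h2⟩ := ih
      obtain ⟨b, hb⟩ := MH_D_ext h1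
      have hb' : p ++ ((T^[j] u : List ι) ++ [b]) ∈ MH_D e (m + j + 1) := by
        rw [← List.append_assoc, ← h2]
        exact hb
      have h3 := MH_D_suf hb'
      have h4 : ((T^[j] u : List ι) ++ [b]).length = m + 1 := by
        rw [List.length_append, (T^[j] u).2.1]
        rfl
      rw [h4] at h3
      have h5 : b = x u j := hun _ (T^[j] u).2 _ _ h3 (hnx (T^[j] u))
      subst h5
      constructor
      · rw [hLs, ← List.append_assoc]
        exact hb
      · have h6 : (T^[j] u : List ι) ++ [x u j] ≠ [] := by simp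
        obtain ⟨y, w, hyw⟩ := List.exists_cons_of_ne_nil h6
        refine ⟨p ++ [y], ?_⟩
        rw [hLs, ← List.append_assoc, h2, List.append_assoc, hyw]
        have h7 : (T^[j + 1] u : List ι) = w := by
          rw [Function.iterate_succ_apply']
          show ((T^[j] u : List ι) ++ [nx (T^[j] u)]).tail = w
          have h8 : (T^[j] u : List ι) ++ [nx (T^[j] u)] = y :: w := hyw
          rw [h8]
          rfl
        rw [h7]
        simp
  -- a periodic point
  haveI : Finite (MH_D e m) := (MH_D_finite e m).to_subtype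
  obtain ⟨u0, hu0⟩ := hne
  obtain ⟨i, j, hij, heq⟩ := Finite.exists_ne_map_eq_of_infinite (fun i : ℕ => T^[i] ⟨u0, hu0⟩)
  obtain ⟨u, p, hp, hper⟩ : ∃ (u : MH_D e m) (p : ℕ), 0 < p ∧ T^[p] u = u := by
    rcases lt_or_gt_of_ne hij with h | h
    · refine ⟨T^[i] ⟨u0, hu0⟩, j - i, by omega, ?_⟩
      rw [← Function.iterate_add_apply, show j - i + i = j by omega]
      exact heq.symm
    · refine ⟨T^[j] ⟨u0, hu0⟩, i - j, by omega, ?_⟩
      rw [← Function.iterate_add_apply, show i - j + j = i by omega]
      exact heq
  have hxp : ∀ i, x u (p + i) = x u i := by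
    intro i
    show nx (T^[p + i] u) = nx (T^[i] u)
    rw [add_comm, Function.iterate_add_apply, hper]
  have hval : ∀ j, ((Lw u (p + j)).map e).prod = ((Lw u p).map e).prod * ((Lw u j).map e).prod := by
    intro j
    induction j with
    | zero =>
      show ((Lw u p).map e).prod = ((Lw u p).map e).prod * ((List.range 0).map (x u) |>.map e).prod
      simp
    | succ j ih =>
      rw [← add_assoc, hLs, List.map_append, List.prod_append, ih, hxp, hLs, List.map_append,
        List.prod_append, mul_assoc]
  have hpow : ∀ k, ((Lw u (p * k)).map e).prod = ((Lw u p).map e).prod ^ k := by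
    intro k
    induction k with
    | zero =>
      show ((List.range (p * 0)).map (x u) |>.map e).prod = _
      simp
    | succ k ih =>
      rw [show p * (k + 1) = p + p * k by ring, hval, ih, pow_succ']
  have hN : 0 < orderOf ((Lw u p).map e).prod := (htor _).orderOf_pos
  set N := orderOf ((Lw u p).map e).prod with hNdef
  have h1 := hpow N
  rw [hNdef, pow_orderOf_eq_one, ← hNdef] at h1
  obtain ⟨v, -, hv'⟩ := (hforce u (p * N)).1.2 0
  rw [List.append_assoc] at hv'
  have h2 : MH_NF e (Lw u (p * N)) := hv'.suf.pre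
  have h3 := h2.1 [] (by rw [h1]; rfl)
  have h4 : (Lw u (p * N)).length = p * N := by
    show ((List.range (p * N)).map (x u)).length = p * N
    simp
  rw [h4] at h3
  have h5 : 0 < p * N := Nat.mul_pos hp hN
  simp at h3
  omega

theorem MH_card (htor : ∀ x : H, IsOfFinOrder x) (e : ι → H)
    (hgen : Submonoid.closure (Set.range e) = ⊤) [Infinite H] (m : ℕ) :
    (MH_D e m).Nonempty ∧ m + 1 ≤ (MH_D e m).ncard := by
  classical
  induction m with
  | zero =>
    have h := MH_D_zero e hgen
    refine ⟨⟨_, h⟩, ?_⟩
    exact (Set.ncard_pos (MH_D_finite e 0)).mpr ⟨_, h⟩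
  | succ m ih =>
    obtain ⟨hne, hc⟩ := ih
    have hfin := MH_D_finite e (m + 1)
    constructor
    · obtain ⟨u, hu⟩ := hne
      obtain ⟨a, ha⟩ := MH_D_ext hu
      exact ⟨_, ha⟩
    · by_contra hlt
      push Not at hlt
      have hle : (MH_D e (m + 1)).ncard ≤ (MH_D e m).ncard := by omega
      -- the surjection `dropLast`
      have himg : (List.dropLast '' MH_D e (m + 1)) = MH_D e m := by
        ext u
        constructor
        · rintro ⟨w, hw, rfl⟩
          have hw0 : w ≠ [] := by
            rintro rfl
            have := hw.1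
            simp at this
          have h1 : w.dropLast ++ [w.getLast hw0] ∈ MH_D e (m + 1) := by
            rw [List.dropLast_append_getLast]
            exact hw
          have h2 := MH_D_pre h1
          have h3 : w.dropLast.length = m := by
            rw [List.length_dropLast, hw.1]
            rfl
          rw [h3] at h2
          exact h2
        · intro hu
          obtain ⟨a, ha⟩ := MH_D_ext hu
          exact ⟨_, ha, by simp⟩
      have hinj : Set.InjOn List.dropLast (MH_D e (m + 1)) := by
        refine Set.injOn_of_ncard_image_eq ?_ hfin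
        rw [himg]
        refine le_antisymm ?_ hle
        rw [← himg]
        exact Set.ncard_image_le hfin
      refine MH_not_unique htor e m hne ?_
      intro u _ a b ha hb
      have h4 := hinj ha hb (by simp)
      simpa using h4

end periodic

/-- An infinite torsion group with a finite generating family has at least `n + 1` elements of
length `n`, with geodesic representatives. -/
theorem sphere_growth {ι H : Type*} [Finite ι] [Group H] [Infinite H]
    (htor : ∀ x : H, IsOfFinOrder x) (e : ι → H)
    (hgen : Submonoid.closure (Set.range e) = ⊤) (n : ℕ) :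
    ∃ D : Finset (List ι), n + 1 ≤ D.card ∧ (∀ l ∈ D, l.length = n ∧ Geo e l) ∧
      ∀ l ∈ D, ∀ l' ∈ D, (l.map e).prod = (l'.map e).prod → l = l' := by
  classical
  letI : LinearOrder ι := IsWellOrder.linearOrder WellOrderingRel
  have h1 := (MH_card htor e hgen n).2
  have hNF : ∀ l ∈ MH_D e n, MH_NF e l := by
    intro l hl
    obtain ⟨v, -, hv⟩ := hl.2 0
    exact hv.pre
  refine ⟨(MH_D_finite e n).toFinset, ?_, ?_, ?_⟩
  · rwa [← Set.ncard_eq_toFinset_card _ (MH_D_finite e n)]
  · intro l hl
    rw [Set.Finite.mem_toFinset] at hl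
    exact ⟨hl.1, (hNF l hl).1⟩
  · intro l hl l' hl' h
    rw [Set.Finite.mem_toFinset] at hl hl'
    exact (hNF l hl).inj (hNF l' hl') h

end Pool.Agent.H.MP_5fffd4_al
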