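import Pool.Agent.H.MP_5fffd4_al.Block1
import Pool.Agent.H.MP_5fffd4_al.Block2

set_option autoImplicit false

namespace Pool.Agent.H.MP_5fffd4_al

variable {T : Type} {G : Type*} [Group G] {g : BG T} {f : T → G}

/-- STAGE 2, linear class. Proof. `block1` gives `V1`, `l1`. `S1 g f V1` holds: words of
`V1*` are words of `V*` and `Gam f V1 = Gam f V`. `block2` for `V1` (with `Bdd.mono`) gives `V'`,
`l3`. Take `l2 = l1 + l3 + 2 l + 1`. For a node `(A; x, u, y)` of a word of `V'*` with
`u.length > l2` apply `chain_end` (with `bder_of_node`): `u = x' ++ u' ++ y'`,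
`u'.length ≤ 2 l + 1`. If `PP1` has infinite index, `x'.length ≤ l1` by `block1` and
`y'.length ≤ l3` by `block2`, contradiction; likewise for `PP2`. -/
theorem stage2L [Finite T] (hs : Setup g f) (hN : Finite g.N) {P Q : Set g.N}
    (hQ : Cls g P Q) (hlin : Lin g Q) {V : Set (List T)} (hV : Good f V) {l : ℕ}
    (hb : Bdd g f V P l) (h1 : S1 g f V) :
    ∃ V' : Set (List T), Good f V' ∧ (∀ v ∈ V', Star V v) ∧ ∃ l2, S2 g f V' Q l2 := by
  obtain ⟨V1, hV1, hs1, hG1, l1, hl1⟩ := block1 hs hN hQ hlin hV hb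
  have h1' : S1 g f V1 := by
    intro w hw hne A x u y hn
    rw [hG1]
    exact h1 w (hw.mono hs1) hne A x u y hn
  have hb1 : Bdd g f V1 P l := hb.mono hs1
  obtain ⟨V', hV', hs', hG', l3, hl3⟩ := block2 hs hN hQ hlin hV1 hb1 h1' l1
  have hb' : Bdd g f V' P l := hb1.mono hs'
  refine ⟨V', hV', fun v hv => (hs' v hv).mono hs1, l1 + l3 + (2 * l + 1), ?_⟩
  intro w hw hne A hA x u y hn hlen
  have hbd : BDer g P l A u := bder_of_node (fun B hB => hb' w hw hne B hB) hn
  obtain ⟨B, hB, x', u', y', hc, hd, hu, hul⟩ := chain_end hQ hlin hA hbd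
  have hk1 := hl1 w (hw.mono hs') hne A hA x u y hn B hB x' u' y' hc.ctx hd.der hu
  have hk3 := hl3 w hw hne A hA x u y hn B hB x' u' y' hc.ctx hd.der hu
  have hlu : u.length = x'.length + u'.length + y'.length := by
    rw [hu, List.length_append, List.length_append]
  rw [hG', hG1]
  constructor
  · intro h0
    have e1 := hk1.1 h0
    have e2 := hk3.1 e1
    omega
  · intro h0
    have e1 := hk1.2 h0
    have e2 := hk3.2 e1
    omega

end Pool.Agent.H.MP_5fffd4_al
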