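import Pool.Agent.H.MP_5fffd4_al.Tree

set_option autoImplicit false

namespace Pool.Agent.H.MP_5fffd4_al

variable {T : Type}

/-- Boundaries of `Q`-nodes are dense (any class `Q`, linear or not): for every cut
`u = s ++ t` of a word derived from `A ∈ Q` there is a `Q`-node below with a boundary (left or
right) at most `2 l + 1` before the cut.

Proof: induction on `h` (generalise `s t`). `term`/`eps`: `s.length ≤ 1`, take `B = A`, `x' = []`,
`s' = s`. `bin` (`u = u1 ++ u2`, children `B'`, `C'`, each in `P` or `Q` by `hQ.down`):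
* `s.length ≤ u1.length` and `B' ∈ Q`: `u1 = s ++ t1`, induction hypothesis for `B'`, prepend the
  step (context `A ⇒ [] B' u2`).
* `s.length ≤ u1.length` and `B' ∈ P`: `s.length ≤ u1.length ≤ l`: `B = A`, `x' = []`.
* `u1.length < s.length`: `s = u1 ++ s1`, `u2 = s1 ++ t`. If `C' ∈ Q`: induction hypothesis for
  `C'`. If `C' ∈ P`: `s1.length ≤ u2.length ≤ l`; if `B' ∈ Q` take `B = B'`, `x' = []`, `u' = u1`,
  `s = x' ++ u' ++ s1` (second alternative); if `B' ∈ P` take `B = A`, `x' = []`,
  `s.length ≤ 2 l`. -/
theorem boundary {g : BG T} {P Q : Set g.N} {l : ℕ} (hQ : Cls g P Q) {A : g.N}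
    (hA : A ∈ Q) {u : List T} (h : BDer g P l A u) (s t : List T) (hu : u = s ++ t) :
    ∃ B ∈ Q, ∃ x' u' y' s', Ctx g A B x' y' ∧ Der g B u' ∧ u = x' ++ u' ++ y' ∧
      s'.length ≤ 2 * l + 1 ∧ (s = x' ++ s' ∨ s = x' ++ u' ++ s') := by
  have key : ∀ (A : g.N) (u : List T), BDer g P l A u → A ∈ Q → ∀ s t : List T, u = s ++ t →
      ∃ B ∈ Q, ∃ x' u' y' s', Ctx g A B x' y' ∧ Der g B u' ∧ u = x' ++ u' ++ y' ∧
        s'.length ≤ 2 * l + 1 ∧ (s = x' ++ s' ∨ s = x' ++ u' ++ s') := by
    intro A u h
    have small : ∀ (A : g.N) (u s : List T), A ∈ Q → Der g A u → s.length ≤ 2 * l + 1 →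
        ∃ B ∈ Q, ∃ x' u' y' s', Ctx g A B x' y' ∧ Der g B u' ∧ u = x' ++ u' ++ y' ∧
          s'.length ≤ 2 * l + 1 ∧ (s = x' ++ s' ∨ s = x' ++ u' ++ s') := by
      intro A u s hA hd hs
      exact ⟨A, hA, [], u, [], s, Ctx.refl A, hd, by simp, hs, Or.inl (by simp)⟩
    induction h with
    | @term A a ht =>
      intro hA s t hst
      refine small A _ s hA (Der.term ht) ?_
      have h1 := congrArg List.length hst
      simp at h1
      omega
    | @eps A he =>
      intro hA s t hst
      refine small A _ s hA (Der.eps he) ?_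
      have h1 := congrArg List.length hst
      rw [List.length_append, List.length_nil] at h1
      omega
    | @bin A B C u v hb hu hv hlB hlC ihB ihC =>
      intro hA s t hst
      have hBd : B ∈ P ∨ B ∈ Q := hQ.down A hA B _ _ (Ctx.left hb hv.der (Ctx.refl B))
      have hCd : C ∈ P ∨ C ∈ Q := hQ.down A hA C _ _ (Ctx.right hb hu.der (Ctx.refl C))
      have hd : Der g A (u ++ v) := Der.bin hb hu.der hv.der
      rcases List.append_eq_append_iff.1 hst with ⟨a', hs, hv'⟩ | ⟨c', hu', ht⟩
      · rcases hCd with hC | hC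
        · have hal : a'.length ≤ l := by
            have h1 := hlC hC
            have h2 := congrArg List.length hv'
            rw [List.length_append] at h2
            omega
          rcases hBd with hB | hB
          · refine small A _ s hA hd ?_
            have h1 := hlB hB
            rw [hs, List.length_append]
            omega
          · refine ⟨B, hB, [], u, [] ++ v, a', Ctx.left hb hv.der (Ctx.refl B), hu.der, by simp,
              by omega, Or.inr ?_⟩
            rw [hs]
            simp
        · obtain ⟨B0, hB0, x', u', y', s', h1, h2, h3, h4, h5⟩ := ihC hC a' t hv'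
          refine ⟨B0, hB0, u ++ x', u', y', s', Ctx.right hb hu.der h1, h2, ?_, h4, ?_⟩
          · rw [h3]
            simp [List.append_assoc]
          · rcases h5 with h5 | h5
            · left
              rw [hs, h5]
              simp [List.append_assoc]
            · right
              rw [hs, h5]
              simp [List.append_assoc]
      · rcases hBd with hB | hB
        · refine small A _ s hA hd ?_
          have h1 := hlB hB
          have h2 := congrArg List.length hu'
          rw [List.length_append] at h2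
          omega
        · obtain ⟨B0, hB0, x', u', y', s', h1, h2, h3, h4, h5⟩ := ihB hB s c' hu'
          refine ⟨B0, hB0, x', u', y' ++ v, s', Ctx.left hb hv.der h1, h2, ?_, h4, h5⟩
          rw [h3]
          simp [List.append_assoc]
  exact key A u h hA s t hu

/-- A `Q`-node of minimal length `≥ m` has length `< 2 m` (any class `Q`).

Proof: induction on `h`. `term`/`eps`: `u.length ≤ 1`, so (as `1 ≤ m ≤ u.length`) take `B = A`.
`bin`: if `B' ∈ Q` and `m ≤ u1.length`: induction hypothesis, prepend the step; same for `C'`.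
Otherwise each child has length `< m` (in `Q`) or `≤ l < m` (in `P`), so `u.length < 2 m`, take
`B = A`. -/
theorem min_node {g : BG T} {P Q : Set g.N} {l : ℕ} (hQ : Cls g P Q) {A : g.N}
    (hA : A ∈ Q) {u : List T} (h : BDer g P l A u) {m : ℕ} (hm : l < m) (hu : m ≤ u.length) :
    ∃ B ∈ Q, ∃ x' u' y', Ctx g A B x' y' ∧ Der g B u' ∧ u = x' ++ u' ++ y' ∧
      m ≤ u'.length ∧ u'.length < 2 * m := by
  have key : ∀ (A : g.N) (u : List T), BDer g P l A u → A ∈ Q → m ≤ u.length →
      ∃ B ∈ Q, ∃ x' u' y', Ctx g A B x' y' ∧ Der g B u' ∧ u = x' ++ u' ++ y' ∧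
        m ≤ u'.length ∧ u'.length < 2 * m := by
    intro A u h
    induction h with
    | @term A a ht =>
      intro hA hm'
      refine ⟨A, hA, [], [a], [], Ctx.refl A, Der.term ht, by simp, hm', ?_⟩
      have h1 : ([a] : List T).length = 1 := rfl
      rw [h1]
      omega
    | @eps A he =>
      intro hA hm'
      simp at hm'
      omega
    | @bin A B C u v hb hu hv hlB hlC ihB ihC =>
      intro hA hm'
      have hBd : B ∈ P ∨ B ∈ Q := hQ.down A hA B _ _ (Ctx.left hb hv.der (Ctx.refl B))
      have hCd : C ∈ P ∨ C ∈ Q := hQ.down A hA C _ _ (Ctx.right hb hu.der (Ctx.refl C))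
      by_cases h1 : B ∈ Q ∧ m ≤ u.length
      · obtain ⟨B0, hB0, x', u', y', g1, g2, g3, g4, g5⟩ := ihB h1.1 h1.2
        refine ⟨B0, hB0, x', u', y' ++ v, Ctx.left hb hv.der g1, g2, ?_, g4, g5⟩
        rw [g3]
        simp [List.append_assoc]
      · by_cases h2 : C ∈ Q ∧ m ≤ v.length
        · obtain ⟨B0, hB0, x', u', y', g1, g2, g3, g4, g5⟩ := ihC h2.1 h2.2
          refine ⟨B0, hB0, u ++ x', u', y', Ctx.right hb hu.der g1, g2, ?_, g4, g5⟩
          rw [g3]
          simp [List.append_assoc]
        · have e1 : u.length < m := by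
            rcases hBd with hB | hB
            · exact lt_of_le_of_lt (hlB hB) hm
            · by_contra hc
              exact h1 ⟨hB, not_lt.1 hc⟩
          have e2 : v.length < m := by
            rcases hCd with hC | hC
            · exact lt_of_le_of_lt (hlC hC) hm
            · by_contra hc
              exact h2 ⟨hC, not_lt.1 hc⟩
          refine ⟨A, hA, [], u ++ v, [], Ctx.refl A, Der.bin hb hu.der hv.der, by simp, hm', ?_⟩
          rw [List.length_append]
          omega
  exact key A u h hA hu

end Pool.Agent.H.MP_5fffd4_al
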