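import Pool.Agent.H.MP_5fffd4_al.AlgN
import Pool.Agent.H.MP_5fffd4_al.TreeN
import Pool.Agent.H.MP_5fffd4_al.Window

set_option autoImplicit false

namespace Pool.Agent.H.MP_5fffd4_al

variable {T : Type} {G : Type*} [Group G] {g : BG T} {f : T → G}

/-- Positions of `Q`-boundaries, nonlinear class. There is a finite set `F` such that for all
`A ∈ Q` and all words `u` derived from `A` by a bounded derivation, every prefix value of `u` is in
`P1 A * F * (words of length ≤ 2 l + 1)`.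

Proof. For `A, B ∈ Q` choose `(m, m') ∈ Mor A B` (exists by `hQ.eqv`), and for every `A ∈ Q` which
derives a word choose such a word `e_A`; let `F` be the finite set of all `m` and all
`ev e_A * m'⁻¹`. `boundary` gives for the cut `u = s ++ t` a node `B ∈ Q`, `Ctx A B x' y'`,
`Der B u'`, `u = x' ++ u' ++ y'`.
First alternative `s = x' ++ s'`: `ev x' * m⁻¹ ∈ P1 A` (`mor_P1`), so
`ev s = (ev x' * m⁻¹) * m * ev s'`.
Second alternative `s = x' ++ u' ++ s'`: `ev (x' ++ u') = ev u * (ev y')⁻¹`;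
`ev u = λ * ev e_A` with `λ ∈ Lg A ≤ P1 A` (`nl_left`); `m'⁻¹ * ev y' ∈ P2 A`
(`mor_P2`), so `(ev y')⁻¹ = y0 * m'⁻¹` with `y0 ∈ P2 A`; `ev e_A * y0 * (ev e_A)⁻¹ ∈ P1 A`
(`nl_P`). So `ev (x' ++ u') = λ * (ev e_A * y0 * (ev e_A)⁻¹) * (ev e_A * m'⁻¹)`. -/
theorem positionsN [Finite T] (hs : Setup g f) (hN : Finite g.N) {P Q : Set g.N}
    (hQ : Cls g P Q) (hnl : ¬ Lin g Q) (l : ℕ) :
    ∃ F : Set G, F.Finite ∧ ∀ A ∈ Q, ∀ u, BDer g P l A u → ∀ s t, u = s ++ t →
      ∃ h ∈ P1 g f A, ∃ φ ∈ F, ∃ r : List T, r.length ≤ 2 * l + 1 ∧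
        ev f s = h * φ * ev f r := by
  classical
  have hm0 : ∀ A B : g.N, ∃ m m' : G, Eqv g A B → Mor g f A B m m' := by
    intro A B
    by_cases h : Eqv g A B
    · obtain ⟨⟨a, b, hc⟩, _⟩ := h
      exact ⟨ev f a, ev f b, fun _ => mor_of_ctx hc⟩
    · exact ⟨1, 1, fun h' => absurd h' h⟩
  choose m m' hm using hm0
  have he0 : ∀ A : g.N, ∃ e : List T, (∃ u, Der g A u) → Der g A e := by
    intro A
    by_cases h : ∃ u, Der g A u
    · obtain ⟨u, hu⟩ := h
      exact ⟨u, fun _ => hu⟩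
    · exact ⟨[], fun h' => absurd h' h⟩
  choose e he using he0
  refine ⟨Set.range (fun p : g.N × g.N => m p.1 p.2) ∪
    Set.range (fun p : g.N × g.N => ev f (e p.1) * (m' p.1 p.2)⁻¹),
    (Set.finite_range _).union (Set.finite_range _), ?_⟩
  intro A hA u hd s t hu
  obtain ⟨B, hB, x', u', y', s', hctx, hder, huu, hlen, halt⟩ := boundary hQ hA hd s t hu
  have hAB : Eqv g A B := hQ.eqv A hA B hB
  have h1 : Mor g f A B (m A B) (m' A B) := hm A B hAB
  have h2 : Mor g f A B (ev f x') (ev f y') := mor_of_ctx hctx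
  rcases halt with hs' | hs'
  · refine ⟨ev f x' * (m A B)⁻¹, mor_P1 hs hAB h1 h2, m A B, Or.inl ⟨(A, B), rfl⟩, s', hlen, ?_⟩
    rw [hs', ev_append, inv_mul_cancel_right]
  · have hdu : Der g A u := hd.der
    have heA : Der g A (e A) := he A ⟨u, hdu⟩
    have h3 : ev f u * (ev f (e A))⁻¹ ∈ P1 g f A :=
      AlgN_Lg_le hs A (nl_left hs hQ hnl hA heA hdu)
    have h4 : (ev f y')⁻¹ * m' A B ∈ P2 g f A := mor_P2 hs hAB h2 h1
    have h5 : ev f (e A) * ((ev f y')⁻¹ * m' A B) * (ev f (e A))⁻¹ ∈ P1 g f A :=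
      nl_P hs hQ hnl hA heA h4
    refine ⟨_, (P1 g f A).mul_mem h3 h5, ev f (e A) * (m' A B)⁻¹, Or.inr ⟨(A, B), rfl⟩, s', hlen,
      ?_⟩
    rw [hs', huu]
    simp only [ev_append]
    group

/-- STAGE 2, nonlinear class. Proof. Apply `window` with `HH = {P1 g f A}` (finite set, `g.N` finite),
`F` from `positionsN`, and `2 l + 1`. Let `l2 = c`. For a node `(A; x, u, y)` of a word `w` of `V'*`
with `(cj (ev x) (P1 A)).relIndex = 0`: apply the conclusion of `window` to `a = x`, `z = u`,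
`b = y`, `b0 = ev x`, using `bder_of_node` and `positionsN`; so `u.length ≤ c`. Hence for
`u.length > c` the relative index of `cj (ev x) (P1 A)` is not 0; and
`cj (ev (x ++ u)) (P2 A) = cj (ev x) (cj (ev u) (P2 A)) = cj (ev x) (P1 A)` by `nl_cj`. -/
theorem stage2N [Finite T] (hs : Setup g f) (hN : Finite g.N) {P Q : Set g.N}
    (hQ : Cls g P Q) (hnl : ¬ Lin g Q) {V : Set (List T)} (hV : Good f V) {l : ℕ}
    (hb : Bdd g f V P l) :
    ∃ V' : Set (List T), Good f V' ∧ (∀ v ∈ V', Star V v) ∧ ∃ l2, S2 g f V' Q l2 := by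
  obtain ⟨F, hF, hpos⟩ := positionsN hs hN hQ hnl l
  obtain ⟨V', hV', hVV', hGam, c, hc⟩ := window hs.tor hV (Set.range (P1 g f))
    (Set.finite_range _) F hF (2 * l + 1)
  refine ⟨V', hV', hVV', c, ?_⟩
  intro w hw hne A hA x u y hn hlen
  have hbd : BDer g P l A u :=
    bder_of_node (fun A hA x u y hn => hb w (Star.mono hVV' hw) hne A hA x u y hn) hn
  have h1 : (cj (ev f x) (P1 g f A)).relIndex (Gam f V') ≠ 0 := by
    intro h0
    rw [hGam] at h0
    have h2 := hc w hw x u y hn.eq (P1 g f A) ⟨A, rfl⟩ (ev f x) h0 (fun s t hst => by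
      obtain ⟨h, hh, φ, hφ, r, hr, he⟩ := hpos A hA u hbd s t hst
      refine ⟨h, hh, φ, hφ, r, hr, ?_⟩
      rw [ev_append, he]
      simp only [mul_assoc])
    omega
  refine ⟨h1, ?_⟩
  rw [ev_append, ← cj_cj, nl_cj hs hQ hnl hA hn.der]
  exact h1

end Pool.Agent.H.MP_5fffd4_al
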