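import Pool.Agent.H.MP_5fffd4_al.Grp

set_option autoImplicit false

namespace Pool.Agent.H.MP_5fffd4_al

variable {G : Type*} [Group G]

theorem SplitG_conj {Y H : Subgroup G} (h : Nrm Y H) {p z : G} (hp : p ∈ Y) (hz : z ∈ H) :
    p * z * p⁻¹ ∈ H := by
  have h1 := h p hp
  rw [← h1, mem_cj]
  simpa [mul_assoc] using hz

theorem SplitG_nrm {Y H : Subgroup G} (h : ∀ p ∈ Y, ∀ z ∈ H, p * z * p⁻¹ ∈ H) : Nrm Y H := by
  intro p hp
  ext z
  rw [mem_cj]
  constructor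
  · intro hz
    have h1 := h p hp _ hz
    simpa [mul_assoc] using h1
  · intro hz
    have h1 := h p⁻¹ (Y.inv_mem hp) _ hz
    simpa [mul_assoc] using h1

theorem SplitG_inf {Y K : Subgroup G} (h : Nrm Y K) : Nrm Y (K ⊓ Y) :=
  SplitG_nrm fun p hp z hz => ⟨SplitG_conj h hp hz.1,
    Y.mul_mem (Y.mul_mem hp hz.2) (Y.inv_mem hp)⟩

theorem SplitG_sup {Y A B : Subgroup G} (hA : Nrm Y A) (hB : Nrm Y B) : Nrm Y (A ⊔ B) := by
  intro p hp
  have h : cj p (A ⊔ B) = cj p A ⊔ cj p B := Subgroup.map_sup _ _ _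
  rw [h, hA p hp, hB p hp]

theorem SplitG_mem_sup {A B : Subgroup G} (h : ∀ p ∈ A, ∀ z ∈ B, p * z * p⁻¹ ∈ B) {x : G}
    (hx : x ∈ A ⊔ B) : ∃ a ∈ A, ∃ b ∈ B, x = a * b := by
  rw [Subgroup.sup_eq_closure] at hx
  induction hx using Subgroup.closure_induction with
  | mem x hx =>
    rcases hx with hx | hx
    · exact ⟨x, hx, 1, B.one_mem, by rw [mul_one]⟩
    · exact ⟨1, A.one_mem, x, hx, by rw [one_mul]⟩
  | one => exact ⟨1, A.one_mem, 1, B.one_mem, by rw [mul_one]⟩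
  | mul x y _ _ hx hy =>
    obtain ⟨a, ha, b, hb, rfl⟩ := hx
    obtain ⟨a', ha', b', hb', rfl⟩ := hy
    refine ⟨a * a', A.mul_mem ha ha', (a'⁻¹ * b * a') * b', B.mul_mem ?_ hb', by group⟩
    have h1 := h a'⁻¹ (A.inv_mem ha') b hb
    rwa [inv_inv] at h1
  | inv x _ hx =>
    obtain ⟨a, ha, b, hb, rfl⟩ := hx
    exact ⟨a⁻¹, A.inv_mem ha, a * b⁻¹ * a⁻¹, h a ha _ (B.inv_mem hb), by group⟩

/-- The second isomorphism theorem. -/
theorem SplitG_relIndex {Y Θ Z : Subgroup G} (hΘ : Θ ≤ Y) (hZ : Z ≤ Y) (hn : Nrm Y Θ) :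
    Θ.relIndex (Θ ⊔ Z) = Θ.relIndex Z := by
  have : (Θ.subgroupOf Y).Normal := by
    constructor
    rintro ⟨z, hzY⟩ hz ⟨p, hp⟩
    rw [Subgroup.mem_subgroupOf] at hz ⊢
    exact SplitG_conj hn hp hz
  rw [← Subgroup.relIndex_subgroupOf (sup_le hΘ hZ), ← Subgroup.relIndex_subgroupOf hZ,
    Subgroup.subgroupOf_sup hΘ hZ, Subgroup.relIndex_sup_left]

/-- SPLITTING LEMMA (replaces local finiteness). `Y1` infinite and finitely generated, `TT` a finite
set of subgroups normalised by `Y1`. There are `Y ≤ Y1` finitely generated and `Θ ≤ Y` normalised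
by `Y`, of infinite index in `Y`, such that every `K ∈ TT` either contains `Y` or satisfies
`K ∩ Y ≤ Θ`.

Proof by induction on the finite set `TT`. Empty: `Y = Y1`, `Θ = ⊥` (infinite index as `Y1` is
infinite). Step (`insert K TT`): let `(Y, Θ)` be a pair for `TT`, `M = (K ⊓ Y) ⊔ Θ`; both
`K ⊓ Y` and `Θ` are normalised by `Y`, so `M` is, and every element of `M` is a product `t * θ`.
Case 1: `M.relIndex Y = 0`: the pair `(Y, M)` works.
Case 2: `M.relIndex Y ≠ 0`: `M` is finitely generated (`fg_of_relIndex`), `M = closure {h_i}`,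
`h_i = t_i θ_i` with `t_i ∈ K ⊓ Y`, `θ_i ∈ Θ`. Let `Y' = closure {t_i} ≤ K ⊓ Y`, `Θ' = Θ ⊓ Y'`.
`Y' ≤ K`; for the other members `K' ∈ TT`: `Y ≤ K'` gives `Y' ≤ K'`; `K' ⊓ Y ≤ Θ` gives
`K' ⊓ Y' ≤ Θ ⊓ Y'`. `Y' ⊔ Θ = M`, so `Θ'.relIndex Y' = Θ.relIndex M` (second isomorphism
theorem, or `Subgroup.relIndex_sup_right`-type lemmas: `Θ.relIndex (Y' ⊔ Θ) = Θ.relIndex Y'` for `Θ`
normalised by `Y'`), which is 0 by `relIndex_zero_of`. -/
theorem split_list (Y1 : Subgroup G) (hfg : Y1.FG) (hinf : (Y1 : Set G).Infinite)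
    (TT : Set (Subgroup G)) (hTT : TT.Finite) (hn : ∀ K ∈ TT, Nrm Y1 K) :
    ∃ Y Θ : Subgroup G, Y ≤ Y1 ∧ Y.FG ∧ Θ ≤ Y ∧ Nrm Y Θ ∧ Θ.relIndex Y = 0 ∧
      ∀ K ∈ TT, Y ≤ K ∨ K ⊓ Y ≤ Θ := by
  induction TT, hTT using Set.Finite.induction_on with
  | empty =>
    refine ⟨Y1, ⊥, le_rfl, hfg, bot_le, ?_, ?_, ?_⟩
    · intro p _
      exact Subgroup.map_bot _
    · rw [Subgroup.relIndex_bot_left]
      have : Infinite Y1 := hinf.to_subtype
      exact Nat.card_eq_zero_of_infinite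
    · intro K hK
      exact absurd hK (Set.notMem_empty K)
  | @insert K TT _ _ ih =>
    obtain ⟨Y, Θ, hY1, hYfg, hΘ, hnΘ, hidx, hall⟩ := ih fun K' hK' => hn K' (Or.inr hK')
    have hK : Nrm Y K := fun p hp => hn K (Or.inl rfl) p (hY1 hp)
    have hnM : Nrm Y ((K ⊓ Y) ⊔ Θ) := SplitG_sup (SplitG_inf hK) hnΘ
    have hMY : (K ⊓ Y) ⊔ Θ ≤ Y := sup_le inf_le_right hΘ
    by_cases hM : ((K ⊓ Y) ⊔ Θ).relIndex Y = 0
    · refine ⟨Y, (K ⊓ Y) ⊔ Θ, hY1, hYfg, hMY, hnM, hM, ?_⟩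
      rintro K' (rfl | hK')
      · exact Or.inr le_sup_left
      · rcases hall K' hK' with h | h
        · exact Or.inl h
        · exact Or.inr (h.trans le_sup_right)
    · obtain ⟨S, hS⟩ := fg_of_relIndex hYfg hMY hM
      have hex : ∀ x : G, ∃ a, x ∈ (K ⊓ Y) ⊔ Θ → a ∈ K ⊓ Y ∧ a⁻¹ * x ∈ Θ := by
        intro x
        by_cases hx : x ∈ (K ⊓ Y) ⊔ Θ
        · obtain ⟨a, ha, b, hb, rfl⟩ := SplitG_mem_sup (A := K ⊓ Y) (B := Θ)
            (fun p hp z hz => SplitG_conj hnΘ (Subgroup.mem_inf.1 hp).2 hz) hx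
          exact ⟨a, fun _ => ⟨ha, by rwa [inv_mul_cancel_left]⟩⟩
        · exact ⟨1, fun h => absurd h hx⟩
      choose t ht using hex
      have hSM : ∀ x ∈ S, x ∈ (K ⊓ Y) ⊔ Θ := fun x hx => by
        rw [← hS]
        exact Subgroup.subset_closure hx
      have hY'K : Subgroup.closure (t '' (S : Set G)) ≤ K ⊓ Y := by
        rw [Subgroup.closure_le]
        rintro _ ⟨x, hx, rfl⟩
        exact (ht x (hSM x hx)).1
      have hsup : Θ ⊔ Subgroup.closure (t '' (S : Set G)) = (K ⊓ Y) ⊔ Θ := by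
        apply le_antisymm
        · exact sup_le le_sup_right (hY'K.trans le_sup_left)
        · rw [← hS, Subgroup.closure_le]
          intro x hx
          have h1 : t x ∈ Θ ⊔ Subgroup.closure (t '' (S : Set G)) :=
            le_sup_right (a := Θ) (Subgroup.subset_closure ⟨x, hx, rfl⟩)
          have h2 : (t x)⁻¹ * x ∈ Θ ⊔ Subgroup.closure (t '' (S : Set G)) :=
            le_sup_left (b := Subgroup.closure (t '' (S : Set G))) (ht x (hSM x hx)).2
          have h3 := Subgroup.mul_mem _ h1 h2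
          rwa [mul_inv_cancel_left] at h3
      have hY'Y : Subgroup.closure (t '' (S : Set G)) ≤ Y := hY'K.trans inf_le_right
      refine ⟨Subgroup.closure (t '' (S : Set G)), Θ ⊓ Subgroup.closure (t '' (S : Set G)),
        hY'Y.trans hY1, ?_, inf_le_right, ?_, ?_, ?_⟩
      · classical
        exact ⟨S.image t, by rw [Finset.coe_image]⟩
      · refine SplitG_nrm fun p hp z hz => ⟨SplitG_conj hnΘ (hY'Y hp) hz.1, ?_⟩
        exact Subgroup.mul_mem _ (Subgroup.mul_mem _ hp hz.2) (Subgroup.inv_mem _ hp)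
      · rw [Subgroup.inf_relIndex_right, ← SplitG_relIndex hΘ hY'Y hnΘ, hsup]
        exact relIndex_zero_of le_sup_right hMY hidx hM
      · rintro K' (rfl | hK')
        · exact Or.inl (hY'K.trans inf_le_left)
        · rcases hall K' hK' with h | h
          · exact Or.inl (hY'Y.trans h)
          · exact Or.inr (le_inf ((inf_le_inf_left K' hY'Y).trans h) inf_le_right)

end Pool.Agent.H.MP_5fffd4_al
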