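import Pool.Agent.H.MP_5fffd4_al.Words

set_option autoImplicit false

namespace Pool.Agent.H.MP_5fffd4_al

variable {T : Type} {G : Type*} [Group G] {f : T → G}

/-- Realising finitely generated subgroups by words: `H = closure S` with `S` finite; remove 1
from `S`; choose for each `s ∈ S` a word of `V*` with value `s` (`mem_Gam`), it is not empty. -/
theorem realize (htor : ∀ x : G, IsOfFinOrder x) {V : Set (List T)} {H : Subgroup G}
    (hH : H ≤ Gam f V) (hfg : H.FG) :
    ∃ V' : Set (List T), V'.Finite ∧ [] ∉ V' ∧ (∀ v ∈ V', Star V v) ∧ Gam f V' = H := by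
  classical
  obtain ⟨S, hS, hSf⟩ := (Subgroup.fg_iff H).1 hfg
  have h1 : ∀ s : G, ∃ w : List T, s ∈ H → Star V w ∧ ev f w = s := by
    intro s
    by_cases hs : s ∈ H
    · obtain ⟨w, hw⟩ := (mem_Gam htor).1 (hH hs)
      exact ⟨w, fun _ => hw⟩
    · exact ⟨[], fun h => absurd h hs⟩
  choose W hW using h1
  have hSH : ∀ s ∈ S, s ∈ H := by
    intro s hs
    rw [← hS]
    exact Subgroup.subset_closure hs
  refine ⟨W '' (S \ {1}), (hSf.sdiff).image W, ?_, ?_, ?_⟩
  · rintro ⟨s, ⟨hs, hs1⟩, hsW⟩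
    have h2 := (hW s (hSH s hs)).2
    rw [hsW, ev_nil] at h2
    exact hs1 h2.symm
  · rintro _ ⟨s, ⟨hs, -⟩, rfl⟩
    exact (hW s (hSH s hs)).1
  · have h2 : ev f '' (W '' (S \ {1})) = S \ {1} := by
      ext z
      constructor
      · rintro ⟨_, ⟨s, hs, rfl⟩, rfl⟩
        rw [(hW s (hSH s hs.1)).2]
        exact hs
      · intro hz
        exact ⟨W z, ⟨z, hz, rfl⟩, (hW z (hSH z hz.1)).2⟩
    rw [Gam, h2, ← hS]
    refine le_antisymm (Subgroup.closure_mono Set.sdiff_subset) ((Subgroup.closure_le _).2 ?_)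
    intro s hs
    by_cases h3 : s = 1
    · rw [h3]
      exact Subgroup.one_mem _
    · exact Subgroup.subset_closure ⟨hs, h3⟩

/-- `{U ++ v | v ∈ V or v = []}` -/
def blk (U : List T) (V : Set (List T)) : Set (List T) := {x | ∃ v, (v ∈ V ∨ v = []) ∧ x = U ++ v}

theorem blk_finite {U : List T} {V : Set (List T)} (hV : V.Finite) : (blk U V).Finite := by
  refine ((hV.insert []).image fun v => U ++ v).subset ?_
  rintro x ⟨v, hv, rfl⟩
  refine ⟨v, ?_, rfl⟩
  rcases hv with hv | hv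
  · exact Set.mem_insert_of_mem _ hv
  · rw [hv]
    exact Set.mem_insert _ _

theorem nil_notMem_blk {U : List T} {V : Set (List T)} (hU : U ≠ []) : [] ∉ blk U V := by
  rintro ⟨v, -, h⟩
  exact hU (List.append_eq_nil_iff.1 h.symm).1

theorem blk_star {U : List T} {V : Set (List T)} (hU : Star V U) : ∀ v ∈ blk U V, Star V v := by
  rintro _ ⟨v, hv, rfl⟩
  rcases hv with hv | hv
  · exact hU.append (Star.of_mem hv)
  · rw [hv]
    exact hU.append (Star.nil V)

/-- `Gam (blk U V)` contains `ev U` and `ev U * ev v`, so `ev v`. -/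
theorem Gam_blk {U : List T} {V : Set (List T)} (hU : Star V U) :
    Gam f (blk U V) = Gam f V := by
  refine le_antisymm (Gam_mono (blk_star hU)) ((Subgroup.closure_le _).2 ?_)
  rintro _ ⟨v, hv, rfl⟩
  have h1 : ev f U ∈ Gam f (blk U V) :=
    Subgroup.subset_closure ⟨U, ⟨[], Or.inr rfl, (List.append_nil U).symm⟩, rfl⟩
  have h2 : ev f (U ++ v) ∈ Gam f (blk U V) :=
    Subgroup.subset_closure ⟨U ++ v, ⟨v, Or.inl hv, rfl⟩, rfl⟩
  have h3 := (Gam f (blk U V)).mul_mem ((Gam f (blk U V)).inv_mem h1) h2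
  rwa [ev_append, inv_mul_cancel_left] at h3

theorem Bdd.mono {g : BG T} {V V' : Set (List T)} {P : Set g.N} {l : ℕ} (h : Bdd g f V P l)
    (hV : ∀ v ∈ V', Star V v) : Bdd g f V' P l :=
  fun w hw hne => h w (hw.mono hV) hne

end Pool.Agent.H.MP_5fffd4_al
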