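import Pool.Agent.H.MP_5fffd4_al.Alg2
import Pool.Agent.H.MP_5fffd4_al.Words2
import Pool.Agent.H.MP_5fffd4_al.SplitG

set_option autoImplicit false

namespace Pool.Agent.H.MP_5fffd4_al

variable {T : Type} {G : Type*} [Group G] {g : BG T} {f : T → G}

/-- A normalised conjugate by the value of an initial part of a word of `V*` is a conjugate by the value
of a short word. -/
theorem stage3b_short {V : Set (List T)} {c : ℕ} (hc : ∀ v ∈ V, v.length ≤ c) {w a b : List T}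
    (hw : Star V w) (h : w = a ++ b) {H : Subgroup G} (hn : Nrm (Gam f V) (cj (ev f a) H)) :
    ∃ o : List T, o.length ≤ c ∧ cj (ev f a) H = cj (ev f o) H := by
  obtain ⟨a0, o, h1, h2, h3⟩ := star_prefix hc hw h
  refine ⟨o, h3, ?_⟩
  have h4 := hn (ev f a0)⁻¹ ((Gam f V).inv_mem (ev_mem_Gam h2))
  rw [← h4, h1, ev_append, cj_cj, inv_mul_cancel_left]

/-- STAGE 3b. Proof. `c` a bound for the lengths in `V`, `Y1 = Gam f V`. Let `TT` be the finite set
of all subgroups `K` of the form `cj (ev o) (Rg A)` or `cj (ev o) (Lg A)` with `o.length ≤ c`,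
`A : g.N`, which are normalised by `Y1`. `split_list` gives `Y`, `Θ`; `realize` gives `V'` with
`Gam f V' = Y` (infinite: `Θ` has infinite index in `Y`). Let `w` be in `V'*`, `(A; x, u, y)` a long
`Q`-node. `x ++ u = a0 ++ o`, `ev a0 ∈ Y1` and `K1 = cj (ev (x ++ u)) (Rg A)` is
normalised by `Y1` (hypothesis), so `K1 = cj (ev a0)⁻¹ K1 = cj (ev o) (Rg A) ∈ TT`. `Y ≤ K1` is
impossible (`ev w ∈ Y`, `excl_R`), so `K1 ⊓ Y ≤ Θ`; `Nrm Y K1` as `Y ≤ Y1`. Same for `Lg`. -/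
theorem stage3b [Finite T] (hs : Setup g f) (hN : Finite g.N) {Q : Set g.N}
    {V : Set (List T)} (hV : Good f V) {l2 : ℕ}
    (h2 : ∀ w, Star V w → ev f w ≠ 1 → ∀ A ∈ Q, ∀ x u y, Node g w A x u y → l2 < u.length →
        Nrm (Gam f V) (cj (ev f (x ++ u)) (Rg g f A)) ∧
        Nrm (Gam f V) (cj (ev f x) (Lg g f A))) :
    ∃ V' : Set (List T), Good f V' ∧ (∀ v ∈ V', Star V v) ∧
      ∃ Θ : Subgroup G, Quo f V' Θ ∧ S3 g f V' Q l2 Θ := by
  obtain ⟨c, -, hc⟩ := exists_len hV.fin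
  set TT : Set (Subgroup G) := {K | Nrm (Gam f V) K ∧ ∃ o : List T, o.length ≤ c ∧ ∃ A : g.N,
    K = cj (ev f o) (Rg g f A) ∨ K = cj (ev f o) (Lg g f A)} with hTT
  have hfin : TT.Finite := by
    have h3 : {o : List T | o.length ≤ c}.Finite := List.finite_length_le T c
    have h4 : ((fun q : List T × g.N => cj (ev f q.1) (Rg g f q.2)) ''
        ({o : List T | o.length ≤ c} ×ˢ Set.univ)).Finite :=
      (h3.prod Set.finite_univ).image _
    have h5 : ((fun q : List T × g.N => cj (ev f q.1) (Lg g f q.2)) ''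
        ({o : List T | o.length ≤ c} ×ˢ Set.univ)).Finite :=
      (h3.prod Set.finite_univ).image _
    refine (h4.union h5).subset ?_
    rintro K ⟨-, o, ho, A, hK | hK⟩
    · exact Or.inl ⟨(o, A), ⟨ho, Set.mem_univ A⟩, hK.symm⟩
    · exact Or.inr ⟨(o, A), ⟨ho, Set.mem_univ A⟩, hK.symm⟩
  obtain ⟨Y, Θ, hYV, hYfg, hΘ, hnΘ, hidx, hall⟩ :=
    split_list (Gam f V) (Gam_fg hV.fin) hV.inf TT hfin fun K hK => hK.1
  obtain ⟨V', hV'f, hV'n, hV's, hV'Y⟩ := realize hs.tor hYV hYfg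
  have hYinf : (Y : Set G).Infinite := by
    intro hYf
    have : Finite Y := hYf
    exact Subgroup.index_ne_zero_of_finite hidx
  refine ⟨V', ⟨hV'f, hV'n, by rw [hV'Y]; exact hYinf⟩, hV's, Θ,
    ⟨by rw [hV'Y]; exact hΘ, by rw [hV'Y]; exact hnΘ, by rw [hV'Y]; exact hidx⟩, ?_⟩
  intro w hw hne A hA x u y hnode hlen
  have hwV : Star V w := hw.mono hV's
  have hwY : ev f w ∈ Y := by
    rw [← hV'Y]
    exact ev_mem_Gam hw
  obtain ⟨n1, n2⟩ := h2 w hwV hne A hA x u y hnode hlen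
  obtain ⟨o1, ho1, e1⟩ := stage3b_short hc hwV hnode.eq n1
  obtain ⟨o2, ho2, e2⟩ := stage3b_short hc hwV
    (show w = x ++ (u ++ y) by rw [hnode.eq, List.append_assoc]) n2
  rw [hV'Y]
  refine ⟨?_, ?_, fun p hp => n1 p (hYV hp), fun p hp => n2 p (hYV hp)⟩
  · rcases hall _ ⟨n1, o1, ho1, A, Or.inl e1⟩ with h3 | h3
    · exact absurd (h3 hwY) (excl_R hs hnode)
    · exact h3
  · rcases hall _ ⟨n2, o2, ho2, A, Or.inr e2⟩ with h3 | h3
    · exact absurd (h3 hwY) (excl_L hs hnode)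
    · exact h3

end Pool.Agent.H.MP_5fffd4_al
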