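import Pool.Agent.H.MP_5fffd4_al.Stage3a
import Pool.Agent.H.MP_5fffd4_al.Stage3b

set_option autoImplicit false

namespace Pool.Agent.H.MP_5fffd4_al

variable {T : Type} {G : Type*} [Group G] {g : BG T} {f : T → G}

theorem stage3 [Finite T] (hs : Setup g f) (hN : Finite g.N) {Q : Set g.N}
    {V : Set (List T)} (hV : Good f V) {l2 : ℕ} (h2 : S2 g f V Q l2) :
    ∃ V' : Set (List T), Good f V' ∧ (∀ v ∈ V', Star V v) ∧
      ∃ Θ : Subgroup G, Quo f V' Θ ∧ S3 g f V' Q l2 Θ := by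
  obtain ⟨V1, hV1, hs1, h3⟩ := stage3a hs hN hV h2
  obtain ⟨V2, hV2, hs2, h4⟩ := stage3b hs hN hV1 h3
  exact ⟨V2, hV2, fun v hv => (hs2 v hv).mono hs1, h4⟩

end Pool.Agent.H.MP_5fffd4_al
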