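import Pool.Agent.H.MP_5fffd4_al.SplitR
import Pool.Agent.H.MP_5fffd4_al.Bad
import Pool.Agent.H.MP_5fffd4_al.LocB

set_option autoImplicit false

namespace Pool.Agent.H.MP_5fffd4_al

universe u

variable {T : Type} {G : Type u} [Group G] {g : BG T} {f : T → G}

theorem Right_cj (hs : Setup g f) {A C : g.N} (hAC : Eqv g A C) {a b : G}
    (hm : Mor g f A C a b) {P p s : G} {Y : Subgroup G} (hp : p ∈ Y)
    (hN : Nrm Y (cj P (Rg g f A))) (hP : P = p * s⁻¹ * b) :
    cj s⁻¹ (Rg g f C) = cj P (Rg g f A) := by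
  have h1 := cj_Rg hs hAC hm
  have h2 : cj P (Rg g f A) = cj p (cj s⁻¹ (Rg g f C)) := by
    rw [← h1, cj_cj, cj_cj, hP]
    congr 1
    group
  have h3 := hN p⁻¹ (Y.inv_mem hp)
  rw [← h3, h2, cj_cj, inv_mul_cancel, cj_one]

theorem Right_flatten_le {L : List (List T)} {m : ℕ} (h : ∀ z ∈ L, z.length ≤ m) :
    L.flatten.length ≤ m * L.length := by
  induction L with
  | nil => simp
  | cons a L ih =>
    have h1 := ih fun z hz => h z (List.mem_cons_of_mem _ hz)
    have h2 := h a List.mem_cons_self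
    rw [List.flatten_cons, List.length_append, List.length_cons, Nat.mul_succ]
    omega

theorem Right_rest_le {zs : List (List T)} {m c q : ℕ} {t : List T}
    (h : ∀ z ∈ zs, z.length ≤ m) (hq : q + 1 < zs.length) (ht : t.length ≤ c) :
    (rest zs q t).length ≤ m * zs.length + c := by
  unfold rest
  rw [List.length_append, List.length_append]
  have h1 := Right_flatten_le (L := zs.drop (q + 2)) (m := m)
    fun z hz => h z (List.mem_of_mem_drop hz)
  have h2 := Right_flatten_le (L := zs.take q) (m := m)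
    fun z hz => h z (List.mem_of_mem_take hz)
  rw [List.length_drop] at h1
  rw [List.length_take] at h2
  have h3 : m * (zs.length - (q + 2)) + m * min q zs.length ≤ m * zs.length := by
    rw [← Nat.mul_add]
    exact Nat.mul_le_mul_left m (by omega)
  omega

theorem Right_star_flatten {V : Set (List T)} {zs : List (List T)} (h : ∀ z ∈ zs, Star V z) :
    Star V zs.flatten := by
  induction zs with
  | nil => exact Star.nil V
  | cons a L ih =>
    rw [List.flatten_cons]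
    exact (h a List.mem_cons_self).append (ih fun z hz => h z (List.mem_cons_of_mem _ hz))

/-- No long right part for a good tuple.

Proof. Write `zq = zs.getD q []`, `zq' = zs.getD (q+1) []`. `two_blocks_before` with `a1 = x`,
`a2 = x' ++ u'`, `z = y'`, `b = y` gives `q, s1, s2, t, e`: `y' = s1 ++ zq ++ zq' ++ s2`,
`rest zs q t = e ++ (x' ++ u' ++ s1)`.
Chain nodes, inner one first: `splitR` for `BCtx A B x' y'` and the cut `s1`: `Cc ∈ Q`,
`x' = x1 ++ x2`, `y' = y2 ++ y1`, `s1 = y2 ++ sc`, `BCtx A Cc x1 y1`, `BCtx Cc B x2 y2`, so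
`y1 = sc ++ zq ++ zq' ++ s2` (`Cc` derives `x2 ++ u' ++ y2`).
`splitR` for `BCtx A Cc x1 y1` and the cut `sc ++ zq`: `Cb ∈ Q`, `x1 = x3 ++ x4`, `y1 = y4 ++ y3`,
`sc ++ zq = y4 ++ sb`, `BCtx A Cb x3 y3`, `BCtx Cb Cc x4 y4`, `y3 = sb ++ zq' ++ s2`.
`splitR` for `BCtx A Cb x3 y3` and the cut `sb ++ zq'`: `Ca ∈ Q`, `x3 = x5 ++ x6`,
`sb ++ zq' = y6 ++ sa`, `BCtx Ca Cb x6 y6`.
So `rest zs q t = (e ++ x5) ++ x6 ++ x4 ++ (x2 ++ u' ++ s1)`; with `i = (e ++ x5).length`,
`j = i + x6.length`, `k = j + x4.length`: `subw rest i j = x6`, `subw rest j k = x4`,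
`k ≤ (rest zs q t).length ≤ 2 n c m + c`.
`ev y4 = ev sc * ev zq * (ev sb)⁻¹`, `ev y6 = ev sb * ev zq' * (ev sa)⁻¹`:
`rhoR Cc Cb (ev y4) (ev x4)` (this is `Mor Cb Cc (ev x4) (ev y4)`) and
`rhoR Cb Ca (ev y6) (ev x6)`; so `D0 = Cc`, `D1 = Cb`, `D2 = Ca`, `s0 = sc`, `s1 = sb`, `s2 = sa`.
Subgroup conditions: `RR = cj (ev (x ++ u)) (Rg A)`; `S3` gives `RR ⊓ Gam f V ≤ Θ` and
`Nrm (Gam f V) RR`. `Rg A = cj (ev y1)⁻¹ (Rg Cc)` (`cj_Rg`) and
`ev (x ++ u) = ev (x ++ x' ++ u' ++ y2) * ev y1`, so `RR = cj (ev (x ++ x' ++ u' ++ y2)) (Rg Cc)`;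
with `p = ev (x ++ (x' ++ u') ++ s1) ∈ Gam f V`: `RR = cj (p * (ev sc)⁻¹) (Rg Cc)`, so
`cj (ev sc)⁻¹ (Rg Cc) = cj p⁻¹ RR = RR`. Likewise for `Cb` with `p = ev (x ++ (x' ++ u') ++ s1 ++ zq)`.
So `BadP` holds for `rhoR`, contradicting `GoodT`. -/
theorem no_right (hs : Setup g f) {P Q : Set g.N} (hQ : Cls g P Q) (hlin : Lin g Q)
    {V : Set (List T)} (hV : Good f V) {l l2 c n : ℕ} (hc : ∀ v ∈ V, v.length ≤ c)
    {Θ : Subgroup G} (hΘ : Quo f V Θ) (h3 : S3 g f V Q l2 Θ) {zs : List (List T)}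
    (hn : 1 ≤ n) (hz : ∀ z ∈ zs, Star V z ∧ n ≤ z.length ∧ z.length ≤ 2 * n * c)
    (hK : 4 ≤ zs.length) (hg : GoodT g f Q V Θ l (2 * n * c * zs.length + c) zs)
    {w : List T} (hw : Star (blk zs.flatten V) w) (hne : ev f w ≠ 1) {A B : g.N} (hA : A ∈ Q)
    (hB : B ∈ Q) {x u y x' u' y' : List T} (hn' : Node g w A x u y) (hl2 : l2 < u.length)
    (hctx : BCtx g P l A B x' y') (hd : Der g B u') (hu : u = x' ++ u' ++ y')
    (h6 : 6 * (2 * n * c) + 1 ≤ y'.length) (hlen : u.length ≤ (zs.length - 2) * n) : False := by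
  have hwV : Star V w :=
    Star.mono (blk_star (Right_star_flatten fun z hz' => (hz z hz').1)) hw
  obtain ⟨hR1, -, hR3, -⟩ := h3 w hwV hne A hA x u y hn' hl2
  have hcc : c ≤ 2 * n * c := Nat.le_mul_of_pos_left c (by omega)
  have hweq : w = x ++ (x' ++ u') ++ y' ++ y := by
    rw [hn'.eq, hu]
    simp only [List.append_assoc]
  obtain ⟨q, s1, s2, t, e, hq, ht, hy', hst1, hst2, hrest⟩ :=
    two_blocks_before (a1 := x) (a2 := x' ++ u') (z := y') (b := y) hz
      (fun v hv => (hc v hv).trans hcc) hK hw hweq h6 (by rw [← hu]; exact hlen)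
  -- first cut
  obtain ⟨Cc, hCc, x1, x2, y1, y2, sc, c1, c2, ex1, ey1, es1, hsc⟩ :=
    splitR hQ hlin hA hB hctx hd s1 (zs.getD q [] ++ zs.getD (q + 1) [] ++ s2)
      (by rw [hy']; simp only [List.append_assoc])
  have hy1 : y1 = sc ++ zs.getD q [] ++ (zs.getD (q + 1) [] ++ s2) := by
    have h1 : y2 ++ y1 = y2 ++ (sc ++ zs.getD q [] ++ (zs.getD (q + 1) [] ++ s2)) := by
      rw [← ey1, hy', es1]
      simp only [List.append_assoc]
    exact List.append_cancel_left h1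
  have hdc : Der g Cc (x2 ++ u' ++ y2) := c2.ctx.der hd
  -- second cut
  obtain ⟨Cb, hCb, x3, x4, y3, y4, sb, c3, c4, ex3, ey3, es3, hsb⟩ :=
    splitR hQ hlin hA hCc c1 hdc _ _ hy1
  have hy3 : y3 = sb ++ zs.getD (q + 1) [] ++ s2 := by
    have h1 : y4 ++ y3 = y4 ++ (sb ++ zs.getD (q + 1) [] ++ s2) := by
      rw [← ey3, hy1, es3]
      simp only [List.append_assoc]
    exact List.append_cancel_left h1
  have hdb : Der g Cb (x4 ++ (x2 ++ u' ++ y2) ++ y4) := c4.ctx.der hdc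
  -- third cut
  obtain ⟨Ca, hCa, x5, x6, y5, y6, sa, c5, c6, ex5, ey5, es5, hsa⟩ :=
    splitR hQ hlin hA hCb c3 hdb _ _ hy3
  -- the remaining word
  have hr1 : rest zs q t = (e ++ x5) ++ x6 ++ (x4 ++ (x2 ++ u' ++ s1)) := by
    rw [hrest, ex1, ex3, ex5]
    simp only [List.append_assoc]
  have hr2 : rest zs q t = (e ++ x5 ++ x6) ++ x4 ++ (x2 ++ u' ++ s1) := by
    rw [hrest, ex1, ex3, ex5]
    simp only [List.append_assoc]
  have hw1 := subw_of_eq hr1
  have hw2 := subw_of_eq hr2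
  have hlr : (rest zs q t).length ≤ 2 * n * c * zs.length + c := by
    refine Right_rest_le (fun z hz' => (hz z hz').2.2) hq ?_
    rcases ht with ht | ht
    · exact hc t ht
    · rw [ht]
      exact Nat.zero_le _
  have hl3 := congrArg List.length hr2
  simp only [List.length_append] at hl3 hw2
  rw [List.length_append] at hw1
  have hg' := (hg q hq t ht (e.length + x5.length) (e.length + x5.length + x6.length)
    (e.length + x5.length + x6.length + x4.length) (by omega) (by omega) (by omega)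
    Cc Cb Ca sc sb sa hsc hsb hsa).2
  have hey4 : ev f y4 = ev f sc * ev f (zs.getD q []) * (ev f sb)⁻¹ := by
    have h1 := congrArg (ev f) es3
    rw [ev_append, ev_append] at h1
    rw [h1]
    group
  have hey6 : ev f y6 = ev f sb * ev f (zs.getD (q + 1) []) * (ev f sa)⁻¹ := by
    have h1 := congrArg (ev f) es5
    rw [ev_append, ev_append] at h1
    rw [h1]
    group
  refine hg' ⟨?_, ?_, ⟨hCc, hCb, ?_⟩, ⟨hCb, hCa, ?_⟩⟩
  · rw [Right_cj hs (hQ.eqv A hA Cc hCc) (mor_of_ctx c1.ctx) (ev_mem_Gam (f := f) hst1) hR3 ?_]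
    · exact hR1
    · rw [hu, hy', hy1]
      simp only [ev_append]
      group
  · rw [Right_cj hs (hQ.eqv A hA Cb hCb) (mor_of_ctx c3.ctx) (ev_mem_Gam (f := f) hst2) hR3 ?_]
    · exact hR1
    · rw [hu, hy', hy3]
      simp only [ev_append]
      group
  · rw [hw2, ← hey4]
    exact mor_of_ctx c4.ctx
  · rw [hw1, ← hey6]
    exact mor_of_ctx c6.ctx

end Pool.Agent.H.MP_5fffd4_al
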