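import Pool.Agent.H.MP_5fffd4_al.Left
import Pool.Agent.H.MP_5fffd4_al.Right
import Pool.Agent.H.MP_5fffd4_al.GoodTup
import Pool.Agent.H.MP_5fffd4_al.Chain

set_option autoImplicit false

namespace Pool.Agent.H.MP_5fffd4_al

universe u

variable {T : Type} {G : Type u} [Group G] {g : BG T} {f : T → G}

theorem Stage4L_flat {V : Set (List T)} (zs : List (List T)) (h : ∀ z ∈ zs, Star V z) :
    Star V zs.flatten := by
  induction zs with
  | nil => exact Star.nil V
  | cons a zs ih =>
    rw [List.flatten_cons]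
    exact (h a List.mem_cons_self).append (ih fun z hz => h z (List.mem_cons_of_mem _ hz))

/-- STAGE 4, linear class. Proof. `c > 0` a bound for the lengths in `V` (`exists_len`). Let
`m = 24 c + 3 l + 5`, `n0 = l2 + 1`; `exists_goodT` gives `n ≥ n0` and `zs`, `zs.length = m`. Let
`lam = 6 (2 n c) + 1`, `r = 2 lam + 2 l + 1`, `V' = blk zs.flatten V`. `Good f V'`: `blk_finite`,
`nil_notMem_blk` (`zs.flatten ≠ []`: the blocks have length `≥ n ≥ 1`), `Gam_blk`
(`zs.flatten` is in `V*`). Claim `Bdd g f V' Q r`: let `(A; x, u, y)` be a `Q`-node of `w` in `V'*`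
with `u.length > r`. `last_node` (via `bder_of_node`, `Bdd` for `V`) gives `B ∈ Q` and a node
`(B; x ++ x', u', y' ++ y)` with `r < u'.length ≤ r + l`. `stop_node` for it gives `C ∈ Q`,
`BCtx B C x'' y''`, `u' = x'' ++ u'' ++ y''` with `lam ≤ x''.length` or `lam ≤ y''.length`. Then
`no_left` or `no_right` applies (`l2 < n ≤ u'.length`,
`u'.length ≤ r + l = 24 n c + 3 l + 3 ≤ (m - 2) n`). -/
theorem stage4L [Finite T] (hs : Setup g f) (hN : Finite g.N) {P Q : Set g.N}
    (hQ : Cls g P Q) (hlin : Lin g Q) {V : Set (List T)} (hV : Good f V) {l l2 : ℕ}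
    (hb : Bdd g f V P l) {Θ : Subgroup G} (hΘ : Quo f V Θ) (h3 : S3 g f V Q l2 Θ) :
    ∃ V' : Set (List T), Good f V' ∧ (∀ v ∈ V', Star V v) ∧ ∃ l', Bdd g f V' Q l' := by
  obtain ⟨c, hc0, hc⟩ := exists_len hV.fin
  obtain ⟨n, hn0, zs, hm, hz, hg⟩ :=
    exists_goodT hs hN hQ hV hc hΘ l (24 * c + 3 * l + 5) (l2 + 1) (by omega)
  have hn1 : 1 ≤ n := by omega
  have hflat : Star V zs.flatten := Stage4L_flat zs fun z hz' => (hz z hz').1
  have hne0 : zs.flatten ≠ [] := by
    intro h0
    cases zs with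
    | nil =>
      rw [List.length_nil] at hm
      omega
    | cons a zs =>
      rw [List.flatten_cons, List.append_eq_nil_iff] at h0
      have h1 := (hz a List.mem_cons_self).2.1
      rw [h0.1, List.length_nil] at h1
      omega
  have hcn : n ≤ n * c := Nat.le_mul_of_pos_right n hc0
  have hln : l ≤ l * n := Nat.le_mul_of_pos_right l hn1
  refine ⟨blk zs.flatten V, ⟨blk_finite hV.fin, nil_notMem_blk hne0, ?_⟩, blk_star hflat,
    2 * (6 * (2 * n * c) + 1) + 2 * l + 1, ?_⟩
  · rw [Gam_blk hflat]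
    exact hV.inf
  · intro w hw hne A hA x u y hn
    by_contra hcon
    push Not at hcon
    have hb' : Bdd g f (blk zs.flatten V) P l := hb.mono (blk_star hflat)
    have hbd := bder_of_node (fun A hA x u y hn => hb' w hw hne A hA x u y hn) hn
    obtain ⟨B, hB, x', u', y', hc1, hd1, hu1, hl1, hl1'⟩ :=
      last_node hQ hlin hA hbd (m := 2 * (6 * (2 * n * c) + 1) + 2 * l + 1) (by omega) hcon
    have hn2 := hn.sub hc1.ctx hd1.der hu1
    obtain ⟨C, hC, x2, u2, y2, hc2, hd2, hu2, hor⟩ :=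
      stop_node hQ hlin hB hd1 (lam := 6 * (2 * n * c) + 1) (by omega) hl1
    have e1 : 2 * n * c = 2 * (n * c) := by ring
    have hl2 : l2 < u'.length := by omega
    have hlen : u'.length ≤ (zs.length - 2) * n := by
      rw [hm]
      have e2 : 24 * c + 3 * l + 5 - 2 = 24 * c + 3 * l + 3 := by omega
      rw [e2]
      have e3 : (24 * c + 3 * l + 3) * n = 24 * (n * c) + 3 * (l * n) + 3 * n := by ring
      omega
    have hK : 4 ≤ zs.length := by omega
    have hg' : GoodT g f Q V Θ l (2 * n * c * zs.length + c) zs := by rw [hm]; exact hg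
    rcases hor with ⟨h6, -, -⟩ | ⟨h6, -, -⟩
    · exact no_left hs hQ hlin hV hc hΘ h3 hn1 hz hK hg' hw hne hB hC hn2 hl2 hc2 hd2.der hu2 h6
        hlen
    · exact no_right hs hQ hlin hV hc hΘ h3 hn1 hz hK hg' hw hne hB hC hn2 hl2 hc2 hd2.der hu2 h6
        hlen

end Pool.Agent.H.MP_5fffd4_al
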