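import Pool.Agent.H.MP_5fffd4_al.Graph
import Pool.Agent.H.MP_5fffd4_al.MH

set_option autoImplicit false

namespace Pool.Agent.H.MP_5fffd4_al

theorem WS_append {W ι : Type*} {E : W → ι → W → Prop} {a b c : W} {l l' : List ι}
    (h : Walk E Set.univ a b l) (h' : Walk E Set.univ b c l') :
    Walk E Set.univ a c (l ++ l') := by
  induction h with
  | nil a => simpa using h'
  | single hE => exact Walk.cons hE (Set.mem_univ _) h'
  | cons hE hm _ ih => exact Walk.cons hE hm (ih h')

theorem WS_flatten {W ι : Type*} {E : W → ι → W → Prop} {u : W} (L : List (List ι))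
    (h : ∀ l ∈ L, Walk E Set.univ u u l) : Walk E Set.univ u u L.flatten := by
  induction L with
  | nil => exact Walk.nil u
  | cons l L ih =>
    rw [List.flatten_cons]
    exact WS_append (h l (by simp)) (ih (fun l' hl' => h l' (by simp [hl'])))

/-- the vertices: geodesic words of length `M` -/
def WS_V {ι H : Type*} [Monoid H] (e : ι → H) (M : ℕ) : Type _ :=
  {u : List ι // u.length = M ∧ Geo e u}

/-- the edges -/
def WS_E {ι H : Type*} [Monoid H] (e : ι → H) (M : ℕ) (u : WS_V e M) (i : ι)
    (u' : WS_V e M) : Prop := Geo e (u.1 ++ [i]) ∧ u'.1 = (u.1 ++ [i]).tail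

theorem WS_fin {ι H : Type*} [Finite ι] [Monoid H] (e : ι → H) (M : ℕ) : Finite (WS_V e M) := by
  have : {u : List ι | u.length = M ∧ Geo e u}.Finite :=
    (List.finite_length_eq ι M).subset (fun u hu => hu.1)
  exact this

theorem WS_win {ι H : Type*} [Monoid H] (e : ι → H) (M : ℕ) {u v : WS_V e M} {l : List ι}
    (h : Walk (WS_E e M) Set.univ u v l) : ∀ a z b, u.1 ++ l = a ++ z ++ b →
      z.length ≤ M + 1 → Geo e z := by
  induction h with
  | nil u =>
    intro a z b hab _
    rw [List.append_nil] at hab
    have := u.2.2
    rw [hab] at this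
    exact this.mid
  | @single u v i hE =>
    intro a z b hab _
    have := hE.1
    rw [hab] at this
    exact this.mid
  | @cons u v w i l hE _ _ ih =>
    intro a z b hab hz
    cases a with
    | nil =>
      have h1 : (u.1 ++ [i]) ++ l = z ++ b := by
        rw [List.append_assoc]; simpa using hab
      have h2 : z <+: (u.1 ++ [i]) := by
        apply List.prefix_of_prefix_length_le (l₃ := (u.1 ++ [i]) ++ l)
        · rw [h1]; exact List.prefix_append _ _
        · exact List.prefix_append _ _
        · simp only [List.length_append, List.length_singleton]; rw [u.2.1]; exact hz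
      obtain ⟨t, ht⟩ := h2
      have h3 := hE.1
      rw [← ht] at h3
      exact Geo.mid (a := []) (b := t) (by simpa using h3)
    | cons x a =>
      refine ih a z b ?_ hz
      rw [hE.2]
      have h1 : (u.1 ++ [i]) ++ l = x :: (a ++ z ++ b) := by
        rw [List.append_assoc]; simpa using hab
      have h2 : (u.1 ++ [i]) ≠ [] := by simp
      rw [← List.tail_append_of_ne_nil h2, h1, List.tail_cons]

theorem WS_walk {ι H : Type*} [Monoid H] (e : ι → H) (M : ℕ) (l : List ι) :
    ∀ u : WS_V e M, Geo e (u.1 ++ l) → ∃ v, Walk (WS_E e M) Set.univ u v l := by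
  induction l with
  | nil => intro u _; exact ⟨u, Walk.nil u⟩
  | cons i l ih =>
    intro u hu
    have h1 : u.1 ++ i :: l = [] ++ (u.1 ++ [i]) ++ l := by simp
    have h2 : Geo e (u.1 ++ [i]) := by
      rw [h1] at hu; exact hu.mid
    have h3 : (u.1 ++ [i]) ≠ [] := by simp
    obtain ⟨x, t, hxt⟩ : ∃ x t, u.1 ++ [i] = x :: t := by
      cases h : u.1 ++ [i] with
      | nil => exact absurd h h3
      | cons x t => exact ⟨x, t, rfl⟩
    have h4 : Geo e t := by
      rw [hxt] at h2
      exact Geo.mid (a := [x]) (b := []) (by simpa using h2)
    have h5 : t.length = M := by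
      have := congrArg List.length hxt
      simp only [List.length_append, List.length_cons, List.length_nil, u.2.1] at this
      omega
    have h6 : Geo e (t ++ l) := by
      have h7 : u.1 ++ i :: l = [x] ++ (t ++ l) ++ [] := by
        have : u.1 ++ i :: l = (u.1 ++ [i]) ++ l := by simp
        rw [this, hxt]; simp
      rw [h7] at hu; exact hu.mid
    obtain ⟨v, hv⟩ := ih ⟨t, h5, h4⟩ h6
    exact ⟨v, Walk.cons ⟨h2, by rw [hxt]; rfl⟩ (Set.mem_univ _) hv⟩

/-- WINDOW SYSTEM. An infinite group with a finite generating family: for every `M` there is a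
finite set `W` of nonempty words, generating an infinite submonoid, such that in every
concatenation of words of `W` all windows of length at most `M` are geodesic.

Proof: let the vertices be the geodesic words of length `M` (a finite type), and an edge
`u -i-> u'` if `u ++ [i]` is geodesic and `u' = tail (u ++ [i])`
(for `M = 0` there is one vertex `[]`). For `M`-windows:
if `Walk E univ u v l` then every infix of length `≤ M + 1` of `u ++ l` is geodesic (induction;
windows of length `≤ M + 1` of `u ++ i :: l` are windows of `u ++ [i]` or of `tail (u ++ [i]) ++ l`).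
If the closed walks had property `h` of `graph_lemma` for all `u`, the values of all walks would
be finite in number; but every geodesic word of length `≥ M` is `u ++ l` with `u` its prefix
of length `M` and `Walk E univ u v l` for some `v`, and `H` is infinite (every element is the value of a
geodesic word), contradiction. So there are `u` and a finite set `F` of closed walks at `u` with
infinite submonoid. Take `W = F \ {[]}`; concatenations of elements of `F` are closed walks at
`u`, so their windows of length `≤ M` are windows of `u ++ l`. -/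
theorem window_system {ι H : Type*} [Finite ι] [Group H] [Infinite H] (e : ι → H)
    (hgen : Submonoid.closure (Set.range e) = ⊤) (M : ℕ) :
    ∃ W : Set (List ι), W.Finite ∧ [] ∉ W ∧
      (Submonoid.closure ((fun l : List ι => (l.map e).prod) '' W) : Set H).Infinite ∧
      ∀ L : List (List ι), (∀ l ∈ L, l ∈ W) → ∀ a z b, L.flatten = a ++ z ++ b →
        z.length ≤ M → Geo e z := by
  classical
  haveI := WS_fin e M
  have hword : ∀ h : H, ∃ l : List ι, (l.map e).prod = h ∧ Geo e l := by
    intro h
    have hex : ∃ n : ℕ, ∃ l : List ι, (l.map e).prod = h ∧ l.length = n := by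
      have hm : h ∈ Submonoid.closure (Set.range e) := by rw [hgen]; trivial
      obtain ⟨L, hL, hLp⟩ := Submonoid.exists_list_of_mem_closure hm
      have : ∀ L : List H, (∀ x ∈ L, x ∈ Set.range e) → ∃ l : List ι, l.map e = L := by
        intro L
        induction L with
        | nil => intro _; exact ⟨[], rfl⟩
        | cons x L ih =>
          intro hx
          obtain ⟨i, hi⟩ := hx x (by simp)
          obtain ⟨l, hl⟩ := ih (fun y hy => hx y (by simp [hy]))
          exact ⟨i :: l, by rw [List.map_cons, hi, hl]⟩
      obtain ⟨l, hl⟩ := this L hL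
      exact ⟨l.length, l, by rw [hl, hLp], rfl⟩
    obtain ⟨l, hl, hn⟩ := Nat.find_spec hex
    refine ⟨l, hl, fun l' hl' => ?_⟩
    rw [hn]
    exact Nat.find_min' hex ⟨l', by rw [hl', hl], rfl⟩
  by_cases hall : ∀ (u : WS_V e M) (F : Set (List ι)), F.Finite →
      (∀ l ∈ F, Walk (WS_E e M) Set.univ u u l) →
      (Submonoid.closure ((fun l : List ι => (l.map e).prod) '' F) : Set H).Finite
  · exfalso
    have hval := graph_lemma (WS_E e M) e hall
    have hfin : (Set.univ : Set H).Finite := by
      have h1 : (((fun l : List ι => (l.map e).prod) '' {l : List ι | l.length < M + 1}) ∪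
          ⋃ u : WS_V e M, ⋃ v : WS_V e M, (fun x => (u.1.map e).prod * x) ''
            {x : H | ∃ l, Walk (WS_E e M) Set.univ u v l ∧ (l.map e).prod = x}).Finite := by
        refine Set.Finite.union ((List.finite_length_lt ι (M + 1)).image _) ?_
        refine Set.finite_iUnion (fun u => Set.finite_iUnion (fun v => (hval u v).image _))
      refine h1.subset (fun h _ => ?_)
      obtain ⟨w, hw, hg⟩ := hword h
      by_cases hlen : w.length < M + 1
      · left; exact ⟨w, hlen, hw⟩
      · right
        have h2 : w = w.take M ++ w.drop M := (List.take_append_drop M w).symm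
        have h3 : Geo e (w.take M) := by
          rw [h2] at hg
          exact Geo.mid (a := []) (b := w.drop M) (by simpa using hg)
        have h4 : (w.take M).length = M := by
          rw [List.length_take]; omega
        obtain ⟨v, hv⟩ := WS_walk e M (w.drop M) ⟨w.take M, h4, h3⟩ (by
          rw [List.take_append_drop]; exact hg)
        rw [Set.mem_iUnion]
        refine ⟨⟨w.take M, h4, h3⟩, ?_⟩
        rw [Set.mem_iUnion]
        refine ⟨v, ?_⟩
        refine ⟨((w.drop M).map e).prod, ⟨w.drop M, hv, rfl⟩, ?_⟩
        show ((w.take M).map e).prod * ((w.drop M).map e).prod = h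
        rw [← List.prod_append, ← List.map_append, List.take_append_drop, hw]
    exact Set.infinite_univ hfin
  · push Not at hall
    obtain ⟨u, F, hF, hFw, hinf⟩ := hall
    refine ⟨F \ {[]}, hF.subset (fun x hx => hx.1), by simp, ?_, ?_⟩
    · intro hfin
      apply hinf
      refine hfin.subset ?_
      have : Submonoid.closure ((fun l : List ι => (l.map e).prod) '' F) ≤
          Submonoid.closure ((fun l : List ι => (l.map e).prod) '' (F \ {[]})) := by
        rw [Submonoid.closure_le]
        rintro x ⟨l, hl, rfl⟩
        by_cases hl0 : l = []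
        · subst hl0
          simp only [List.map_nil, List.prod_nil]
          exact Submonoid.one_mem _
        · exact Submonoid.subset_closure ⟨l, ⟨hl, hl0⟩, rfl⟩
      exact this
    · intro L hL a z b hab hz
      have hw : Walk (WS_E e M) Set.univ u u L.flatten :=
        WS_flatten L (fun l hl => hFw l (hL l hl).1)
      refine WS_win e M hw (u.1 ++ a) z b ?_ (by omega)
      rw [hab]; simp

end Pool.Agent.H.MP_5fffd4_al
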