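import Pool.Agent.H.MP_5fffd4_al.Quot
import Pool.Agent.H.MP_5fffd4_al.WinSys

set_option autoImplicit false

namespace Pool.Agent.H.MP_5fffd4_al

universe u

variable {T : Type} {G : Type u} [Group G] {f : T → G}

/-- lists of elements of the image of `W0` lift to lists of elements of `W0` -/
theorem windowsV_lift {α β : Type*} {g : α → β} {W0 : Set α} (LL : List β)
    (h : ∀ L ∈ LL, L ∈ g '' W0) : ∃ LL0 : List α, (∀ l ∈ LL0, l ∈ W0) ∧ LL0.map g = LL := by
  induction LL with
  | nil => exact ⟨[], by simp, rfl⟩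
  | cons a LL ih =>
    obtain ⟨LL0, h1, h2⟩ := ih fun L hL => h L (List.mem_cons_of_mem _ hL)
    obtain ⟨a0, ha0, ha⟩ := h a List.mem_cons_self
    refine ⟨a0 :: LL0, ?_, by rw [List.map_cons, h2, ha]⟩
    intro l hl
    rcases List.mem_cons.1 hl with rfl | hl
    · exact ha0
    · exact h1 l hl

/-- `window_system` for the quotient group, in terms of lists of elements of `V` (same translation).
`Good f (List.flatten '' W)`: finite; no empty word, because the lists in `W` are not empty and
their elements are not empty (`hV.nil`); infinite, because the image in `H` of the group generated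
by the values is infinite (it contains the infinite submonoid). -/
theorem windowsV (htor : ∀ x : G, IsOfFinOrder x) {V : Set (List T)} (hV : Good f V)
    {Θ : Subgroup G} (hΘ : Quo f V Θ) (M : ℕ) :
    ∃ W : Set (List (List T)), W.Finite ∧ [] ∉ W ∧ (∀ L ∈ W, ∀ v ∈ L, v ∈ V) ∧
      Good f (List.flatten '' W) ∧
      ∀ LL : List (List (List T)), (∀ L ∈ LL, L ∈ W) → ∀ a z b, LL.flatten = a ++ z ++ b →
        z.length ≤ M → GeoV f V Θ z := by
  classical
  obtain ⟨H, hG, hI, π, hs, hπ⟩ := exists_quot hΘ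
  have hfin : Finite V := hV.fin.to_subtype
  obtain ⟨W0, hW1, hW2, hW3, hW4⟩ :=
    window_system (fun v : V => π (gv f V v)) (quot_gen htor hs) M
  refine ⟨List.map Subtype.val '' W0, hW1.image _, ?_, ?_, ⟨(hW1.image _).image _, ?_, ?_⟩, ?_⟩
  · rintro ⟨l, hl, hl0⟩
    rw [List.map_eq_nil_iff] at hl0
    rw [hl0] at hl
    exact hW2 hl
  · rintro _ ⟨l, -, rfl⟩ v hv
    rw [List.mem_map] at hv
    obtain ⟨v0, -, rfl⟩ := hv
    exact v0.2
  · rintro ⟨_, ⟨l, hl, rfl⟩, h0⟩
    cases l with
    | nil => exact hW2 hl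
    | cons v l =>
      rw [List.map_cons, List.flatten_cons, List.append_eq_nil_iff] at h0
      exact hV.nil (h0.1 ▸ v.2)
  · intro hfin2
    have hsub : (Submonoid.closure
        ((fun l : List V => (l.map fun v => π (gv f V v)).prod) '' W0) : Set H) ⊆
        π '' {z : Gam f V | (z : G) ∈ Gam f (List.flatten '' (List.map Subtype.val '' W0))} := by
      intro x hx
      rw [SetLike.mem_coe] at hx
      induction hx using Submonoid.closure_induction with
      | mem x hx =>
        obtain ⟨l, hl, rfl⟩ := hx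
        refine ⟨(l.map (gv f V)).prod, ?_, ?_⟩
        · rw [Set.mem_ofPred_eq, gv_prod]
          exact Subgroup.subset_closure ⟨_, ⟨_, ⟨l, hl, rfl⟩, rfl⟩, rfl⟩
        · rw [map_list_prod, List.map_map]
          rfl
      | one => exact ⟨1, by rw [Set.mem_ofPred_eq, Subgroup.coe_one]; exact Subgroup.one_mem _,
          map_one π⟩
      | mul x y _ _ hx hy =>
        obtain ⟨a, ha, rfl⟩ := hx
        obtain ⟨b, hb, rfl⟩ := hy
        rw [Set.mem_ofPred_eq] at ha hb
        refine ⟨a * b, ?_, map_mul π a b⟩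
        rw [Set.mem_ofPred_eq, Subgroup.coe_mul]
        exact Subgroup.mul_mem _ ha hb
    refine hW3 (Set.Finite.subset (Set.Finite.image _ ?_) hsub)
    exact Set.Finite.preimage Subtype.val_injective.injOn hfin2
  · intro LL hLL a z b hab hz
    obtain ⟨LL0, hLL0, rfl⟩ := windowsV_lift LL hLL
    rw [← List.map_flatten] at hab
    obtain ⟨a0, b0, h1, h2, h3⟩ := List.map_eq_append_iff.1 hab
    obtain ⟨a1, z0, h4, h5, h6⟩ := List.map_eq_append_iff.1 h2
    rw [h4] at h1
    have hgeo := hW4 LL0 hLL0 a1 z0 b0 h1 (by rw [← h6, List.length_map] at hz; exact hz)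
    rw [← h6]
    intro z' hz' hmem
    obtain ⟨l', rfl⟩ := exists_lift z' hz'
    rw [List.length_map, List.length_map]
    exact hgeo l' ((quot_eq hπ z0 l').2 hmem).symm

end Pool.Agent.H.MP_5fffd4_al
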