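import Pool.Agent.H.MP_5fffd4_al.ClosedN
import Pool.Agent.H.MP_5fffd4_al.TreeN
import Pool.Agent.H.MP_5fffd4_al.QuotW

set_option autoImplicit false

namespace Pool.Agent.H.MP_5fffd4_al

universe u

variable {T : Type} {G : Type u} [Group G] {g : BG T} {f : T → G}

/-- the length of a concatenation of words of length at most `c` -/
theorem Stage4N_flatten_le {c : ℕ} (L : List (List T)) (h : ∀ v ∈ L, v.length ≤ c) :
    L.flatten.length ≤ c * L.length := by
  induction L with
  | nil => simp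
  | cons v L ih =>
    rw [List.flatten_cons, List.length_append, List.length_cons, Nat.mul_succ]
    have h1 := h v (by simp)
    have h2 := ih fun v hv => h v (by simp [hv])
    omega

/-- the length of a concatenation of nonempty words -/
theorem Stage4N_le_flatten (L : List (List T)) (h : ∀ v ∈ L, v ≠ []) :
    L.length ≤ L.flatten.length := by
  induction L with
  | nil => simp
  | cons v L ih =>
    rw [List.flatten_cons, List.length_append, List.length_cons]
    have h1 := List.length_pos_iff.2 (h v (by simp))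
    have h2 := ih fun v hv => h v (by simp [hv])
    omega

theorem Stage4N_lift (W : Set (List (List T))) (L : List (List T))
    (h : ∀ v ∈ L, v ∈ List.flatten '' W) :
    ∃ LL : List (List (List T)), (∀ x ∈ LL, x ∈ W) ∧ L.flatten = LL.flatten.flatten := by
  induction L with
  | nil => exact ⟨[], by simp, by simp⟩
  | cons v L ih =>
    obtain ⟨LL, h1, h2⟩ := ih fun v hv => h v (by simp [hv])
    obtain ⟨x, hx, rfl⟩ := h v (by simp)
    refine ⟨x :: LL, ?_, ?_⟩
    · intro y hy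
      rcases List.mem_cons.1 hy with rfl | hy
      · exact hx
      · exact h1 y hy
    · rw [List.flatten_cons, List.flatten_cons, List.flatten_append, h2]

/-- STAGE 4, nonlinear class. Proof. `c > 0` a bound for the lengths in `V`. `F` from
`closed_classes`; for `φ ∈ F` choose a list `L_φ` of elements of `V` with `ev L_φ.flatten = φ`
(`mem_Gam`); `c0` a bound for the `L_φ.length`. Let `m = l + l2 + c * c0 + c + 1`, `M = 2 m + c`;
`windowsV` for `M` gives `W`; `V' = List.flatten '' W`.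
Claim: all `Q`-nodes of nontrivial words of `V'*` have length `≤ m` (`l' = m`). Let `w` be in `V'*`,
`w = Lw.flatten` with `Lw = LL.flatten`, `LL` a list of elements of `W`. Suppose a `Q`-node `(A; x, u, y)`
has `u.length > m`. `min_node` (via `bder_of_node`, `Bdd` for `V`, `w` in `V*`) gives a
node `(B; x ++ x', u', y' ++ y)` with `m ≤ u'.length < 2 m`. `list_prefix` for the prefix
`x ++ x' ++ u'` of `Lw.flatten`: `Lw = La ++ Lb`, `x ++ x' ++ u' = La.flatten ++ o2`,
`o2.length ≤ c < u'.length`, so `x ++ x'` is a prefix of `La.flatten`; `list_prefix` again: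
`La = L1 ++ L2`, `x ++ x' = L1.flatten ++ o1`. So `m0 = L2.flatten` has
`m0.length ≤ u'.length + c < M`, hence `L2.length ≤ M` (nonempty words) and `L2` is a window of `Lw`,
so `GeoV L2`. `closed_classes`: `φ⁻¹ * ev m0 ∈ Θ`, so `L2.length ≤ L_φ.length ≤ c0`, so
`m0.length ≤ c * c0` and `u'.length ≤ m0.length + c < m`, contradiction. -/
theorem stage4N [Finite T] (hs : Setup g f) (hN : Finite g.N) {P Q : Set g.N}
    (hQ : Cls g P Q) (hnl : ¬ Lin g Q) {V : Set (List T)} (hV : Good f V) {l l2 : ℕ}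
    (hb : Bdd g f V P l) {Θ : Subgroup G} (hΘ : Quo f V Θ) (h3 : S3 g f V Q l2 Θ) :
    ∃ V' : Set (List T), Good f V' ∧ (∀ v ∈ V', Star V v) ∧ ∃ l', Bdd g f V' Q l' := by
  classical
  -- bound for the words of `V`
  obtain ⟨c, hc⟩ : ∃ c, ∀ v ∈ V, v.length ≤ c := by
    obtain ⟨c, hc⟩ := (hV.fin.image List.length).bddAbove
    exact ⟨c, fun v hv => hc ⟨v, hv, rfl⟩⟩
  obtain ⟨F, hF, hFG, hFc⟩ := closed_classes hs hN hQ hnl h3 c
  obtain ⟨c0, hc0⟩ : ∃ c0, ∀ φ ∈ F, ∃ L : List (List T), (∀ v ∈ L, v ∈ V) ∧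
      ev f L.flatten = φ ∧ L.length ≤ c0 := by
    have h1 : ∀ φ ∈ F, ∃ L : List (List T), (∀ v ∈ L, v ∈ V) ∧ ev f L.flatten = φ := by
      intro φ hφ
      obtain ⟨w, ⟨L, hL, rfl⟩, hw⟩ := (mem_Gam hs.tor).1 (hFG hφ)
      exact ⟨L, hL, hw⟩
    choose! L hL1 hL2 using h1
    obtain ⟨c0, hc0⟩ := (hF.image fun φ => (L φ).length).bddAbove
    exact ⟨c0, fun φ hφ => ⟨L φ, hL1 φ hφ, hL2 φ hφ, hc0 ⟨φ, hφ, rfl⟩⟩⟩
  set m := l + l2 + c * c0 + c + 1 with hm
  obtain ⟨W, -, -, hWV, hWg, hWw⟩ := windowsV hs.tor hV hΘ (2 * m + c)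
  refine ⟨List.flatten '' W, hWg, ?_, m, ?_⟩
  · rintro _ ⟨L, hL, rfl⟩
    exact ⟨L, hWV L hL, rfl⟩
  intro w hw hne A hA x u y hn
  by_contra hlt
  rw [not_le] at hlt
  obtain ⟨LL0, hLL0, hwLL⟩ := hw
  obtain ⟨LL, hLL, hfl⟩ := Stage4N_lift W LL0 hLL0
  rw [hfl] at hwLL
  have hLwV : ∀ v ∈ LL.flatten, v ∈ V := by
    intro v hv
    obtain ⟨L, hL, hvL⟩ := List.mem_flatten.1 hv
    exact hWV L (hLL L hL) v hvL
  have hstar : Star V w := ⟨LL.flatten, hLwV, hwLL⟩
  have hbd := bder_of_node (hb w hstar hne) hn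
  obtain ⟨B, hB, x', u', y', hctx, hder, hueq, hmu, hu2⟩ :=
    min_node hQ hA hbd (m := m) (by omega) hlt.le
  have hnode := hn.sub hctx hder hueq
  obtain ⟨La, Lb, o2, -, e1, e2, -, e4, -, -⟩ := list_prefix LL.flatten
    (fun v hv => hc v (hLwV v hv)) (x ++ x' ++ u') (y' ++ y) (by
      rw [← hwLL, hnode.eq])
  have hLaV : ∀ v ∈ La, v ∈ V := fun v hv => hLwV v (by rw [e1]; simp [hv])
  rcases List.append_eq_append_iff.1 e2 with ⟨a', ha1, ha2⟩ | ⟨c', -, hc2⟩
  · obtain ⟨L1, L2, o1, -, f1, f2, -, f4, -, -⟩ := list_prefix La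
      (fun v hv => hc v (hLaV v hv)) (x ++ x') a' ha1
    have hL1V : ∀ v ∈ L1, v ∈ V := fun v hv => hLaV v (by rw [f1]; simp [hv])
    have hL2V : ∀ v ∈ L2, v ∈ V := fun v hv => hLaV v (by rw [f1]; simp [hv])
    have hcut : x ++ x' ++ u' = L1.flatten ++ L2.flatten ++ o2 := by
      rw [e2, f1, List.flatten_append]
    have hlen : L2.flatten.length + o2.length = o1.length + u'.length := by
      have h1 := congrArg List.length hcut
      have h2 := congrArg List.length f2
      simp only [List.length_append] at h1 h2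
      omega
    obtain ⟨φ, hφ, hφΘ⟩ := hFc w hstar hne B hB _ _ _ hnode (by omega) L1.flatten L2.flatten
      o1 o2 f2 hcut ⟨L1, hL1V, rfl⟩ ⟨L2, hL2V, rfl⟩ f4 e4
    have hL2len : L2.length ≤ L2.flatten.length := Stage4N_le_flatten L2 fun v hv hnil =>
      hV.nil (hnil ▸ hL2V v hv)
    have hgeo : GeoV f V Θ L2 := by
      refine hWw LL hLL L1 L2 Lb ?_ (by omega)
      rw [e1, f1]
    obtain ⟨Lφ, g1, g2, g3⟩ := hc0 φ hφ
    have h5 := hgeo Lφ g1 (by
      rw [g2]
      have h6 := Θ.inv_mem hφΘ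
      rwa [mul_inv_rev, inv_inv] at h6)
    have h7 := Stage4N_flatten_le L2 fun v hv => hc v (hL2V v hv)
    have h8 : c * L2.length ≤ c * c0 := Nat.mul_le_mul_left c (h5.trans g3)
    omega
  · have h1 := congrArg List.length hc2
    rw [List.length_append] at h1
    omega

end Pool.Agent.H.MP_5fffd4_al
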