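import Pool.Agent.H.MP_5fffd4_al.Stage1
import Pool.Agent.H.MP_5fffd4_al.Stage2L
import Pool.Agent.H.MP_5fffd4_al.Stage2N
import Pool.Agent.H.MP_5fffd4_al.Stage3
import Pool.Agent.H.MP_5fffd4_al.Stage4N
import Pool.Agent.H.MP_5fffd4_al.Stage4L

set_option autoImplicit false

namespace Pool.Agent.H.MP_5fffd4_al

universe u

variable {T : Type} {G : Type u} [Group G] {g : BG T} {f : T → G}

theorem claim_iff {P : Set g.N} : Claim g f P ↔
    ∃ V : Set (List T), Good f V ∧ ∃ l, Bdd g f V P l := by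
  constructor
  · rintro ⟨V, h1, h2, h3, h4⟩
    exact ⟨V, ⟨h1, h2, h3⟩, h4⟩
  · rintro ⟨V, ⟨h1, h2, h3⟩, h4⟩
    exact ⟨V, h1, h2, h3, h4⟩

theorem claim_step [Finite T] (hs : Setup g f) (hN : Finite g.N) {P Q : Set g.N}
    (hQ : Cls g P Q) (h : Claim g f P) : Claim g f (P ∪ Q) := by
  rw [claim_iff] at h ⊢
  obtain ⟨V, hV, l, hb⟩ := h
  obtain ⟨V1, hV1, hst1, h1⟩ := stage1 hs hN hV
  have hb1 : Bdd g f V1 P l := hb.mono hst1
  have key : ∃ V2 : Set (List T), Good f V2 ∧ (∀ v ∈ V2, Star V1 v) ∧ ∃ l2, S2 g f V2 Q l2 := by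
    by_cases hlin : Lin g Q
    · exact stage2L hs hN hQ hlin hV1 hb1 h1
    · exact stage2N hs hN hQ hlin hV1 hb1
  obtain ⟨V2, hV2, hst2, l2, h2⟩ := key
  have hb2 : Bdd g f V2 P l := hb1.mono hst2
  obtain ⟨V3, hV3, hst3, Θ, hΘ, h3⟩ := stage3 hs hN hV2 h2
  have hb3 : Bdd g f V3 P l := hb2.mono hst3
  have key2 : ∃ V4 : Set (List T), Good f V4 ∧ (∀ v ∈ V4, Star V3 v) ∧
      ∃ l', Bdd g f V4 Q l' := by
    by_cases hlin : Lin g Q
    · exact stage4L hs hN hQ hlin hV3 hb3 hΘ h3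
    · exact stage4N hs hN hQ hlin hV3 hb3 hΘ h3
  obtain ⟨V4, hV4, hst4, l', h4⟩ := key2
  have hb4 : Bdd g f V4 P l := hb3.mono hst4
  refine ⟨V4, hV4, max l l', ?_⟩
  intro w hw hne A hA x u y hn
  rcases hA with hA | hA
  · exact (hb4 w hw hne A hA x u y hn).trans (le_max_left _ _)
  · exact (h4 w hw hne A hA x u y hn).trans (le_max_right _ _)

/-- Induction over the classes. For every set `P` of nonterminals which is closed under reachability
the claim holds. Proof: strong induction on `P.ncard` (`g.N` finite). If `P` is empty take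
`V = {[a] | a : T}`: finite, `[] ∉ V`, `Gam f V = ⊤` (`f` generates `G`), infinite; `Bdd` is
vacuous. If `P` is not empty choose `A0 ∈ P` which is maximal, i.e. with the largest number of
nonterminals reachable from it (`{B | ∃ x y, Ctx g A0 B x y}.ncard` maximal among elements of `P`). Let
`Q = {B | Eqv g A0 B}`, `P' = P \ Q`. `P'` is closed: `A ∈ P'`, `Ctx g A B x y` gives `B ∈ P`; if
`B ∈ Q`, then everything reachable from `A0` is reachable from `A` (through `B`), so by maximality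
`A` reaches exactly what `A0` reaches, in particular `A0` reaches `A` (as `A` reaches itself), so
`A ∈ Q`, contradiction. `Cls g P' Q` holds, `P' ∪ Q = P`; apply `claim_step`. -/
theorem claim_all [Finite T] (hs : Setup g f) (hN : Finite g.N) (hinf : Infinite G)
    (hgen : Subgroup.closure (Set.range f) = ⊤) (P : Set g.N)
    (hP : ∀ A ∈ P, ∀ B x y, Ctx g A B x y → B ∈ P) : Claim g f P := by
  classical
  have key : ∀ n : ℕ, ∀ P : Set g.N, P.ncard = n →
      (∀ A ∈ P, ∀ B x y, Ctx g A B x y → B ∈ P) → Claim g f P := by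
    intro n
    induction n using Nat.strong_induction_on with
    | _ n ih =>
    intro P hPn hP
    rcases P.eq_empty_or_nonempty with rfl | hne
    · refine ⟨Set.range fun a : T => [a], Set.finite_range _, ?_, ?_, 0, ?_⟩
      · rintro ⟨a, ha⟩
        exact List.cons_ne_nil _ _ ha
      · have h1 : Gam f (Set.range fun a : T => [a]) = ⊤ := by
          rw [Gam, ← hgen]
          congr 1
          ext x
          constructor
          · rintro ⟨_, ⟨a, rfl⟩, rfl⟩
            exact ⟨a, by simp [ev]⟩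
          · rintro ⟨a, rfl⟩
            exact ⟨[a], ⟨a, rfl⟩, by simp [ev]⟩
        rw [h1, Subgroup.coe_top]
        exact Set.infinite_univ
      · intro w _ _ A hA
        exact absurd hA (Set.notMem_empty A)
    · obtain ⟨A0, hA0, hmax⟩ := Set.exists_max_image P
        (fun A => {B | ∃ x y, Ctx g A B x y}.ncard) P.toFinite hne
      obtain ⟨Q, hQ⟩ : ∃ Q : Set g.N, Q = {B | Eqv g A0 B} := ⟨_, rfl⟩
      have hmQ : ∀ B, B ∈ Q ↔ Eqv g A0 B := fun B => by rw [hQ]; rfl
      have hQP : Q ⊆ P := by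
        intro B hB
        obtain ⟨⟨x, y, h1⟩, -⟩ := (hmQ B).1 hB
        exact hP A0 hA0 B x y h1
      have hA0Q : A0 ∈ Q := (hmQ A0).2 ⟨⟨[], [], Ctx.refl A0⟩, [], [], Ctx.refl A0⟩
      have hP' : ∀ A ∈ P \ Q, ∀ B x y, Ctx g A B x y → B ∈ P \ Q := by
        rintro A ⟨hA, hAQ⟩ B x y hc
        refine ⟨hP A hA B x y hc, fun hBQ => hAQ ?_⟩
        obtain ⟨-, x1, y1, h1⟩ := (hmQ B).1 hBQ
        have h2 : Ctx g A A0 (x ++ x1) (y1 ++ y) := hc.trans h1
        have h3 : {B | ∃ x y, Ctx g A0 B x y} ⊆ {B | ∃ x y, Ctx g A B x y} := by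
          rintro C ⟨x2, y2, h4⟩
          exact ⟨_, _, h2.trans h4⟩
        have h5 : {B | ∃ x y, Ctx g A0 B x y} = {B | ∃ x y, Ctx g A B x y} :=
          Set.eq_of_subset_of_ncard_le h3 (hmax A hA) (Set.toFinite _)
        have h6 : A ∈ {B | ∃ x y, Ctx g A0 B x y} := by
          rw [h5]
          exact ⟨[], [], Ctx.refl A⟩
        exact (hmQ A).2 ⟨h6, _, _, h2⟩
      have hcls : Cls g (P \ Q) Q := by
        refine ⟨?_, ?_, ?_⟩
        · intro A hA B hB
          obtain ⟨⟨x1, y1, h1⟩, x2, y2, h2⟩ := (hmQ A).1 hA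
          obtain ⟨⟨x3, y3, h3⟩, x4, y4, h4⟩ := (hmQ B).1 hB
          exact ⟨⟨_, _, h2.trans h3⟩, _, _, h4.trans h1⟩
        · intro A hA B hB
          obtain ⟨⟨x1, y1, h1⟩, x2, y2, h2⟩ := (hmQ A).1 hA
          obtain ⟨⟨x3, y3, h3⟩, x4, y4, h4⟩ := hB
          exact (hmQ B).2 ⟨⟨_, _, h1.trans h3⟩, _, _, h4.trans h2⟩
        · intro A hA B x y hc
          by_cases hB : B ∈ Q
          · exact Or.inr hB
          · exact Or.inl ⟨hP A (hQP hA) B x y hc, hB⟩
      have hlt : (P \ Q).ncard < n := by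
        rw [← hPn]
        exact Set.ncard_lt_ncard ⟨Set.sdiff_subset, fun h => (h hA0).2 hA0Q⟩ P.toFinite
      have h1 := claim_step hs hN hcls (ih _ hlt (P \ Q) rfl hP')
      rwa [Set.sdiff_union_of_subset hQP] at h1
  exact key P.ncard P rfl hP

end Pool.Agent.H.MP_5fffd4_al
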