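import Pool.Agent.H.MP_5fffd4_al.Gram
import Pool.Agent.H.MP_5fffd4_al.MainA

set_option autoImplicit false

namespace Pool.Agent.H.MP_5fffd4_al

universe u

variable {T : Type} {G : Type u} [Group G] {g : BG T} {f : T → G}

/-- There are only finitely many words of length at most `l`, but infinitely many nontrivial words
in `V*`: contradiction. -/
theorem finite_of_setup [Finite T] (hs : Setup g f) (hN : Finite g.N)
    (hgen : Subgroup.closure (Set.range f) = ⊤) : Finite G := by
  by_contra hG
  have hinf : Infinite G := not_finite_iff_infinite.1 hG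
  obtain ⟨V, hV1, -, hV3, l, hb⟩ :=
    claim_all hs hN hinf hgen Set.univ fun _ _ _ _ _ _ => Set.mem_univ _
  refine hV3 ((((List.finite_length_le T l).image (ev f)).insert 1).subset ?_)
  intro z hz
  obtain ⟨w, hw, rfl⟩ := (mem_Gam hs.tor).1 hz
  by_cases h1 : ev f w = 1
  · exact Or.inl h1
  · refine Or.inr ⟨w, ?_, rfl⟩
    exact hb w hw h1 g.S (Set.mem_univ _) [] w []
      ⟨by rw [List.nil_append, List.append_nil], Ctx.refl _, (hs.lang w).2 h1⟩

/-- THE THEOREM. -/
theorem torsion_coCF_finite {G : Type u} [Group G] (htor : ∀ x : G, IsOfFinOrder x) {k : ℕ}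
    (f : Fin k → G) (hgen : Submonoid.closure (Set.range f) = ⊤)
    (hcf : Language.IsContextFree
      ({w : List (Fin k) | (w.map f).prod ≠ 1} : Language (Fin k))) : Finite G := by
  obtain ⟨g, hN, hg⟩ := exists_BG hcf
  have hs : Setup g f := ⟨htor, fun w => hg w⟩
  refine finite_of_setup hs hN ?_
  have : (⊤ : Submonoid G) ≤ (Subgroup.closure (Set.range f)).toSubmonoid := by
    rw [← hgen]
    exact Submonoid.closure_le.2 Subgroup.subset_closure
  exact eq_top_iff.2 fun x _ => this (Submonoid.mem_top x)

end Pool.Agent.H.MP_5fffd4_al
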