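import Pool.Agent.H.MP_5fffd4_al.Words2
import Pool.Agent.H.MP_5fffd4_al.MH

set_option autoImplicit false

namespace Pool.Agent.H.MP_5fffd4_al

universe u

variable {T : Type} {G : Type u} [Group G] {f : T → G}

/-- The quotient group `Gam f V / Θ`. Proof: `Θ.subgroupOf (Gam f V)` is normal by `hΘ.nrm`; the
quotient is infinite as the relative index is 0 (`Subgroup.index_ne_zero_of_finite`). -/
theorem exists_quot {V : Set (List T)} {Θ : Subgroup G} (hΘ : Quo f V Θ) :
    ∃ (H : Type u) (_ : Group H) (_ : Infinite H) (π : Gam f V →* H),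
      Function.Surjective π ∧ ∀ z, π z = 1 ↔ (z : G) ∈ Θ := by
  have hN : (Θ.subgroupOf (Gam f V)).Normal := by
    refine ⟨fun n hn g => ?_⟩
    rw [Subgroup.mem_subgroupOf] at hn ⊢
    have h := hΘ.nrm (g : G) g.2
    rw [← h, mem_cj]
    simpa [mul_assoc] using hn
  refine ⟨Gam f V ⧸ Θ.subgroupOf (Gam f V), inferInstance, ?_,
    QuotientGroup.mk' (Θ.subgroupOf (Gam f V)), QuotientGroup.mk'_surjective _, fun z => ?_⟩
  · by_contra hcon
    rw [not_infinite_iff_finite] at hcon
    exact Subgroup.index_ne_zero_of_finite hΘ.idx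
  · rw [← MonoidHom.mem_ker, QuotientGroup.ker_mk', Subgroup.mem_subgroupOf]

/-- A list of elements of `V` is geodesic modulo `Θ`. -/
def GeoV (f : T → G) (V : Set (List T)) (Θ : Subgroup G) (z : List (List T)) : Prop :=
  ∀ z' : List (List T), (∀ v ∈ z', v ∈ V) → (ev f z.flatten)⁻¹ * ev f z'.flatten ∈ Θ →
    z.length ≤ z'.length

/-- the value of an element of `V` in the group generated by `V` -/
def gv (f : T → G) (V : Set (List T)) (v : V) : Gam f V :=
  ⟨ev f v.1, Subgroup.subset_closure ⟨v.1, v.2, rfl⟩⟩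

theorem gv_prod (V : Set (List T)) (l : List V) :
    (((l.map (gv f V)).prod : Gam f V) : G) = ev f (l.map Subtype.val).flatten := by
  induction l with
  | nil => rfl
  | cons a l ih =>
    rw [List.map_cons, List.prod_cons, Subgroup.coe_mul, ih, List.map_cons, List.flatten_cons,
      ev_append]
    rfl

theorem exists_lift {V : Set (List T)} (L : List (List T)) (hL : ∀ v ∈ L, v ∈ V) :
    ∃ l : List V, l.map Subtype.val = L := by
  refine ⟨L.attach.map fun v => ⟨v.1, hL v.1 v.2⟩, ?_⟩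
  rw [List.map_map]
  exact List.attach_map_subtype_val L

theorem quot_eq {V : Set (List T)} {Θ : Subgroup G} {H : Type*} [Group H] {π : Gam f V →* H}
    (hπ : ∀ z, π z = 1 ↔ (z : G) ∈ Θ) (l l' : List V) :
    (l.map fun v => π (gv f V v)).prod = (l'.map fun v => π (gv f V v)).prod ↔
      (ev f (l.map Subtype.val).flatten)⁻¹ * ev f (l'.map Subtype.val).flatten ∈ Θ := by
  have h : ∀ l : List V, (l.map fun v => π (gv f V v)).prod = π (l.map (gv f V)).prod := by
    intro l
    rw [map_list_prod, List.map_map]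
    rfl
  rw [h, h, ← gv_prod, ← gv_prod, ← inv_mul_eq_one, ← map_inv, ← map_mul, hπ, Subgroup.coe_mul,
    Subgroup.coe_inv]

theorem quot_gen (htor : ∀ x : G, IsOfFinOrder x) {V : Set (List T)} {H : Type*} [Group H]
    {π : Gam f V →* H} (hs : Function.Surjective π) :
    Submonoid.closure (Set.range fun v : V => π (gv f V v)) = ⊤ := by
  rw [eq_top_iff]
  intro x _
  obtain ⟨z, rfl⟩ := hs x
  obtain ⟨w, ⟨L, hL, rfl⟩, hw⟩ := (mem_Gam htor).1 z.2
  obtain ⟨l, rfl⟩ := exists_lift L hL
  have h1 : z = (l.map (gv f V)).prod := by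
    apply Subtype.ext
    rw [gv_prod, hw]
  rw [h1, map_list_prod, List.map_map]
  refine Submonoid.list_prod_mem _ ?_
  intro y hy
  rw [List.mem_map] at hy
  obtain ⟨v, -, rfl⟩ := hy
  exact Submonoid.subset_closure ⟨v, rfl⟩

/-- `sphere_growth` for the quotient group, in terms of lists of elements of `V`.

Proof. `exists_quot` gives `H, π`. Index type `V` (as a subtype, finite), `e v = π ⟨ev f v, _⟩`. `H` is a
torsion group (`π` surjective, `G` torsion); `Submonoid.closure (range e) = ⊤`: every element of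
`Gam f V` is the value of a word of `V*` (`mem_Gam`). Apply `sphere_growth` and map the lists over
`V` to lists of words by `List.map Subtype.val` (injective);
`(l.map e).prod = π ⟨ev f (l.map val).flatten, _⟩`, and `π a = π b ↔ a⁻¹ b ∈ Θ`. -/
theorem sphereV (htor : ∀ x : G, IsOfFinOrder x) {V : Set (List T)} (hV : Good f V)
    {Θ : Subgroup G} (hΘ : Quo f V Θ) (n : ℕ) :
    ∃ D : Finset (List (List T)), n + 1 ≤ D.card ∧
      (∀ l ∈ D, l.length = n ∧ (∀ v ∈ l, v ∈ V) ∧ GeoV f V Θ l) ∧
      ∀ l ∈ D, ∀ l' ∈ D, (ev f l.flatten)⁻¹ * ev f l'.flatten ∈ Θ → l = l' := by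
  classical
  obtain ⟨H, hG, hI, π, hs, hπ⟩ := exists_quot hΘ
  have hfin : Finite V := hV.fin.to_subtype
  have htorH : ∀ x : H, IsOfFinOrder x := by
    intro x
    obtain ⟨z, rfl⟩ := hs x
    obtain ⟨k, hk, hk1⟩ := isOfFinOrder_iff_pow_eq_one.1 (htor (z : G))
    refine isOfFinOrder_iff_pow_eq_one.2 ⟨k, hk, ?_⟩
    have h1 : z ^ k = 1 := by
      apply Subtype.ext
      rw [Subgroup.coe_pow, hk1, Subgroup.coe_one]
    rw [← map_pow, h1, map_one]
  obtain ⟨D, hD1, hD2, hD3⟩ := sphere_growth htorH (fun v : V => π (gv f V v)) (quot_gen htor hs) n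
  have hinj : Function.Injective (List.map (Subtype.val : V → List T)) :=
    List.map_injective_iff.2 Subtype.val_injective
  refine ⟨D.image (List.map Subtype.val), ?_, ?_, ?_⟩
  · rw [Finset.card_image_of_injective _ hinj]
    exact hD1
  · intro l hl
    rw [Finset.mem_image] at hl
    obtain ⟨l0, hl0, rfl⟩ := hl
    refine ⟨by rw [List.length_map]; exact (hD2 l0 hl0).1, ?_, ?_⟩
    · intro v hv
      rw [List.mem_map] at hv
      obtain ⟨v0, -, rfl⟩ := hv
      exact v0.2
    · intro z' hz' hmem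
      obtain ⟨l', rfl⟩ := exists_lift z' hz'
      rw [List.length_map, List.length_map]
      exact (hD2 l0 hl0).2 l' ((quot_eq hπ l0 l').2 hmem).symm
  · intro l hl l' hl' hmem
    rw [Finset.mem_image] at hl hl'
    obtain ⟨l0, hl0, rfl⟩ := hl
    obtain ⟨l1, hl1, rfl⟩ := hl'
    rw [hD3 l0 hl0 l1 hl1 ((quot_eq hπ l0 l1).2 hmem)]

end Pool.Agent.H.MP_5fffd4_al
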