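import Pool.Agent.H.MP_5fffd4_al.Alg2
import Pool.Agent.H.MP_5fffd4_al.Words2
import Pool.Agent.H.MP_5fffd4_al.Grp

set_option autoImplicit false

namespace Pool.Agent.H.MP_5fffd4_al

variable {T : Type} {G : Type*} [Group G] {g : BG T} {f : T → G}

theorem stage1_fin [Finite T] (hN : Finite g.N) (c : ℕ) (H : g.N → Subgroup G) :
    {K : Subgroup G | ∃ (o : List T) (A : g.N), o.length ≤ c ∧ K = cj (ev f o) (H A)}.Finite := by
  have h1 : ({o : List T | o.length ≤ c} ×ˢ (Set.univ : Set g.N)).Finite :=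
    (List.finite_length_le T c).prod Set.finite_univ
  refine (h1.image fun p : List T × g.N => cj (ev f p.1) (H p.2)).subset ?_
  rintro K ⟨o, A, ho, rfl⟩
  exact ⟨(o, A), ⟨ho, Set.mem_univ _⟩, rfl⟩

theorem stage1_aux {V : Set (List T)} {Y0 : Subgroup G} {c : ℕ}
    (hc : ∀ v ∈ V, v.length ≤ c) (hY0 : Y0 ≤ Gam f V) (hi : Y0.relIndex (Gam f V) ≠ 0)
    (hnrm : Nrm (Gam f V) Y0) {w a b : List T} (hw : Star V w) (hwY : ev f w ∈ Y0)
    (hab : w = a ++ b) (H : Subgroup G)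
    (hF : ∀ o : List T, o.length ≤ c → (cj (ev f o) H).relIndex (Gam f V) ≠ 0 →
      Y0 ≤ cj (ev f o) H)
    (hex : ev f w ∉ cj (ev f a) H) : (cj (ev f a) H).relIndex Y0 = 0 := by
  obtain ⟨a0, o, rfl, ha0, ho⟩ := star_prefix hc hw hab
  have hmem : ev f a0 ∈ Gam f V := ev_mem_Gam ha0
  rw [relIndex_zero_iff hY0 hi]
  by_contra hne
  rw [ev_append, ← cj_cj] at hne hex
  rw [relIndex_cj hmem] at hne
  have h1 := hF o ho hne
  apply hex
  rw [← hnrm _ hmem, mem_cj] at hwY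
  rw [mem_cj]
  exact h1 hwY

/-- STAGE 1. Proof. Let `c` bound the lengths in `V` (`exists_len`), and let `F` be the finite set of
all subgroups `cj (ev f o) (Rg g f A)`, `cj (ev f o) (Lg g f A)`, `o` a word of length `≤ c`,
`A : g.N`. `finite_core` for `Y = Gam f V` and `F` gives `Y0`. `Y0` is finitely generated
(`Gam_fg`, `fg_of_relIndex`) and infinite (`infinite_of_relIndex`); `realize` gives `V'` with
`Gam f V' = Y0`.
Let `w` be in `V'*`, `ev w ≠ 1`, and a node with prefix `p = x ++ u` given. `w` is in `V*`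
(`Star.mono`); `star_prefix`: `x ++ u = a0 ++ o`, `ev a0 ∈ Y` (`ev_mem_Gam`), `o.length ≤ c`. Put
`K = cj (ev o) (Rg A) ∈ F`, so `cj (ev (x ++ u)) (Rg A) = cj (ev a0) K`. Suppose its relative index in
`Y0` is not 0. Then `(cj (ev a0) K).relIndex Y ≠ 0` (`relIndex_zero_iff`), `= K.relIndex Y`
(`relIndex_cj`), so `Y0 ≤ K`, and (`Nrm Y Y0`) `Y0 = cj (ev a0) Y0 ≤ cj (ev a0) K`. But
`ev w ∈ Y0`, contradicting `excl_R`. The same with `x`, `Lg`, `excl_L`. -/
theorem stage1 [Finite T] (hs : Setup g f) (hN : Finite g.N) {V : Set (List T)}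
    (hV : Good f V) :
    ∃ V' : Set (List T), Good f V' ∧ (∀ v ∈ V', Star V v) ∧ S1 g f V' := by
  obtain ⟨c, -, hc⟩ := exists_len hV.fin
  obtain ⟨Y0, hY0, hi, hnrm, hK⟩ := finite_core (Gam f V)
    ({K : Subgroup G | ∃ (o : List T) (A : g.N), o.length ≤ c ∧ K = cj (ev f o) (Rg g f A)} ∪
      {K : Subgroup G | ∃ (o : List T) (A : g.N), o.length ≤ c ∧ K = cj (ev f o) (Lg g f A)})
    ((stage1_fin hN c _).union (stage1_fin hN c _))
  obtain ⟨V', hV'f, hV'n, hV's, hV'g⟩ :=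
    realize hs.tor hY0 (fg_of_relIndex (Gam_fg hV.fin) hY0 hi)
  refine ⟨V', ⟨hV'f, hV'n, ?_⟩, hV's, ?_⟩
  · rw [hV'g]
    exact infinite_of_relIndex hV.inf hY0 hi
  · intro w hw hne A x u y hn
    have hwV : Star V w := hw.mono hV's
    have hwY : ev f w ∈ Y0 := by
      rw [← hV'g]
      exact ev_mem_Gam hw
    rw [hV'g]
    constructor
    · exact stage1_aux hc hY0 hi hnrm hwV hwY hn.eq _
        (fun o ho => hK _ (Or.inl ⟨o, A, ho, rfl⟩)) (excl_R hs hn)
    · refine stage1_aux hc hY0 hi hnrm hwV hwY (b := u ++ y) ?_ _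
        (fun o ho => hK _ (Or.inr ⟨o, A, ho, rfl⟩)) (excl_L hs hn)
      rw [hn.eq, List.append_assoc]

end Pool.Agent.H.MP_5fffd4_al
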