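import Pool.Agent.H.MP_5fffd4_al.Alg2
import Pool.Agent.H.MP_5fffd4_al.Words2
import Pool.Agent.H.MP_5fffd4_al.Grp

set_option autoImplicit false

namespace Pool.Agent.H.MP_5fffd4_al

variable {T : Type} {G : Type*} [Group G] {g : BG T} {f : T → G}

/-- if `K` normalises `H` then every subgroup of `cj p K` normalises `cj p H` -/
theorem Stage3a_nrm {p : G} {K H Y0 : Subgroup G} (h : Nrm K H) (hY : Y0 ≤ cj p K) :
    Nrm Y0 (cj p H) := by
  intro q hq
  have h2 := h _ (mem_cj.1 (hY hq))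
  have h3 : q * p = p * (p⁻¹ * q * p) := by group
  rw [cj_cj, h3, ← cj_cj, h2]

theorem Stage3a_mono {p : G} {K H : Subgroup G} (h : K ≤ H) : cj p K ≤ cj p H := by
  intro z hz
  rw [mem_cj] at hz ⊢
  exact h hz

/-- the core is contained in every `cj (ev a) P` of nonzero relative index, `a` a prefix -/
theorem Stage3a_key {V : Set (List T)} {c : ℕ} (hc : ∀ v ∈ V, v.length ≤ c) {Y0 P : Subgroup G}
    (hn : Nrm (Gam f V) Y0)
    (hK : ∀ o : List T, o.length ≤ c → (cj (ev f o) P).relIndex (Gam f V) ≠ 0 →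
      Y0 ≤ cj (ev f o) P) {w a b : List T} (hw : Star V w) (h : w = a ++ b)
    (hr : (cj (ev f a) P).relIndex (Gam f V) ≠ 0) : Y0 ≤ cj (ev f a) P := by
  obtain ⟨a0, o, rfl, h0, ho⟩ := star_prefix hc hw h
  have h1 : ev f a0 ∈ Gam f V := ev_mem_Gam h0
  rw [ev_append, ← cj_cj] at hr ⊢
  rw [relIndex_cj h1] at hr
  have h2 := Stage3a_mono (p := ev f a0) (hK o ho hr)
  rwa [hn _ h1] at h2

/-- STAGE 3a: pass to a finite index subgroup so that the group normalises all `RR`, `LL` of long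
`Q`-nodes.

Proof. `c` a bound for the lengths in `V`; `F` the finite set of all `cj (ev o) (P1 A)`,
`cj (ev o) (P2 A)`, `o.length ≤ c`, `A : g.N`. `finite_core` for `Y = Gam f V` gives `Y0`, finitely
generated and infinite; `realize` gives `V'` with `Gam f V' = Y0`. For a long `Q`-node `(A; x, u, y)`
of `w` in `V'*` (so in `V*`): `x ++ u = a0 ++ o` (`star_prefix`),
`cj (ev (x ++ u)) (P2 A) = cj (ev a0) K`, `K = cj (ev o) (P2 A) ∈ F`, `ev a0 ∈ Y`; by `S2` and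
`relIndex_cj` `K.relIndex Y ≠ 0`, so `Y0 ≤ K`, `Y0 = cj (ev a0) Y0 ≤ cj (ev (x ++ u)) (P2 A)`, and
`cj p (P2 A)` normalises `cj p (Rg A)` (`nrm_P2`). Same for `x`, `P1`, `Lg`. -/
theorem stage3a [Finite T] (hs : Setup g f) (hN : Finite g.N) {Q : Set g.N}
    {V : Set (List T)} (hV : Good f V) {l2 : ℕ} (h2 : S2 g f V Q l2) :
    ∃ V' : Set (List T), Good f V' ∧ (∀ v ∈ V', Star V v) ∧
      ∀ w, Star V' w → ev f w ≠ 1 → ∀ A ∈ Q, ∀ x u y, Node g w A x u y → l2 < u.length →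
        Nrm (Gam f V') (cj (ev f (x ++ u)) (Rg g f A)) ∧
        Nrm (Gam f V') (cj (ev f x) (Lg g f A)) := by
  obtain ⟨c, -, hc⟩ := exists_len hV.fin
  have h1 : ({o : List T | o.length ≤ c} ×ˢ (Set.univ : Set g.N)).Finite :=
    (List.finite_length_le T c).prod Set.finite_univ
  obtain ⟨Y0, hY0, hi, hn, hK⟩ := finite_core (Gam f V)
    (((fun q : List T × g.N => cj (ev f q.1) (P1 g f q.2)) '' ({o | o.length ≤ c} ×ˢ Set.univ)) ∪
    ((fun q : List T × g.N => cj (ev f q.1) (P2 g f q.2)) '' ({o | o.length ≤ c} ×ˢ Set.univ)))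
    ((h1.image _).union (h1.image _))
  obtain ⟨V', hf', hn', hs', hG'⟩ := realize hs.tor hY0 (fg_of_relIndex (Gam_fg hV.fin) hY0 hi)
  refine ⟨V', ⟨hf', hn', ?_⟩, hs', ?_⟩
  · rw [hG']
    exact infinite_of_relIndex hV.inf hY0 hi
  · intro w hw hw1 A hA x u y hnode hlen
    have hwV : Star V w := Star.mono hs' hw
    obtain ⟨r1, r2⟩ := h2 w hwV hw1 A hA x u y hnode hlen
    rw [hG']
    refine ⟨Stage3a_nrm (nrm_P2 hs A) ?_, Stage3a_nrm (nrm_P1 hs A) ?_⟩
    · exact Stage3a_key hc hn (fun o ho => hK _ (Or.inr ⟨(o, A), ⟨ho, Set.mem_univ _⟩, rfl⟩)) hwV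
        hnode.eq r2
    · refine Stage3a_key hc hn (fun o ho => hK _ (Or.inl ⟨(o, A), ⟨ho, Set.mem_univ _⟩, rfl⟩)) hwV
        (b := u ++ y) ?_ r1
      rw [hnode.eq, List.append_assoc]

end Pool.Agent.H.MP_5fffd4_al
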