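import Pool.Agent.H.MP_5fffd4_al.InvHom
import Pool.Agent.H.MP_5fffd4_al.Main

set_option autoImplicit false

namespace Pool.Agent.H.MP_5fffd4_al

universe u

theorem Subgrp_exists_word {G : Type u} [Group G] {k : ℕ} (f : Fin k → G)
    (hgen : Submonoid.closure (Set.range f) = ⊤) (x : G) :
    ∃ w : List (Fin k), (w.map f).prod = x := by
  have hx : x ∈ Submonoid.closure (Set.range f) := by rw [hgen]; exact Submonoid.mem_top x
  induction hx using Submonoid.closure_induction with
  | mem y hy =>
    obtain ⟨i, rfl⟩ := hy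
    exact ⟨[i], by simp⟩
  | one => exact ⟨[], rfl⟩
  | mul a b _ _ ha hb =>
    obtain ⟨wa, rfl⟩ := ha
    obtain ⟨wb, rfl⟩ := hb
    exact ⟨wa ++ wb, by simp⟩

theorem Subgrp_prod_flatMap {G : Type u} [Group G] {T U : Type} (f : T → G) (φ : U → List T)
    (e : U → G) (he : ∀ i, ((φ i).map f).prod = e i) (w : List U) :
    ((w.flatMap φ).map f).prod = (w.map e).prod := by
  induction w with
  | nil => simp
  | cons a w ih => simp [List.flatMap_cons, ih, he]

/-- Finitely generated torsion subgroups of co-context-free groups are finite.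

Proof. `exists_BG` gives a grammar `g` of the co-word problem. Let `S` be a finite set generating `H`,
without 1 (`Subgroup.closure (S \ {1}) = closure S`), `U = S` as a subtype (finite). Every element of
`G` is `(w.map f).prod` for a word `w` (`hgen`), so choose `φ : U → List (Fin k)` with value the element;
it is not `[]` as the element is not 1. `inv_hom` gives `g'` with
`Der g' g'.S w ↔ Der g g.S (w.flatMap φ) ↔ ev f (w.flatMap φ) ≠ 1`, and `ev f (w.flatMap φ)` is the value in
`G` of `ev f' w`, `f' : U → H`. So `Setup g' f'` holds for the group `H`; `finite_of_setup`. The alphabet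
type `U` must be in `Type`: use `Fin m` with an enumeration of `S` instead of the subtype. -/
theorem torsion_subgroup_finite {G : Type u} [Group G] {k : ℕ}
    (f : Fin k → G) (hgen : Submonoid.closure (Set.range f) = ⊤)
    (hcf : Language.IsContextFree
      ({w : List (Fin k) | (w.map f).prod ≠ 1} : Language (Fin k))) (H : Subgroup G)
    (hfg : H.FG) (htor : ∀ x ∈ H, IsOfFinOrder x) : Finite H := by
  classical
  obtain ⟨g, hN, hg⟩ := exists_BG hcf
  obtain ⟨S, hS⟩ := hfg
  obtain ⟨S', hS'⟩ : ∃ S' : Finset G, S' = S.erase 1 := ⟨_, rfl⟩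
  have hcl : Subgroup.closure (S' : Set G) = H := by
    rw [← hS, hS', Finset.coe_erase, Subgroup.closure_sdiff_one]
  have hne : ∀ x ∈ S', x ≠ 1 := fun x hx => by
    rw [hS'] at hx; exact (Finset.mem_erase.1 hx).1
  have hmem : ∀ x ∈ S', x ∈ H := fun x hx => by
    rw [← hcl]; exact Subgroup.subset_closure hx
  let en : Fin S'.card ≃ S' := S'.equivFin.symm
  have hw : ∀ i : Fin S'.card, ∃ w : List (Fin k), (w.map f).prod = (en i : G) := fun i =>
    Subgrp_exists_word f hgen _
  choose φ hφ using hw
  have hφne : ∀ i, φ i ≠ [] := by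
    intro i h
    have h1 := hφ i
    rw [h] at h1
    exact hne _ (en i).2 (by simpa using h1.symm)
  obtain ⟨g', hN', hg'⟩ := inv_hom g hN φ hφne
  let f' : Fin S'.card → H := fun i => ⟨(en i : G), hmem _ (en i).2⟩
  have hval : ∀ w : List (Fin S'.card), ((ev f' w : H) : G) = ((w.flatMap φ).map f).prod := by
    intro w
    rw [Subgrp_prod_flatMap f φ (fun i => (en i : G)) hφ w]
    have h1 : ((ev f' w : H) : G) = H.subtype ((w.map f').prod) := rfl
    rw [h1, map_list_prod, List.map_map]
    rfl
  have hs : Setup g' f' := by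
    refine ⟨fun x => ?_, fun w => ?_⟩
    · have h1 := htor x.1 x.2
      have h2 : IsOfFinOrder (H.subtype x) := h1
      exact (Function.Injective.isOfFinOrder_iff (Subgroup.subtype_injective H)).1 h2
    · rw [hg' w, hg (w.flatMap φ)]
      have h1 : ((w.flatMap φ).map f).prod = ((ev f' w : H) : G) := (hval w).symm
      change ((w.flatMap φ).map f).prod ≠ 1 ↔ ev f' w ≠ 1
      rw [h1]
      exact not_congr ⟨fun h => Subtype.ext h, fun h => by rw [h]; rfl⟩
  refine finite_of_setup hs hN' ?_
  have hr : (H.subtype) '' (Set.range f') = (S' : Set G) := by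
    ext x
    constructor
    · rintro ⟨_, ⟨i, rfl⟩, rfl⟩
      exact (en i).2
    · intro hx
      obtain ⟨i, hi⟩ := en.surjective ⟨x, hx⟩
      refine ⟨f' i, ⟨i, rfl⟩, ?_⟩
      change ((en i : G)) = x
      rw [hi]
  have h2 : (Subgroup.closure (Set.range f')).map H.subtype = H := by
    rw [MonoidHom.map_closure, hr, hcl]
  refine eq_top_iff.2 fun x _ => ?_
  have h3 : (x : G) ∈ (Subgroup.closure (Set.range f')).map H.subtype := by rw [h2]; exact x.2
  obtain ⟨y, hy, hyx⟩ := h3
  have : y = x := Subtype.ext hyx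
  rwa [this] at hy

end Pool.Agent.H.MP_5fffd4_al
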