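import Pool.Agent.H.MP_5fffd4_al.Defs

set_option autoImplicit false

namespace Pool.Agent.H.MP_5fffd4_al

variable {T : Type}

/-- derivations in which every `P`-child derives a word of length at most `l` -/
inductive BDer (g : BG T) (P : Set g.N) (l : ℕ) : g.N → List T → Prop
  | term {A : g.N} {a : T} : g.term A a → BDer g P l A [a]
  | eps {A : g.N} : g.eps A → BDer g P l A []
  | bin {A B C : g.N} {u v : List T} : g.bin A B C → BDer g P l B u → BDer g P l C v →
      (B ∈ P → u.length ≤ l) → (C ∈ P → v.length ≤ l) → BDer g P l A (u ++ v)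

/-- contexts whose side words derived from `P`-nonterminals have length at most `l` -/
inductive BCtx (g : BG T) (P : Set g.N) (l : ℕ) : g.N → g.N → List T → List T → Prop
  | refl (A : g.N) : BCtx g P l A A [] []
  | left {A B C D : g.N} {x y v : List T} : g.bin A B C → Der g C v → (C ∈ P → v.length ≤ l) →
      BCtx g P l B D x y → BCtx g P l A D x (y ++ v)
  | right {A B C D : g.N} {x y u : List T} : g.bin A B C → Der g B u → (B ∈ P → u.length ≤ l) →
      BCtx g P l C D x y → BCtx g P l A D (u ++ x) y

theorem BDer.der {g : BG T} {P : Set g.N} {l : ℕ} {A : g.N} {u : List T} (h : BDer g P l A u) :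
    Der g A u := by
  induction h with
  | term h => exact Der.term h
  | eps h => exact Der.eps h
  | bin h _ _ _ _ ih1 ih2 => exact Der.bin h ih1 ih2

theorem BCtx.ctx {g : BG T} {P : Set g.N} {l : ℕ} {A B : g.N} {x y : List T}
    (h : BCtx g P l A B x y) : Ctx g A B x y := by
  induction h with
  | refl A => exact Ctx.refl A
  | left h hv _ _ ih => exact Ctx.left h hv ih
  | right h hu _ _ ih => exact Ctx.right h hu ih

theorem BCtx.trans {g : BG T} {P : Set g.N} {l : ℕ} {A B C : g.N} {x y x' y' : List T}
    (h : BCtx g P l A B x y) (h' : BCtx g P l B C x' y') :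
    BCtx g P l A C (x ++ x') (y' ++ y) := by
  induction h with
  | refl A => simpa using h'
  | left hb hv hl _ ih =>
    have := BCtx.left hb hv hl (ih h')
    rwa [List.append_assoc] at this
  | right hb hu hl _ ih =>
    have := BCtx.right hb hu hl (ih h')
    rwa [← List.append_assoc] at this

/-- If all `P`-nodes of the word `w` are short, then every derivation at a node of `w` is
bounded. -/
theorem bder_of_node {g : BG T} {P : Set g.N} {l : ℕ} {w : List T}
    (hw : ∀ A ∈ P, ∀ x u y, Node g w A x u y → u.length ≤ l) {A : g.N} {x u y : List T}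
    (hn : Node g w A x u y) : BDer g P l A u := by
  have key : ∀ (A : g.N) (u : List T), Der g A u → ∀ x y, Node g w A x u y → BDer g P l A u := by
    intro A u hd
    induction hd with
    | term h => intro x y _; exact BDer.term h
    | eps h => intro x y _; exact BDer.eps h
    | @bin A B C u v hb hu hv ih1 ih2 =>
      intro x y hn
      have n1 : Node g w B (x ++ []) u (v ++ y) := by
        have h1 : Ctx g A B [] v := by
          have := Ctx.left hb hv (Ctx.refl B)
          simpa using this
        exact hn.sub h1 hu (by simp)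
      have n2 : Node g w C (x ++ u) v ([] ++ y) := by
        have h1 : Ctx g A C u [] := by
          have := Ctx.right hb hu (Ctx.refl C)
          simpa using this
        exact hn.sub h1 hv (by simp)
      exact BDer.bin hb (ih1 _ _ n1) (ih2 _ _ n2) (fun hB => hw B hB _ _ _ n1)
        (fun hC => hw C hC _ _ _ n2)
  exact key A u hn.der x y hn

/-- contexts below a node are bounded -/
theorem bctx_of_node {g : BG T} {P : Set g.N} {l : ℕ} {w : List T}
    (hw : ∀ A ∈ P, ∀ x u y, Node g w A x u y → u.length ≤ l) {A B : g.N}
    {x u y x' u' y' : List T} (hn : Node g w A x u y) (hc : Ctx g A B x' y') (hd : Der g B u')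
    (hu : u = x' ++ u' ++ y') : BCtx g P l A B x' y' := by
  have key : ∀ (A B : g.N) (x' y' : List T), Ctx g A B x' y' → ∀ x u y u', Node g w A x u y →
      Der g B u' → u = x' ++ u' ++ y' → BCtx g P l A B x' y' := by
    intro A B x' y' hc
    induction hc with
    | refl A => intros; exact BCtx.refl A
    | @left A B C D x' y' v hb hv hc ih =>
      intro x u y u' hn hd hu
      have hBd : Der g B (x' ++ u' ++ y') := hc.der hd
      have n1 : Node g w B (x ++ []) (x' ++ u' ++ y') (v ++ y) := by
        have h1 : Ctx g A B [] v := by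
          have := Ctx.left hb hv (Ctx.refl B)
          simpa using this
        exact hn.sub h1 hBd (by simp [hu])
      have n2 : Node g w C (x ++ (x' ++ u' ++ y')) v ([] ++ y) := by
        have h1 : Ctx g A C (x' ++ u' ++ y') [] := by
          have := Ctx.right hb hBd (Ctx.refl C)
          simpa using this
        exact hn.sub h1 hv (by simp [hu])
      exact BCtx.left hb hv (fun hC => hw C hC _ _ _ n2) (ih _ _ _ _ n1 hd rfl)
    | @right A B C D x' y' v hb hv hc ih =>
      intro x u y u' hn hd hu
      have hCd : Der g C (x' ++ u' ++ y') := hc.der hd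
      have n1 : Node g w C (x ++ v) (x' ++ u' ++ y') ([] ++ y) := by
        have h1 : Ctx g A C v [] := by
          have := Ctx.right hb hv (Ctx.refl C)
          simpa using this
        exact hn.sub h1 hCd (by simp [hu])
      have n2 : Node g w B (x ++ []) v ((x' ++ u' ++ y') ++ y) := by
        have h1 : Ctx g A B [] (x' ++ u' ++ y') := by
          have := Ctx.left hb hCd (Ctx.refl B)
          simpa using this
        exact hn.sub h1 hv (by simp [hu])
      exact BCtx.right hb hv (fun hB => hw B hB _ _ _ n2) (ih _ _ _ _ n1 hd rfl)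
  exact key A B x' y' hc x u y u' hn hd hu

/-- intermediate nonterminals of a context between two elements of `Q` stay in `Q` -/
theorem mid_mem {g : BG T} {P Q : Set g.N} (hQ : Cls g P Q) {A B C : g.N} (hA : A ∈ Q)
    (hB : B ∈ Q) {x y x' y' : List T} (h1 : Ctx g A C x y) (h2 : Ctx g C B x' y') : C ∈ Q := by
  obtain ⟨a, b, h3⟩ := (hQ.eqv A hA B hB).2
  exact hQ.full A hA C ⟨⟨x, y, h1⟩, ⟨_, _, h2.trans h3⟩⟩

end Pool.Agent.H.MP_5fffd4_al
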