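import Pool.Agent.H.MP_5fffd4_al.Defs

set_option autoImplicit false

namespace Pool.Agent.H.MP_5fffd4_al

variable {T : Type} {G : Type*} [Group G] {f : T → G}

/-- values of words of `V*` are in the group generated by `V` -/
theorem ev_mem_Gam {V : Set (List T)} {w : List T} (hw : Star V w) : ev f w ∈ Gam f V := by
  obtain ⟨L, hL, rfl⟩ := hw
  induction L with
  | nil =>
    rw [List.flatten_nil, ev_nil]
    exact (Gam f V).one_mem
  | cons a L ih =>
    rw [List.flatten_cons, ev_append]
    refine (Gam f V).mul_mem (Subgroup.subset_closure ⟨a, hL a (by simp), rfl⟩)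
      (ih fun v hv => hL v (by simp [hv]))

theorem star_pow {V : Set (List T)} {w : List T} (hw : Star V w) (k : ℕ) :
    ∃ w', Star V w' ∧ ev f w' = ev f w ^ k := by
  induction k with
  | zero => exact ⟨[], Star.nil V, by rw [ev_nil, pow_zero]⟩
  | succ k ih =>
    obtain ⟨w', h1, h2⟩ := ih
    exact ⟨w' ++ w, h1.append hw, by rw [ev_append, h2, pow_succ]⟩

/-- In a torsion group the group generated by `V` consists of the values of words of `V*`
(closure under inverses: `x⁻¹ = x ^ (orderOf x - 1)`). -/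
theorem mem_Gam (htor : ∀ x : G, IsOfFinOrder x) {V : Set (List T)} {z : G} :
    z ∈ Gam f V ↔ ∃ w, Star V w ∧ ev f w = z := by
  constructor
  · intro hz
    unfold Gam at hz
    induction hz using Subgroup.closure_induction with
    | mem x hx =>
      obtain ⟨v, hv, rfl⟩ := hx
      exact ⟨v, Star.of_mem hv, rfl⟩
    | one => exact ⟨[], Star.nil V, rfl⟩
    | mul x y _ _ hx hy =>
      obtain ⟨a, ha, rfl⟩ := hx
      obtain ⟨b, hb, rfl⟩ := hy
      exact ⟨a ++ b, ha.append hb, ev_append f a b⟩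
    | inv x _ hx =>
      obtain ⟨a, ha, rfl⟩ := hx
      obtain ⟨w', h1, h2⟩ := star_pow (f := f) ha (orderOf (ev f a) - 1)
      refine ⟨w', h1, ?_⟩
      rw [h2, eq_inv_iff_mul_eq_one, ← pow_succ, Nat.sub_add_cancel (htor _).orderOf_pos,
        pow_orderOf_eq_one]
  · rintro ⟨w, hw, rfl⟩
    exact ev_mem_Gam hw

theorem Gam_mono {V V' : Set (List T)} (h : ∀ v ∈ V', Star V v) : Gam f V' ≤ Gam f V := by
  refine (Subgroup.closure_le _).2 ?_
  rintro _ ⟨v, hv, rfl⟩
  exact ev_mem_Gam (h v hv)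

/-- the group of a finite set of words is finitely generated -/
theorem Gam_fg {V : Set (List T)} (hV : V.Finite) : (Gam f V).FG :=
  (Subgroup.fg_iff _).2 ⟨ev f '' V, rfl, hV.image _⟩

/-- a finite set of words has bounded lengths; the bound is positive -/
theorem exists_len {V : Set (List T)} (hV : V.Finite) : ∃ c, 0 < c ∧ ∀ v ∈ V, v.length ≤ c := by
  obtain ⟨c, hc⟩ := (hV.image List.length).bddAbove
  exact ⟨c + 1, Nat.succ_pos c, fun v hv => (hc ⟨v, hv, rfl⟩).trans (Nat.le_succ c)⟩

/-- Prefixes of words of `V*`: `w = a ++ b` gives `a = a0 ++ o` with `a0` in `V*` and either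
`o = []` or `o` a proper prefix of an element of `V`. Formulated with the list of factors. -/
theorem list_prefix {c : ℕ} (L : List (List T)) (hc : ∀ v ∈ L, v.length ≤ c) (a b : List T)
    (h : L.flatten = a ++ b) :
    ∃ L1 L2 o o', L = L1 ++ L2 ∧ a = L1.flatten ++ o ∧ L2.flatten = o ++ b ∧ o.length ≤ c ∧
      o'.length ≤ c ∧ (o = [] ∧ o' = [] ∨ ∃ L3, L2 = (o ++ o') :: L3) := by
  induction L generalizing a with
  | nil =>
    rw [List.flatten_nil] at h
    obtain ⟨rfl, rfl⟩ := List.append_eq_nil_iff.1 h.symm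
    exact ⟨[], [], [], [], rfl, rfl, rfl, Nat.zero_le _, Nat.zero_le _, Or.inl ⟨rfl, rfl⟩⟩
  | cons v L ih =>
    rw [List.flatten_cons, List.append_eq_append_iff] at h
    rcases h with ⟨a', rfl, h2⟩ | ⟨c', h1, h2⟩
    · obtain ⟨L1, L2, o, o', e1, e2, e3, e4, e5, e6⟩ :=
        ih (fun v hv => hc v (List.mem_cons_of_mem _ hv)) a' h2
      refine ⟨v :: L1, L2, o, o', by rw [e1, List.cons_append], ?_, e3, e4, e5, e6⟩
      rw [e2, List.flatten_cons, List.append_assoc]
    · have hv : a.length + c'.length ≤ c := by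
        have := hc v List.mem_cons_self
        rw [h1, List.length_append] at this
        exact this
      refine ⟨[], v :: L, a, c', rfl, rfl, ?_, by omega, by omega, Or.inr ⟨L, by rw [h1]⟩⟩
      rw [List.flatten_cons, h1, h2, List.append_assoc]

theorem star_prefix {V : Set (List T)} {c : ℕ} (hc : ∀ v ∈ V, v.length ≤ c) {w a b : List T}
    (hw : Star V w) (h : w = a ++ b) : ∃ a0 o, a = a0 ++ o ∧ Star V a0 ∧ o.length ≤ c := by
  obtain ⟨L, hL, rfl⟩ := hw
  obtain ⟨L1, L2, o, o', e1, e2, -, e4, -, -⟩ := list_prefix L (fun v hv => hc v (hL v hv)) a b h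
  refine ⟨L1.flatten, o, e2, ⟨L1, fun v hv => hL v ?_, rfl⟩, e4⟩
  rw [e1]
  exact List.mem_append_left _ hv

theorem star_head {X : Set (List T)} {c : ℕ} (hc : ∀ v ∈ X, v.length ≤ c) (M : List (List T))
    (hM : ∀ v ∈ M, v ∈ X) (z b : List T) (h : M.flatten = z ++ b) (hz : c + 1 ≤ z.length) :
    ∃ e z2, z = e ++ z2 ∧ e ∈ X ∧ Star X (z2 ++ b) := by
  cases M with
  | nil =>
    rw [List.flatten_nil] at h
    obtain ⟨rfl, rfl⟩ := List.append_eq_nil_iff.1 h.symm
    exact absurd hz (by simp)
  | cons e M =>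
    rw [List.flatten_cons, List.append_eq_append_iff] at h
    have he := hc e (hM e List.mem_cons_self)
    rcases h with ⟨z2, h1, h2⟩ | ⟨c', h1, h2⟩
    · exact ⟨e, z2, h1, hM e List.mem_cons_self, ⟨M, fun v hv => hM v (List.mem_cons_of_mem _ hv),
        h2.symm⟩⟩
    · rw [h1, List.length_append] at he
      omega

/-- A window longer than twice the maximal length contains a full factor.

Proof: `list_prefix` for the prefix `a`: `w = L1.flatten ++ (L2).flatten`, `a = L1.flatten ++ o`,
`L2 = (o ++ o') :: L3` (or `o = []`), `z = o' ++ z'`, `z'.length > c`; then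
`L3.flatten = z' ++ b`, so `L3 = e :: L4` with `e.length ≤ c < z'.length` (skip possible
empty factors is not needed: any first element `e` has length `≤ c`), `z' = e ++ z2`. -/
theorem star_window {X : Set (List T)} {c : ℕ} (hc : ∀ v ∈ X, v.length ≤ c) {w a z b : List T}
    (hw : Star X w) (h : w = a ++ z ++ b) (hz : 2 * c + 1 ≤ z.length) :
    ∃ z1 e z2, z = z1 ++ e ++ z2 ∧ e ∈ X ∧ Star X (a ++ z1) ∧ Star X (z2 ++ b) := by
  obtain ⟨L, hL, rfl⟩ := hw
  rw [List.append_assoc] at h
  obtain ⟨L1, L2, o, o', e1, e2, e3, e4, e5, e6⟩ :=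
    list_prefix L (fun v hv => hc v (hL v hv)) a (z ++ b) h
  have hL1 : ∀ v ∈ L1, v ∈ X := fun v hv => hL v (by rw [e1]; exact List.mem_append_left _ hv)
  have hL2 : ∀ v ∈ L2, v ∈ X := fun v hv => hL v (by rw [e1]; exact List.mem_append_right _ hv)
  rcases e6 with ⟨rfl, rfl⟩ | ⟨L3, e6⟩
  · rw [List.nil_append] at e3
    obtain ⟨e, z2, h1, h2, h3⟩ := star_head hc L2 hL2 z b e3 (by omega)
    refine ⟨[], e, z2, by rw [h1, List.nil_append], h2, ⟨L1, hL1, ?_⟩, h3⟩
    rw [e2, List.append_nil, List.append_nil]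
  · subst e6
    rw [List.flatten_cons, List.append_assoc] at e3
    have e7 := List.append_cancel_left e3
    rw [List.append_eq_append_iff] at e7
    rcases e7 with ⟨z', h1, h2⟩ | ⟨c', h1, h2⟩
    · have hz' : c + 1 ≤ z'.length := by
        rw [h1, List.length_append] at hz
        omega
      obtain ⟨e, z2, g1, g2, g3⟩ :=
        star_head hc L3 (fun v hv => hL2 v (List.mem_cons_of_mem _ hv)) z' b h2 hz'
      refine ⟨o', e, z2, by rw [h1, g1, List.append_assoc], g2, ⟨L1 ++ [o ++ o'], ?_, ?_⟩, g3⟩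
      · intro v hv
        rcases List.mem_append.1 hv with hv | hv
        · exact hL1 v hv
        · rw [List.mem_singleton.1 hv]
          exact hL2 _ List.mem_cons_self
      · rw [e2]
        simp
    · rw [h1, List.length_append] at e5
      omega

end Pool.Agent.H.MP_5fffd4_al
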